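import Mathlib

/-!
# Specialisation of finitely generated domains
-/

set_option autoImplicit false
set_option linter.unusedSectionVars false
set_option linter.deprecated false

namespace Pool.Agent.Y166.GM

open Polynomial

/-- Points of a finitely generated domain over a given point of the base. -/
theorem exists_spec {A C W : Type} [CommRing A] [CommRing C] [IsDomain C] (f : A →+* C)
    (hf : f.FiniteType) [Field W] [IsAlgClosed W] (g : A →+* W)
    (hker : RingHom.ker g = RingHom.ker f) (H : C) (hH : H ≠ 0) :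
    ∃ χ : C →+* W, χ.comp f = g ∧ χ H ≠ 0 ∧
      ∀ x, ∃ p : Polynomial A, p.map g ≠ 0 ∧ p.eval₂ g (χ x) = 0 := by
  classical
  haveI hprime : (RingHom.ker f).IsPrime := RingHom.ker_isPrime f
  set R0 := A ⧸ RingHom.ker f with hR0
  let f0 : R0 →+* C := Ideal.Quotient.lift (RingHom.ker f) f (fun a ha => ha)
  let g0 : R0 →+* W := Ideal.Quotient.lift (RingHom.ker f) g (fun a ha => by
    rw [← hker] at ha
    exact ha)
  have hf0 : Function.Injective f0 := by
    rw [injective_iff_map_eq_zero]
    intro a ha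
    obtain ⟨b, rfl⟩ := Ideal.Quotient.mk_surjective a
    rw [Ideal.Quotient.eq_zero_iff_mem]
    exact ha
  have hg0 : Function.Injective g0 := by
    rw [injective_iff_map_eq_zero]
    intro a ha
    obtain ⟨b, rfl⟩ := Ideal.Quotient.mk_surjective a
    rw [Ideal.Quotient.eq_zero_iff_mem, ← hker]
    exact ha
  let K0 := FractionRing R0
  let F := FractionRing C
  have hj : Function.Injective ((algebraMap C F).comp f0) :=
    (IsFractionRing.injective C F).comp hf0
  let j : K0 →+* F := IsFractionRing.lift (A := R0) (K := K0) hj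
  let g1 : K0 →+* W := IsFractionRing.lift (A := R0) (K := K0) hg0
  have hjc : ∀ a : A, j (algebraMap R0 K0 (Ideal.Quotient.mk _ a)) = algebraMap C F (f a) := by
    intro a
    rw [IsFractionRing.lift_algebraMap]
    rfl
  have hg1c : ∀ a : A, g1 (algebraMap R0 K0 (Ideal.Quotient.mk _ a)) = g a := by
    intro a
    rw [IsFractionRing.lift_algebraMap]
    rfl
  letI : Algebra K0 F := j.toAlgebra
  letI : Algebra K0 W := g1.toAlgebra
  letI : Algebra A C := f.toAlgebra
  obtain ⟨s, hs⟩ : (⊤ : Subalgebra A C).FG := by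
    have : Algebra.FiniteType A C := hf
    exact this.out
  let C' : Subalgebra K0 F :=
    Algebra.adjoin K0 (((insert (algebraMap C F H)⁻¹ (s.image (algebraMap C F)) : Finset F)) : Set F)
  haveI hft : Algebra.FiniteType K0 C' := by
    rw [← Subalgebra.fg_iff_finiteType]
    exact Subalgebra.fg_adjoin_finset _
  have hC' : ∀ x : C, algebraMap C F x ∈ C' := by
    intro x
    have hx : x ∈ Algebra.adjoin A (s : Set C) := by rw [hs]; trivial
    induction hx using Algebra.adjoin_induction with
    | mem y hy =>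
      apply Algebra.subset_adjoin
      rw [Finset.coe_insert, Finset.coe_image]
      exact Or.inr ⟨y, hy, rfl⟩
    | algebraMap a =>
      have : algebraMap C F (algebraMap A C a) =
          algebraMap K0 F (algebraMap R0 K0 (Ideal.Quotient.mk _ a)) := (hjc a).symm
      rw [this]
      exact Subalgebra.algebraMap_mem _ _
    | add y z _ _ hy hz => rw [map_add]; exact add_mem hy hz
    | mul y z _ _ hy hz => rw [map_mul]; exact mul_mem hy hz
  obtain ⟨m, hm⟩ := Ideal.exists_maximal C'
  letI : Field (C' ⧸ m) := Ideal.Quotient.field m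
  haveI : Module.Finite K0 (C' ⧸ m) := finite_of_finite_type_of_isJacobsonRing K0 (C' ⧸ m)
  haveI : Algebra.IsAlgebraic K0 (C' ⧸ m) := Algebra.IsAlgebraic.of_finite K0 _
  let ψ : (C' ⧸ m) →ₐ[K0] W := IsAlgClosed.lift
  let ι : C →+* C' := (algebraMap C F).codRestrict C'.toSubring hC'
  let χ : C →+* W := (ψ : (C' ⧸ m) →+* W).comp ((Ideal.Quotient.mk m).comp ι)
  refine ⟨χ, ?_, ?_, ?_⟩
  · ext a
    have h1 : ι (f a) = algebraMap K0 C' (algebraMap R0 K0 (Ideal.Quotient.mk _ a)) := by
      apply Subtype.ext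
      exact (hjc a).symm
    show ψ (Ideal.Quotient.mk m (ι (f a))) = g a
    rw [h1]
    have h2 : Ideal.Quotient.mk m (algebraMap K0 C' (algebraMap R0 K0 (Ideal.Quotient.mk _ a))) =
        algebraMap K0 (C' ⧸ m) (algebraMap R0 K0 (Ideal.Quotient.mk _ a)) := rfl
    rw [h2, AlgHom.commutes]
    exact hg1c a
  · have hmem : (algebraMap C F H)⁻¹ ∈ C' := by
      apply Algebra.subset_adjoin
      rw [Finset.coe_insert]
      exact Or.inl rfl
    have hne : algebraMap C F H ≠ 0 := by
      rw [Ne, IsFractionRing.to_map_eq_zero_iff (R := C) (K := F)]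
      exact hH
    have h1 : ι H * ⟨_, hmem⟩ = 1 := by
      apply Subtype.ext
      exact mul_inv_cancel₀ hne
    intro h0
    have h2 : χ H * ψ (Ideal.Quotient.mk m ⟨_, hmem⟩) = 1 := by
      show ψ (Ideal.Quotient.mk m (ι H)) * ψ (Ideal.Quotient.mk m ⟨_, hmem⟩) = 1
      rw [← map_mul, ← map_mul, h1, map_one, map_one]
    rw [h0, zero_mul] at h2
    exact zero_ne_one h2
  · intro x
    have h1 : IsAlgebraic K0 (χ x) := by
      have h2 : IsAlgebraic K0 (Ideal.Quotient.mk m (ι x)) := Algebra.IsAlgebraic.isAlgebraic _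
      exact h2.algHom ψ
    letI : Algebra R0 W := g0.toAlgebra
    haveI : IsScalarTower R0 K0 W := IsScalarTower.of_algebraMap_eq fun a => by
      show g0 a = g1 (algebraMap R0 K0 a)
      exact (IsFractionRing.lift_algebraMap hg0 a).symm
    have h3 : IsAlgebraic R0 (χ x) := (IsFractionRing.isAlgebraic_iff R0 K0 W).2 h1
    obtain ⟨p, hp, hp0⟩ := h3
    obtain ⟨q, rfl⟩ := Polynomial.map_surjective (Ideal.Quotient.mk (RingHom.ker f))
      Ideal.Quotient.mk_surjective p
    refine ⟨q, ?_, ?_⟩
    · intro h0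
      apply hp
      have h4 : (q.map (Ideal.Quotient.mk (RingHom.ker f))).map g0 = q.map g := by
        rw [Polynomial.map_map]
        rfl
      rw [h0] at h4
      exact (Polynomial.map_injective g0 hg0) (by rw [h4, Polynomial.map_zero])
    · rw [Polynomial.aeval_def, Polynomial.eval₂_map] at hp0
      exact hp0

/-- Specialisation to an algebraically closed base field. -/
theorem exists_spec_field {k C : Type} [Field k] [IsAlgClosed k] [CommRing C] [IsDomain C]
    [Algebra k C] (hf : Algebra.FiniteType k C) (H : C) (hH : H ≠ 0) :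
    ∃ χ : C →ₐ[k] k, χ H ≠ 0 := by
  obtain ⟨χ, h1, h2, _⟩ := exists_spec (algebraMap k C)
    (RingHom.finiteType_algebraMap.2 hf) (RingHom.id k) (by
    rw [(RingHom.injective_iff_ker_eq_bot _).1 (algebraMap k C).injective,
      (RingHom.injective_iff_ker_eq_bot _).1 (RingHom.id k).injective]) H hH
  refine ⟨⟨χ, fun r => ?_⟩, h2⟩
  exact congrArg (fun φ : k →+* k => φ r) h1

end Pool.Agent.Y166.GM
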