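import Mathlib
import Pool.Agent.Y166.GM.Spec

/-!
# Regularity of extensions of algebraically closed fields
-/

set_option autoImplicit false
set_option linter.unusedSectionVars false
set_option linter.deprecated false

namespace Pool.Agent.Y166.GM

open Polynomial
open scoped IntermediateField.algebraAdjoinAdjoin

/-- Homogeneous form of a polynomial relation. -/
theorem homog_rel {M F : Type} [CommRing M] [Field F] (φ : M →+* F) (P : M[X]) (a b : M)
    (hb : φ b ≠ 0) :
    φ (∑ j ∈ Finset.range (P.natDegree + 1), P.coeff j * a ^ j * b ^ (P.natDegree - j)) =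
      φ b ^ P.natDegree * P.eval₂ φ (φ a / φ b) := by
  rw [map_sum, Polynomial.eval₂_eq_sum_range, Finset.mul_sum]
  refine Finset.sum_congr rfl fun j hj => ?_
  have hj' : j ≤ P.natDegree := Nat.lt_succ_iff.1 (Finset.mem_range.1 hj)
  rw [map_mul, map_mul, map_pow, map_pow]
  obtain ⟨l, hl⟩ := Nat.exists_eq_add_of_le hj'
  have h2 : P.natDegree - j = l := by omega
  rw [h2, hl, pow_add, div_pow]
  field_simp

/-- If `y` is algebraically independent over `E ⊇ k`, `k` algebraically closed, then the elements
of `E(y)` which are algebraic over `k(y)` lie in `k(y)`. -/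
theorem lemC {k E W σ : Type} [Field k] [IsAlgClosed k] [Field E] [Field W] [Algebra k E]
    [Algebra E W] [Algebra k W] [IsScalarTower k E W] (y : σ → W)
    (hy : AlgebraicIndependent E y) (θ : W)
    (h1 : θ ∈ IntermediateField.adjoin E (Set.range y))
    (h2 : IsAlgebraic (IntermediateField.adjoin k (Set.range y)) θ) :
    θ ∈ IntermediateField.adjoin k (Set.range y) := by
  classical
  obtain ⟨N, D, hθ⟩ := (IntermediateField.mem_adjoin_range_iff E y θ).1 h1
  by_cases hD0 : D = 0
  · rw [hθ, hD0, map_zero, div_zero]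
    exact zero_mem _
  have hyk : AlgebraicIndependent k y := hy.restrictScalars (algebraMap k E).injective
  have hinjE := algebraicIndependent_iff_injective_aeval.1 hy
  have hinjk := algebraicIndependent_iff_injective_aeval.1 hyk
  set K := IntermediateField.adjoin k (Set.range y) with hK
  set R0 := Algebra.adjoin k (Set.range y) with hR0
  have hint : IsIntegral K θ := h2.isIntegral
  obtain ⟨b, hb, hbP⟩ := IsLocalization.integerNormalization_spec (nonZeroDivisors R0)
    (minpoly K θ)
  set P' := IsLocalization.integerNormalization (nonZeroDivisors R0) (minpoly K θ) with hP'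
  have hb0 : b ≠ 0 := nonZeroDivisors.ne_zero hb
  -- lift to polynomials over the polynomial ring
  let φ : MvPolynomial σ k →+* R0 :=
    ((MvPolynomial.aeval y : MvPolynomial σ k →ₐ[k] W) : MvPolynomial σ k →+* W).codRestrict
      R0.toSubring (fun p => by
        show MvPolynomial.aeval y p ∈ Algebra.adjoin k (Set.range y)
        rw [Algebra.adjoin_range_eq_range_aeval]
        exact ⟨p, rfl⟩)
  have hφ : Function.Surjective φ := by
    rintro ⟨x, hx⟩
    have hx' : x ∈ Algebra.adjoin k (Set.range y) := hx
    rw [Algebra.adjoin_range_eq_range_aeval] at hx'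
    obtain ⟨p, hp⟩ := hx'
    exact ⟨p, Subtype.ext hp⟩
  have hφv : ∀ p, ((φ p : R0) : W) = MvPolynomial.aeval y p := fun p => rfl
  obtain ⟨P, hP⟩ := Polynomial.map_surjective φ hφ P'
  -- evaluation at elements of `W`
  have heval : ∀ t : W, P.eval₂ (MvPolynomial.aeval y : MvPolynomial σ k →ₐ[k] W).toRingHom t =
      (b : W) * Polynomial.aeval t (minpoly K θ) := by
    intro t
    have e1 : P.eval₂ (MvPolynomial.aeval y : MvPolynomial σ k →ₐ[k] W).toRingHom t =
        P'.eval₂ (algebraMap R0 W) t := by
      rw [← hP, Polynomial.eval₂_map]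
      rfl
    have e2 : P'.eval₂ (algebraMap R0 W) t = (P'.map (algebraMap R0 K)).eval₂ (algebraMap K W) t := by
      rw [Polynomial.eval₂_map]
      rfl
    rw [e1, e2, hbP]
    rw [Algebra.smul_def, Polynomial.algebraMap_apply, Polynomial.eval₂_mul, Polynomial.eval₂_C]
    rfl
  have hDy : MvPolynomial.aeval y D ≠ 0 := by
    intro h
    apply hD0
    apply hinjE
    rw [h, map_zero]
  -- the subalgebra generated by the coefficients
  obtain ⟨m0, hm0⟩ := MvPolynomial.ne_zero_iff.1 hD0
  let C0 : Subalgebra k E := Algebra.adjoin k ((N.coeffs ∪ D.coeffs : Set E))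
  have hft : Algebra.FiniteType k C0 := by
    rw [← Subalgebra.fg_iff_finiteType]
    have hfin : ((N.coeffs ∪ D.coeffs : Set E)).Finite :=
      (Finset.finite_toSet _).union (Finset.finite_toSet _)
    exact Subalgebra.fg_def.2 ⟨_, hfin, rfl⟩
  have hNr : N ∈ Set.range (MvPolynomial.map (σ := σ) (algebraMap C0 E)) := by
    rw [MvPolynomial.mem_range_map_iff_coeffs_subset]
    intro x hx
    exact ⟨⟨x, Algebra.subset_adjoin (Or.inl hx)⟩, rfl⟩
  have hDr : D ∈ Set.range (MvPolynomial.map (σ := σ) (algebraMap C0 E)) := by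
    rw [MvPolynomial.mem_range_map_iff_coeffs_subset]
    intro x hx
    exact ⟨⟨x, Algebra.subset_adjoin (Or.inr hx)⟩, rfl⟩
  obtain ⟨N0, hN0⟩ := hNr
  obtain ⟨D0, hD0'⟩ := hDr
  have hcoef : D0.coeff m0 ≠ 0 := by
    intro h
    apply hm0
    rw [← hD0', MvPolynomial.coeff_map, h, map_zero]
  obtain ⟨χ, hχ⟩ := exists_spec_field hft (D0.coeff m0) hcoef
  -- the polynomial relation
  set n := P.natDegree with hn
  let ρE : MvPolynomial σ k →+* MvPolynomial σ E := MvPolynomial.map (algebraMap k E)
  let ρC : MvPolynomial σ k →+* MvPolynomial σ C0 := MvPolynomial.map (algebraMap k C0)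
  have hρ : (MvPolynomial.map (σ := σ) (algebraMap C0 E)).comp ρC = ρE := by
    apply RingHom.ext
    intro p
    show MvPolynomial.map _ (MvPolynomial.map _ p) = _
    rw [MvPolynomial.map_map]
    rfl
  have hρχ : (MvPolynomial.map (σ := σ) (χ : C0 →+* k)).comp ρC = RingHom.id _ := by
    apply RingHom.ext
    intro p
    show MvPolynomial.map _ (MvPolynomial.map _ p) = _
    rw [MvPolynomial.map_map]
    have : ((χ : C0 →+* k).comp (algebraMap k C0)) = RingHom.id k := by
      apply RingHom.ext
      intro r
      exact χ.commutes r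
    rw [this, MvPolynomial.map_id]
    rfl
  -- relation over E
  have hrelE : ∑ j ∈ Finset.range (n + 1), ρE (P.coeff j) * N ^ j * D ^ (n - j) = 0 := by
    apply hinjE
    rw [map_zero]
    have e1 : (P.map ρE).natDegree = n :=
      Polynomial.natDegree_map_eq_of_injective (MvPolynomial.map_injective _
        (algebraMap k E).injective) P
    have e2 := homog_rel (MvPolynomial.aeval y : MvPolynomial σ E →ₐ[E] W).toRingHom (P.map ρE)
      N D hDy
    rw [e1] at e2
    simp only [Polynomial.coeff_map] at e2
    have e3 : (P.map ρE).eval₂ (MvPolynomial.aeval y : MvPolynomial σ E →ₐ[E] W).toRingHom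
        ((MvPolynomial.aeval y : MvPolynomial σ E →ₐ[E] W).toRingHom N /
          (MvPolynomial.aeval y : MvPolynomial σ E →ₐ[E] W).toRingHom D) = 0 := by
      rw [Polynomial.eval₂_map]
      have e4 : (MvPolynomial.aeval y : MvPolynomial σ E →ₐ[E] W).toRingHom.comp ρE =
          (MvPolynomial.aeval y : MvPolynomial σ k →ₐ[k] W).toRingHom := by
        apply RingHom.ext
        intro p
        exact MvPolynomial.aeval_map_algebraMap E y p
      rw [e4]
      have e5 := heval θ
      rw [minpoly.aeval, mul_zero] at e5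
      have e6 : ((MvPolynomial.aeval y : MvPolynomial σ E →ₐ[E] W).toRingHom N /
          (MvPolynomial.aeval y : MvPolynomial σ E →ₐ[E] W).toRingHom D) = θ := hθ.symm
      rw [e6]
      exact e5
    rw [e3, mul_zero] at e2
    exact e2
  have hrelC : ∑ j ∈ Finset.range (n + 1), ρC (P.coeff j) * N0 ^ j * D0 ^ (n - j) = 0 := by
    apply MvPolynomial.map_injective (algebraMap C0 E) Subtype.val_injective
    rw [map_zero, ← hrelE, map_sum]
    refine Finset.sum_congr rfl fun j _ => ?_
    rw [map_mul, map_mul, map_pow, map_pow, hN0, hD0', ← hρ]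
    rfl
  set Nk := MvPolynomial.map (χ : C0 →+* k) N0 with hNk
  set Dk := MvPolynomial.map (χ : C0 →+* k) D0 with hDk
  have hrelk : ∑ j ∈ Finset.range (n + 1), P.coeff j * Nk ^ j * Dk ^ (n - j) = 0 := by
    have e1 := congrArg (MvPolynomial.map (σ := σ) (χ : C0 →+* k)) hrelC
    rw [map_zero, map_sum] at e1
    rw [← e1]
    refine Finset.sum_congr rfl fun j _ => ?_
    rw [map_mul, map_mul, map_pow, map_pow]
    congr 2
    exact (congrArg (fun f : MvPolynomial σ k →+* MvPolynomial σ k => f (P.coeff j)) hρχ).symm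
  have hDk0 : Dk ≠ 0 := by
    intro h
    apply hχ
    have := congrArg (MvPolynomial.coeff m0) h
    rw [hDk, MvPolynomial.coeff_map, MvPolynomial.coeff_zero] at this
    exact this
  have hDky : MvPolynomial.aeval y Dk ≠ 0 := by
    intro h
    apply hDk0
    apply hinjk
    rw [h, map_zero]
  -- the root in K
  set ρ : W := MvPolynomial.aeval y Nk / MvPolynomial.aeval y Dk with hρdef
  have hρK : ρ ∈ K := (IntermediateField.mem_adjoin_range_iff k y ρ).2 ⟨Nk, Dk, rfl⟩
  have hroot : Polynomial.aeval ρ (minpoly K θ) = 0 := by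
    have e1 := homog_rel (MvPolynomial.aeval y : MvPolynomial σ k →ₐ[k] W).toRingHom P Nk Dk hDky
    rw [hrelk, map_zero] at e1
    have e2 : P.eval₂ (MvPolynomial.aeval y : MvPolynomial σ k →ₐ[k] W).toRingHom ρ = 0 := by
      rcases mul_eq_zero.1 e1.symm with h | h
      · exact absurd (eq_zero_of_pow_eq_zero h) hDky
      · exact h
    rw [heval ρ] at e2
    rcases mul_eq_zero.1 e2 with h | h
    · exact absurd (Subtype.ext h) hb0
    · exact h
  have hroot' : (minpoly K θ).IsRoot ⟨ρ, hρK⟩ := by
    rw [Polynomial.IsRoot.def]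
    apply (algebraMap K W).injective
    rw [map_zero, ← hroot, Polynomial.aeval_def, ← Polynomial.eval₂_at_apply]
    rfl
  have hdeg := Polynomial.degree_eq_one_of_irreducible_of_root (minpoly.irreducible hint) hroot'
  obtain ⟨z, hz⟩ := minpoly.mem_range_of_degree_eq_one K θ hdeg
  rw [← hz]
  exact z.2

end Pool.Agent.Y166.GM
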