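import Mathlib

/-!
# The constant field extension argument
-/

set_option autoImplicit false
set_option linter.unusedSectionVars false
set_option linter.deprecated false

namespace Pool.Agent.Y166.GM

open Polynomial IntermediateField

/-- A polynomial with coefficients algebraic over `K` which vanishes at an element which is
transcendental over `K` is zero. -/
theorem eq_zero_of_trans {K W : Type} [Field K] [Field W] [Algebra K W] (u : W)
    (hu : Transcendental K u) (P : W[X]) (hP : ∀ i, IsAlgebraic K (P.coeff i))
    (h0 : P.eval u = 0) : P = 0 := by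
  by_contra hne
  apply hu
  have hlift : P ∈ Polynomial.lifts (algebraMap (algebraicClosure K W) W) := by
    rw [Polynomial.lifts_iff_coeff_lifts]
    intro i
    exact ⟨⟨P.coeff i, mem_algebraicClosure_iff.2 (hP i)⟩, rfl⟩
  obtain ⟨Q, hQ⟩ := (Polynomial.mem_lifts _).1 hlift
  have h1 : IsAlgebraic (algebraicClosure K W) u := by
    refine ⟨Q, ?_, ?_⟩
    · intro h
      apply hne
      rw [← hQ, h, Polynomial.map_zero]
    · rw [Polynomial.aeval_def, ← Polynomial.eval_map, hQ]
      exact h0
  exact h1.restrictScalars K

theorem stepGal {k W ι : Type} [Field k] [CharZero k] [Field W] [IsAlgClosed W] [Algebra k W]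
    (c : ι → W) (u v : W) (hu : Transcendental (adjoin k (Set.range c)) u) (p q : W[X])
    (hp : ∀ i, IsAlgebraic (adjoin k (Set.range c)) (p.coeff i))
    (hq : ∀ i, IsAlgebraic (adjoin k (Set.range c)) (q.coeff i))
    (hqu : q.eval u ≠ 0) (hqv : q.eval v ≠ 0) :
    p.eval v / q.eval v ∈ adjoin k (Set.range c ∪ {u, v, p.eval u / q.eval u}) := by
  classical
  set K := adjoin k (Set.range c) with hK
  set F := adjoin k (Set.range c ∪ {u, v, p.eval u / q.eval u}) with hF
  have hKF : K ≤ F := IntermediateField.adjoin.mono _ _ _ Set.subset_union_left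
  have huF : u ∈ F := subset_adjoin _ _ (Or.inr (by simp))
  have hvF : v ∈ F := subset_adjoin _ _ (Or.inr (by simp))
  have hθF : p.eval u / q.eval u ∈ F := subset_adjoin _ _ (Or.inr (by simp))
  letI : Algebra K F := (IntermediateField.inclusion hKF).toAlgebra
  haveI : IsScalarTower K F W := IsScalarTower.of_algebraMap_eq fun _ => rfl
  haveI : CharZero F := charZero_of_injective_algebraMap (algebraMap k F).injective
  set E := algebraicClosure F W with hE
  have hpE : p ∈ Polynomial.lifts (algebraMap E W) := by
    rw [Polynomial.lifts_iff_coeff_lifts]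
    intro i
    exact ⟨⟨p.coeff i, mem_algebraicClosure_iff.2 ((hp i).extendScalars
      (algebraMap K F).injective)⟩, rfl⟩
  have hqE : q ∈ Polynomial.lifts (algebraMap E W) := by
    rw [Polynomial.lifts_iff_coeff_lifts]
    intro i
    exact ⟨⟨q.coeff i, mem_algebraicClosure_iff.2 ((hq i).extendScalars
      (algebraMap K F).injective)⟩, rfl⟩
  haveI : IsScalarTower K E W := IsScalarTower.of_algebraMap_eq fun _ => rfl
  haveI : IsScalarTower K F E := IsScalarTower.of_algebraMap_eq fun _ => rfl
  obtain ⟨pE, hpE⟩ := (Polynomial.mem_lifts _).1 hpE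
  obtain ⟨qE, hqE⟩ := (Polynomial.mem_lifts _).1 hqE
  let uF : F := ⟨u, huF⟩
  let vF : F := ⟨v, hvF⟩
  have hpe : ∀ t : F, ((pE.eval (algebraMap F E t) : E) : W) = p.eval (t : W) := by
    intro t
    rw [← hpE, Polynomial.eval_map]
    have := Polynomial.hom_eval₂ pE (RingHom.id E) (algebraMap E W) (algebraMap F E t)
    rw [Polynomial.eval₂_id] at this
    rw [RingHom.comp_id] at this
    exact this
  have hqe : ∀ t : F, ((qE.eval (algebraMap F E t) : E) : W) = q.eval (t : W) := by
    intro t
    rw [← hqE, Polynomial.eval_map]
    have := Polynomial.hom_eval₂ qE (RingHom.id E) (algebraMap E W) (algebraMap F E t)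
    rw [Polynomial.eval₂_id] at this
    rw [RingHom.comp_id] at this
    exact this
  let xE : E := pE.eval (algebraMap F E vF) / qE.eval (algebraMap F E vF)
  have hxE : (xE : W) = p.eval v / q.eval v := by
    show ((pE.eval (algebraMap F E vF) / qE.eval (algebraMap F E vF) : E) : W) = _
    rw [IntermediateField.coe_div, hpe, hqe]
  have hint : IsIntegral F xE := (Algebra.IsAlgebraic.isAlgebraic (R := F) xE).isIntegral
  -- all embeddings fix `xE`
  have key : ∀ φ : E →ₐ[F] W, φ xE = (xE : W) := by
    intro φ
    have hφF : ∀ t : F, φ (algebraMap F E t) = (t : W) := fun t => φ.commutes t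
    set pφ := pE.map (φ : E →+* W) with hpφ
    set qφ := qE.map (φ : E →+* W) with hqφ
    have hpφe : ∀ t : F, pφ.eval (t : W) = φ (pE.eval (algebraMap F E t)) := by
      intro t
      rw [hpφ, Polynomial.eval_map]
      have := Polynomial.hom_eval₂ pE (RingHom.id E) (φ : E →+* W) (algebraMap F E t)
      rw [Polynomial.eval₂_id, RingHom.comp_id] at this
      rw [← hφF t]
      exact this.symm
    have hqφe : ∀ t : F, qφ.eval (t : W) = φ (qE.eval (algebraMap F E t)) := by
      intro t
      rw [hqφ, Polynomial.eval_map]
      have := Polynomial.hom_eval₂ qE (RingHom.id E) (φ : E →+* W) (algebraMap F E t)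
      rw [Polynomial.eval₂_id, RingHom.comp_id] at this
      rw [← hφF t]
      exact this.symm
    -- values of `φ` at elements algebraic over `K`
    have halg : ∀ x : E, IsAlgebraic K (x : W) → IsAlgebraic K (φ x) := by
      intro x hx
      have h1 : IsAlgebraic K x := (isAlgebraic_algebraMap_iff (algebraMap E W).injective).1 hx
      exact h1.algHom (φ.restrictScalars K)
    have hpφa : ∀ i, IsAlgebraic K (pφ.coeff i) := by
      intro i
      rw [hpφ, Polynomial.coeff_map]
      apply halg
      have : ((pE.coeff i : E) : W) = p.coeff i := by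
        rw [← hpE, Polynomial.coeff_map]
        rfl
      rw [this]
      exact hp i
    have hqφa : ∀ i, IsAlgebraic K (qφ.coeff i) := by
      intro i
      rw [hqφ, Polynomial.coeff_map]
      apply halg
      have : ((qE.coeff i : E) : W) = q.coeff i := by
        rw [← hqE, Polynomial.coeff_map]
        rfl
      rw [this]
      exact hq i
    have hmul : ∀ a b : W[X], (∀ i, IsAlgebraic K (a.coeff i)) → (∀ i, IsAlgebraic K (b.coeff i)) →
        ∀ i, IsAlgebraic K ((a * b).coeff i) := by
      intro a b ha hb i
      rw [Polynomial.coeff_mul, ← mem_algebraicClosure_iff]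
      exact sum_mem fun x _ => mem_algebraicClosure_iff.2 ((ha _).mul (hb _))
    have hcross : pφ * q - p * qφ = 0 := by
      refine eq_zero_of_trans u hu _ ?_ ?_
      · intro i
        rw [Polynomial.coeff_sub]
        exact (hmul _ _ hpφa hq i).sub (hmul _ _ hp hqφa i)
      · rw [Polynomial.eval_sub, Polynomial.eval_mul, Polynomial.eval_mul]
        have e1 := hpφe uF
        have e2 := hqφe uF
        have e3 : φ (pE.eval (algebraMap F E uF) / qE.eval (algebraMap F E uF)) =
            p.eval u / q.eval u := by
          have : (pE.eval (algebraMap F E uF) / qE.eval (algebraMap F E uF) : E) =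
              algebraMap F E ⟨_, hθF⟩ := by
            apply Subtype.ext
            rw [IntermediateField.coe_div, hpe, hqe]
            rfl
          rw [this, hφF]
        have e4 : qφ.eval u ≠ 0 := by
          intro h0
          have : qφ.eval ((uF : F) : W) = 0 := h0
          rw [hqφe, map_eq_zero] at this
          apply hqu
          have h5 := hqe uF
          rw [this] at h5
          exact h5.symm
        rw [map_div₀, ← e1, ← e2] at e3
        have e5 : pφ.eval u / qφ.eval u = p.eval u / q.eval u := e3
        rw [div_eq_div_iff e4 hqu] at e5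
        rw [e5]
        ring
    have h6 : (pφ * q - p * qφ).eval v = 0 := by rw [hcross, Polynomial.eval_zero]
    rw [Polynomial.eval_sub, Polynomial.eval_mul, Polynomial.eval_mul, sub_eq_zero] at h6
    have e4 : qφ.eval v ≠ 0 := by
      intro h0
      have : qφ.eval ((vF : F) : W) = 0 := h0
      rw [hqφe, map_eq_zero] at this
      apply hqv
      have h5 := hqe vF
      rw [this] at h5
      exact h5.symm
    have h7 : φ xE = pφ.eval v / qφ.eval v := by
      show φ (pE.eval (algebraMap F E vF) / qE.eval (algebraMap F E vF)) = _
      rw [map_div₀, ← hpφe vF, ← hqφe vF]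
    rw [h7, hxE, div_eq_div_iff e4 hqv]
    exact h6
  -- degree one
  set m := minpoly F xE with hm
  have hsep : m.Separable := (minpoly.irreducible hint).separable
  have hroots : ∀ y : W, y ∈ (m.map (algebraMap F W)).roots → y = (xE : W) := by
    intro y hy
    have hy0 : Polynomial.aeval y m = 0 := by
      rw [Polynomial.mem_roots ((Polynomial.map_ne_zero_iff (algebraMap F W).injective).2
        (minpoly.ne_zero hint)), Polynomial.IsRoot.def, Polynomial.eval_map] at hy
      exact hy
    obtain ⟨φ, hφ⟩ := IntermediateField.exists_algHom_of_splits_of_aeval (F := F) (E := E) (K := W)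
      (fun s => ⟨(Algebra.IsAlgebraic.isAlgebraic (R := F) s).isIntegral, IsAlgClosed.splits _⟩) hy0
    rw [← hφ]
    exact key φ
  have hdeg : m.natDegree ≤ 1 := by
    have h1 : (m.map (algebraMap F W)).roots.card = (m.map (algebraMap F W)).natDegree :=
      (IsAlgClosed.splits _).natDegree_eq_card_roots.symm
    have h2 : (m.map (algebraMap F W)).roots.Nodup := Polynomial.nodup_roots hsep.map
    have h3 : (m.map (algebraMap F W)).roots.toFinset ⊆ {(xE : W)} := by
      intro y hy
      rw [Multiset.mem_toFinset] at hy
      rw [Finset.mem_singleton]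
      exact hroots y hy
    have h4 := Finset.card_le_card h3
    rw [Finset.card_singleton, Multiset.toFinset_card_of_nodup h2, h1,
      Polynomial.natDegree_map] at h4
    exact h4
  have hdeg1 : m.degree = 1 := by
    have h1 : 0 < m.natDegree := minpoly.natDegree_pos hint
    rw [Polynomial.degree_eq_natDegree (minpoly.ne_zero hint)]
    have : m.natDegree = 1 := by omega
    rw [this]
    rfl
  obtain ⟨z, hz⟩ := minpoly.mem_range_of_degree_eq_one F xE hdeg1
  rw [← hxE, ← hz]
  exact z.2

end Pool.Agent.Y166.GM
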