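import Mathlib
import Pool.Agent.Y166.GM.Core

/-!
# The function field of the cone is algebraically closed in the function field of the family of
curves: the theorem
-/

set_option autoImplicit false
set_option linter.unusedSectionVars false
set_option linter.deprecated false

namespace Pool.Agent.Y166.GM

open Polynomial
open scoped IntermediateField.algebraAdjoinAdjoin

theorem transc_of_indep {k W ι κ : Type} [Field k] [Field W] [Algebra k W] (c : ι → W) (t : κ → W)
    (h : AlgebraicIndependent k (Sum.elim c t)) (j : κ) :
    Transcendental (IntermediateField.adjoin k (Set.range c)) (t j) := by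
  have h1 : AlgebraicIndependent k (Sum.elim t c) := by
    have := h.comp (Sum.swap) (Equiv.sumComm κ ι).injective
    have e : Sum.elim c t ∘ Sum.swap = Sum.elim t c := by
      funext x
      rcases x with x | x <;> rfl
    rwa [e] at this
  have h2 := (AlgebraicIndependent.sumElim_iff.1 h1).2
  have h3 : Transcendental (Algebra.adjoin k (Set.range c)) (t j) := h2.transcendental j
  intro h4
  exact h3 ((IsFractionRing.isAlgebraic_iff (Algebra.adjoin k (Set.range c))
    (IntermediateField.adjoin k (Set.range c)) W).2 h4)

theorem eval_ne_zero_of_trans {K W : Type} [Field K] [Field W] [Algebra K W] (u : W)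
    (hu : Transcendental K u) (P : W[X]) (hP : ∀ i, IsAlgebraic K (P.coeff i)) (h0 : P ≠ 0) :
    P.eval u ≠ 0 := fun h => h0 (eq_zero_of_trans u hu P hP h)

section
variable {k E W : Type} [Field k] [Field E] [Field W] [Algebra k E] [Algebra E W] [Algebra k W]
  [IsScalarTower k E W] {e n d : ℕ}

theorem pol_ne_zero {A : Type} [CommRing A] {m : ℕ} (x : Fin (m + 1) → A) (j : Fin (m + 1))
    (h : x j ≠ 0) : pol x ≠ 0 := by
  intro h0
  apply h
  rw [← pol_coeff x j, h0, Polynomial.coeff_zero]

/-- nonvanishing of generic polynomials at transcendental elements -/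
theorem pol_eval_ne {ι κ : Type} {m : ℕ} (c : ι → W) (t : κ → W)
    (h : AlgebraicIndependent k (Sum.elim c t)) (f : Fin (m + 1) → ι) (j : κ) :
    (pol (fun i => c (f i))).eval (t j) ≠ 0 := by
  refine eval_ne_zero_of_trans _ (transc_of_indep c t h j) _ ?_ ?_
  · intro i
    have h1 := pol_coeff_mem (fun i => c (f i))
      (IntermediateField.adjoin k (Set.range c)).toSubfield.toSubring
      (fun j => IntermediateField.subset_adjoin k _ ⟨f j, rfl⟩) i
    exact isAlgebraic_algebraMap (⟨_, h1⟩ : IntermediateField.adjoin k (Set.range c))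
  · refine pol_ne_zero _ 0 ?_
    exact h.ne_zero (.inl (f 0))

theorem aP_cc0 (c0 : Idx e n d → E) (u t : E) (b : Fin 3 → W) :
    (aP (cc c0 u b) 0).eval (algebraMap E W t) = algebraMap E W ((aP c0 0).eval t) := by
  unfold aP
  rw [← Polynomial.eval₂_at_apply, ← Polynomial.eval_map, pol_map]
  simp [cc, pert]

theorem hP_cc (c0 : Idx e n d → E) (u t : E) (b : Fin 3 → W) :
    (hP (cc c0 u b)).eval (algebraMap E W t) = algebraMap E W ((hP c0).eval t) := by
  unfold hP
  rw [← Polynomial.eval₂_at_apply, ← Polynomial.eval_map, pol_map]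
  simp [cc, pert]

theorem aP_cc1 (he : 1 ≤ e) (c0 : Idx e n d → E) (u t : E) (b : Fin 3 → W) :
    (aP (cc c0 u b) 1).eval (algebraMap E W t) =
      algebraMap E W ((aP c0 1).eval t) + algebraMap E W (t - u) * b 0 := by
  unfold aP
  have h1 : (fun p : Fin (e + 1) => cc c0 u b (Sum.inl (1, p))) = fun p =>
      algebraMap E W (c0 (.inl (1, p))) + lin (algebraMap E W u) (b 0) p := by
    funext p
    simp [cc, pert]
  rw [h1, pol_add, pol_lin he, ← pol_map, Polynomial.eval_add, Polynomial.eval_map,
    Polynomial.eval₂_at_apply, Polynomial.eval_mul, Polynomial.eval_sub, Polynomial.eval_X,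
    Polynomial.eval_C, Polynomial.eval_C, map_sub]

theorem aP_cc2 (he : 1 ≤ e) (c0 : Idx e n d → E) (u t : E) (b : Fin 3 → W) :
    (aP (cc c0 u b) 2).eval (algebraMap E W t) =
      algebraMap E W ((aP c0 2).eval t) + algebraMap E W (t - u) * b 1 := by
  unfold aP
  have h1 : (fun p : Fin (e + 1) => cc c0 u b (Sum.inl (2, p))) = fun p =>
      algebraMap E W (c0 (.inl (2, p))) + lin (algebraMap E W u) (b 1) p := by
    funext p
    simp [cc, pert]
  rw [h1, pol_add, pol_lin he, ← pol_map, Polynomial.eval_add, Polynomial.eval_map,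
    Polynomial.eval₂_at_apply, Polynomial.eval_mul, Polynomial.eval_sub, Polynomial.eval_X,
    Polynomial.eval_C, Polynomial.eval_C, map_sub]

theorem wP_cc (hd : 1 ≤ d) (c0 : Idx e n d → E) (u t : E) (b : Fin 3 → W) :
    (wP (cc c0 u b)).eval (algebraMap E W t) =
      algebraMap E W ((wP c0).eval t) + algebraMap E W (t - u) * b 2 := by
  unfold wP
  have h1 : (fun p : Fin (d + 1) => cc c0 u b (Sum.inr (Sum.inr p))) = fun p =>
      algebraMap E W (c0 (.inr (.inr p))) + lin (algebraMap E W u) (b 2) p := by
    funext p
    simp [cc, pert]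
  rw [h1, pol_add, pol_lin hd, ← pol_map, Polynomial.eval_add, Polynomial.eval_map,
    Polynomial.eval₂_at_apply, Polynomial.eval_mul, Polynomial.eval_sub, Polynomial.eval_X,
    Polynomial.eval_C, Polynomial.eval_C, map_sub]

/-- The slopes of the coordinates with respect to the deformation. -/
noncomputable def slope (c0 : Idx e n d → E) (u t : E) : Fin 3 → E :=
  ![(t - u) / (aP c0 0).eval t, (t - u) / (aP c0 0).eval t,
    (t - u) / ((hP c0).eval t * (aP c0 0).eval t ^ 2)]

theorem xs_cc (he : 1 ≤ e) (hd : 1 ≤ d) (c0 : Idx e n d → E) (u t : E) (b : Fin 3 → W)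
    (i : Fin 3) : xs (cc c0 u b) (algebraMap E W t) i =
      algebraMap E W (xs c0 t i) + algebraMap E W (slope c0 u t i) * b i := by
  fin_cases i
  · show (aP (cc c0 u b) 1).eval _ / (aP (cc c0 u b) 0).eval _ = _
    rw [aP_cc0, aP_cc1 he]
    show _ = algebraMap E W ((aP c0 1).eval t / (aP c0 0).eval t) +
      algebraMap E W ((t - u) / (aP c0 0).eval t) * b 0
    rw [map_div₀, map_div₀]
    ring
  · show (aP (cc c0 u b) 2).eval _ / (aP (cc c0 u b) 0).eval _ = _
    rw [aP_cc0, aP_cc2 he]
    show _ = algebraMap E W ((aP c0 2).eval t / (aP c0 0).eval t) +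
      algebraMap E W ((t - u) / (aP c0 0).eval t) * b 1
    rw [map_div₀, map_div₀]
    ring
  · show (wP (cc c0 u b)).eval _ / ((hP (cc c0 u b)).eval _ * (aP (cc c0 u b) 0).eval _ ^ 2) = _
    rw [aP_cc0, wP_cc hd, hP_cc]
    show _ = algebraMap E W ((wP c0).eval t / ((hP c0).eval t * (aP c0 0).eval t ^ 2)) +
      algebraMap E W ((t - u) / ((hP c0).eval t * (aP c0 0).eval t ^ 2)) * b 2
    rw [map_div₀, map_div₀, map_mul, map_pow]
    ring

/-- The main field theoretic statement: a rational function on the line over the algebraic closure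
of the field of parameters, which is algebraic over the function field of the cone, lies in the
function field of the cone. -/
theorem core [IsAlgClosed k] [CharZero k] [IsAlgClosed E] [IsAlgClosed W] (he : 1 ≤ e)
    (hd : 1 ≤ d) (c0 : Idx e n d → E) (u v : E)
    (h0 : AlgebraicIndependent k (Sum.elim c0 ![u, v])) (b : Fin 3 → W)
    (hb : AlgebraicIndependent E b) (p q : W[X])
    (hp : ∀ i, IsAlgebraic (IntermediateField.adjoin k (Set.range (cc c0 u b))) (p.coeff i))
    (hq : ∀ i, IsAlgebraic (IntermediateField.adjoin k (Set.range (cc c0 u b))) (q.coeff i))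
    (hq0 : q ≠ 0)
    (hu : IsAlgebraic (IntermediateField.adjoin k (Set.range (xs (cc c0 u b) (algebraMap E W u))))
      (p.eval (algebraMap E W u) / q.eval (algebraMap E W u)))
    (hv : IsAlgebraic (IntermediateField.adjoin k (Set.range (xs (cc c0 u b) (algebraMap E W v))))
      (p.eval (algebraMap E W v) / q.eval (algebraMap E W v))) :
    p.eval (algebraMap E W v) / q.eval (algebraMap E W v) ∈
      IntermediateField.adjoin k (Set.range (xs (cc c0 u b) (algebraMap E W v))) := by
  set c := cc c0 u b with hc
  have hind := cc_indep (W := W) c0 u v h0 b hb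
  have hut : Transcendental (IntermediateField.adjoin k (Set.range c)) (algebraMap E W u) :=
    transc_of_indep _ _ hind 0
  have hvt : Transcendental (IntermediateField.adjoin k (Set.range c)) (algebraMap E W v) :=
    transc_of_indep _ _ hind 1
  have hqu := eval_ne_zero_of_trans _ hut q hq hq0
  have hqv := eval_ne_zero_of_trans _ hvt q hq hq0
  have hstep := stepGal c (algebraMap E W u) (algebraMap E W v) hut p q hp hq hqu hqv
  -- the coordinates at `u` lie in `E`
  have hxu : ∀ i, xs c (algebraMap E W u) i = algebraMap E W (xs c0 u i) := by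
    intro i
    rw [hc, xs_cc he hd]
    have : slope c0 u u i = 0 := by
      fin_cases i <;> simp [slope]
    rw [this, map_zero, zero_mul, add_zero]
  have hθu : p.eval (algebraMap E W u) / q.eval (algebraMap E W u) ∈ Set.range (algebraMap E W) := by
    have h1 : IsAlgebraic E (p.eval (algebraMap E W u) / q.eval (algebraMap E W u)) := by
      have hle : IntermediateField.adjoin k (Set.range (xs c (algebraMap E W u))) ≤
          (IsScalarTower.toAlgHom k E W).fieldRange := by
        rw [IntermediateField.adjoin_le_iff]
        rintro _ ⟨i, rfl⟩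
        exact ⟨xs c0 u i, (hxu i).symm⟩
      obtain ⟨P, hP, hP0⟩ := hu
      have hlift : P.map (algebraMap _ W) ∈ Polynomial.lifts (algebraMap E W) := by
        rw [Polynomial.lifts_iff_coeff_lifts]
        intro i
        rw [Polynomial.coeff_map]
        exact hle (P.coeff i).2
      obtain ⟨Q, hQ⟩ := (Polynomial.mem_lifts _).1 hlift
      refine ⟨Q, ?_, ?_⟩
      · intro h
        rw [h, Polynomial.map_zero] at hQ
        exact hP ((Polynomial.map_eq_zero_iff (FaithfulSMul.algebraMap_injective _ W)).1 hQ.symm)
      · rw [Polynomial.aeval_def, ← Polynomial.eval_map, hQ, Polynomial.eval_map]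
        exact hP0
    haveI := IntermediateField.isAlgebraic_adjoin_simple h1.isIntegral
    haveI : Algebra.IsIntegral E (IntermediateField.adjoin E
        {p.eval (algebraMap E W u) / q.eval (algebraMap E W u)}) :=
      Algebra.IsAlgebraic.isIntegral
    obtain ⟨z, hz⟩ := (IsAlgClosed.algebraMap_bijective_of_isIntegral (k := E)
      (K := IntermediateField.adjoin E
        {p.eval (algebraMap E W u) / q.eval (algebraMap E W u)})).2
      ⟨_, IntermediateField.mem_adjoin_simple_self E _⟩
    exact ⟨z, congrArg Subtype.val hz⟩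
  -- independence of the coordinates at `v`
  have hane : (aP c0 0).eval v ≠ 0 := pol_eval_ne c0 ![u, v] h0 (fun p => .inl (0, p)) 1
  have hhne : (hP c0).eval v ≠ 0 := pol_eval_ne c0 ![u, v] h0 (fun p => .inr (.inl p)) 1
  have huv : v - u ≠ 0 := by
    intro h
    have h1 := h0.injective
    have : (Sum.inr 0 : Idx e n d ⊕ Fin 2) = Sum.inr 1 := h1 (by
      show u = v
      exact (sub_eq_zero.1 h).symm)
    simp at this
  have hslope : ∀ i, slope c0 u v i ≠ 0 := by
    intro i
    fin_cases i
    · exact div_ne_zero huv hane
    · exact div_ne_zero huv hane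
    · exact div_ne_zero huv (mul_ne_zero hhne (pow_ne_zero 2 hane))
  have hxv : xs c (algebraMap E W v) = fun i =>
      algebraMap E W (xs c0 v i) + algebraMap E W (slope c0 u v i) * b i := by
    funext i
    exact xs_cc he hd c0 u v b i
  have hindv : AlgebraicIndependent E (xs c (algebraMap E W v)) := by
    rw [hxv]
    exact indep_affine b hb _ _ hslope
  -- `θ(v)` lies in `E(xs v)`
  have hmem : p.eval (algebraMap E W v) / q.eval (algebraMap E W v) ∈
      IntermediateField.adjoin E (Set.range (xs c (algebraMap E W v))) := by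
    set L := IntermediateField.adjoin E (Set.range (xs c (algebraMap E W v))) with hL
    have hE : ∀ x : E, algebraMap E W x ∈ L := fun x => L.algebraMap_mem x
    have hbL : ∀ i, b i ∈ L := by
      intro i
      have h1 : xs c (algebraMap E W v) i ∈ L :=
        IntermediateField.subset_adjoin _ _ ⟨i, rfl⟩
      have h2 : xs c (algebraMap E W v) i = algebraMap E W (xs c0 v i) +
          algebraMap E W (slope c0 u v i) * b i := congrFun hxv i
      have h3 : b i = (xs c (algebraMap E W v) i - algebraMap E W (xs c0 v i)) *
          (algebraMap E W (slope c0 u v i))⁻¹ := by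
        rw [h2, add_sub_cancel_left, mul_comm, ← mul_assoc, inv_mul_cancel₀, one_mul]
        intro h
        exact hslope i ((map_eq_zero _).1 h)
      rw [h3]
      exact L.mul_mem (L.sub_mem h1 (hE _)) (L.inv_mem (hE _))
    have hcL : ∀ i, c i ∈ L := by
      intro i
      rw [hc]
      refine L.add_mem (hE _) ?_
      have hlin : ∀ (x : W) (p : ℕ), x ∈ L → lin (algebraMap E W u) x p ∈ L := by
        intro x p hx
        unfold lin
        split_ifs
        · exact L.neg_mem (L.mul_mem (hE u) hx)
        · exact hx
        · exact L.zero_mem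
      rcases i with ⟨i, p⟩ | l | r
      · simp only [pert]
        split_ifs
        · exact L.zero_mem
        · exact hlin _ _ (hbL _)
        · exact hlin _ _ (hbL _)
      · exact L.zero_mem
      · exact hlin _ _ (hbL _)
    have hle : IntermediateField.adjoin k (Set.range c ∪ {algebraMap E W u, algebraMap E W v,
        p.eval (algebraMap E W u) / q.eval (algebraMap E W u)}) ≤ L.restrictScalars k := by
      rw [IntermediateField.adjoin_le_iff]
      rintro x (⟨i, rfl⟩ | hx)
      · exact hcL i
      · rcases hx with rfl | rfl | rfl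
        · exact hE u
        · exact hE v
        · obtain ⟨z, hz⟩ := hθu
          show _ ∈ L
          rw [← hz]
          exact hE z
    exact hle hstep
  exact lemC _ hindv _ hmem hv

end

end Pool.Agent.Y166.GM
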