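import Mathlib
import Pool.Agent.Y166.GM.Spec

/-!
# Chevalley's theorem on points, and finite fibres
-/

set_option autoImplicit false
set_option linter.unusedSectionVars false
set_option linter.deprecated false

namespace Pool.Agent.Y166.GM

open MvPolynomial

theorem constr_generic {R : Type} [CommRing R] {T : Set (PrimeSpectrum R)}
    (hT : Topology.IsConstructible T) (p : PrimeSpectrum R) (hp : p ∈ T) :
    ∃ f : R, f ∉ p.asIdeal ∧
      ∀ q : PrimeSpectrum R, p.asIdeal ≤ q.asIdeal → f ∉ q.asIdeal → q ∈ T := by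
  obtain ⟨S, rfl⟩ := PrimeSpectrum.exists_constructibleSetData_iff.mpr hT
  rw [PrimeSpectrum.ConstructibleSetData.toSet] at hp
  simp only [Set.mem_iUnion] at hp
  obtain ⟨C, hC, hpC⟩ := hp
  rw [PrimeSpectrum.BasicConstructibleSetData.toSet] at hpC
  refine ⟨C.f, ?_, ?_⟩
  · intro h
    exact hpC.2 (by simpa [PrimeSpectrum.mem_zeroLocus] using h)
  · intro q hq hfq
    rw [PrimeSpectrum.ConstructibleSetData.toSet]
    simp only [Set.mem_iUnion]
    refine ⟨C, hC, ?_⟩
    rw [PrimeSpectrum.BasicConstructibleSetData.toSet]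
    refine ⟨?_, ?_⟩
    · have h1 := hpC.1
      rw [PrimeSpectrum.mem_zeroLocus] at h1 ⊢
      exact h1.trans hq
    · intro h
      exact hfq (by simpa [PrimeSpectrum.mem_zeroLocus] using h)

section
variable {k : Type} [Field k] [IsAlgClosed k]

/-- The image of a nonempty open set under a dominant morphism to an affine space contains a
nonempty open set. -/
theorem chev {τ B : Type} [Finite τ] [CommRing B] [IsDomain B] [Algebra k B]
    (hft : Algebra.FiniteType k B) (φ : MvPolynomial τ k →ₐ[k] B) (hφ : Function.Injective φ)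
    (H : B) (hH : H ≠ 0) :
    ∃ D : MvPolynomial τ k, D ≠ 0 ∧ ∀ t : τ → k, eval t D ≠ 0 →
      ∃ χ : B →ₐ[k] k, χ H ≠ 0 ∧ ∀ i, χ (φ (X i)) = t i := by
  classical
  have hft' : φ.toRingHom.FiniteType := by
    apply RingHom.FiniteType.of_comp_finiteType (f := algebraMap k (MvPolynomial τ k))
    have : φ.toRingHom.comp (algebraMap k (MvPolynomial τ k)) = algebraMap k B := by
      ext a
      exact φ.commutes a
    rw [this]
    rw [RingHom.finiteType_algebraMap]
    exact hft
  have hfp : φ.toRingHom.FinitePresentation := RingHom.FinitePresentation.of_finiteType.1 hft'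
  have hcJ : Topology.IsConstructible
      ((PrimeSpectrum.basicOpen H : TopologicalSpace.Opens (PrimeSpectrum B)) :
        Set (PrimeSpectrum B)) := by
    exact IsRetrocompact.isConstructible (PrimeSpectrum.basicOpen H).isOpen
      (PrimeSpectrum.isRetrocompact_basicOpen)
  have hT := PrimeSpectrum.isConstructible_comap_image hfp hcJ
  obtain ⟨D, hD0, hD⟩ := constr_generic hT ⟨⊥, Ideal.isPrime_bot⟩
    ⟨⟨⊥, Ideal.isPrime_bot⟩, hH, by
      ext x
      show φ x ∈ (⊥ : Ideal B) ↔ x ∈ (⊥ : Ideal _)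
      rw [Ideal.mem_bot, Ideal.mem_bot]
      exact map_eq_zero_iff φ hφ⟩
  refine ⟨D, hD0, fun t ht => ?_⟩
  obtain ⟨⟨R, hR⟩, hRH, hRm⟩ := hD ⟨RingHom.ker (eval t), RingHom.ker_isPrime _⟩ bot_le ht
  have hRH' : H ∉ R := hRH
  have hRm' : ∀ x, φ x ∈ R ↔ eval t x = 0 := by
    intro x
    have h1 : R.comap φ.toRingHom = RingHom.ker (eval t) := congrArg PrimeSpectrum.asIdeal hRm
    have h2 : x ∈ R.comap φ.toRingHom ↔ x ∈ RingHom.ker (eval t) := by
      rw [h1]
    exact h2
  obtain ⟨χ, hχ⟩ := exists_spec_field (k := k) (C := B ⧸ R)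
    (Algebra.FiniteType.of_surjective (Ideal.Quotient.mkₐ k R)
      (Ideal.Quotient.mkₐ_surjective k R)) (Ideal.Quotient.mk R H) (by
      intro h
      exact hRH' (Ideal.Quotient.eq_zero_iff_mem.1 h))
  refine ⟨χ.comp (Ideal.Quotient.mkₐ k R), hχ, fun i => ?_⟩
  have h1 : φ (X i - C (t i)) ∈ R := by
    rw [hRm']
    simp
  have h2 : χ (Ideal.Quotient.mk R (φ (X i - C (t i)))) = 0 := by
    rw [Ideal.Quotient.eq_zero_iff_mem.2 h1, map_zero]
  rw [map_sub, map_sub, map_sub, sub_eq_zero] at h2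
  show χ (Ideal.Quotient.mk R (φ (X i))) = t i
  rw [h2]
  have h3 : φ (C (t i)) = algebraMap k B (t i) := φ.commutes (t i)
  rw [h3]
  exact χ.commutes (t i)

/-- If the fibres are finite, then every function is algebraic over the functions of the base. -/
theorem alg_of_finite {ρ B : Type} [Finite ρ] [CommRing B] [IsDomain B] [Algebra k B]
    (hft : Algebra.FiniteType k B) (ξ : ρ → B) (z H : B) (hH : H ≠ 0)
    (hfin : ∀ χ0 : B →ₐ[k] k, χ0 H ≠ 0 →
      {s : k | ∃ χ : B →ₐ[k] k, χ H ≠ 0 ∧ (∀ j, χ (ξ j) = χ0 (ξ j)) ∧ χ z = s}.Finite) :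
    ¬ AlgebraicIndependent k (fun o : Option ρ => o.elim z ξ) := by
  classical
  intro hind
  haveI : Infinite k := IsAlgClosed.instInfinite
  obtain ⟨D, hD0, hD⟩ := chev hft (aeval (fun o : Option ρ => o.elim z ξ)) hind H hH
  obtain ⟨t, ht⟩ : ∃ t, eval t D ≠ 0 := by
    by_contra hcon
    push Not at hcon
    apply hD0
    apply MvPolynomial.funext
    intro t
    rw [hcon, map_zero]
  -- the polynomial in the last variable
  let q : Polynomial k := aeval (fun o : Option ρ =>
    o.elim (Polynomial.X) fun j => Polynomial.C (t (some j))) D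
  have hq : ∀ s, q.eval s = eval (fun o : Option ρ => o.elim s fun j => t (some j)) D := by
    intro s
    have h : ((Polynomial.aeval s : Polynomial k →ₐ[k] k).comp (aeval (fun o : Option ρ =>
        o.elim (Polynomial.X) fun j => Polynomial.C (t (some j))))) =
        (aeval (fun o : Option ρ => o.elim s fun j => t (some j)) : MvPolynomial _ k →ₐ[k] k) := by
      apply MvPolynomial.algHom_ext
      rintro (_ | i) <;> simp
    have h2 := congrArg (fun φ : MvPolynomial (Option ρ) k →ₐ[k] k => φ D) h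
    rw [← aeval_eq_eval]
    exact h2
  have hq0 : q ≠ 0 := by
    intro h
    apply ht
    have h1 := hq (t none)
    rw [h, Polynomial.eval_zero] at h1
    rw [h1]
    congr 1
    congr 1
    funext o
    rcases o with _ | j <;> rfl
  obtain ⟨χ0, hχ0, hχ0'⟩ := hD t ht
  have hsub : {s : k | q.eval s ≠ 0} ⊆
      {s : k | ∃ χ : B →ₐ[k] k, χ H ≠ 0 ∧ (∀ j, χ (ξ j) = χ0 (ξ j)) ∧ χ z = s} := by
    intro s hs
    rw [Set.mem_setOf_eq, hq] at hs
    obtain ⟨χ, hχ, hχ'⟩ := hD _ hs
    refine ⟨χ, hχ, fun j => ?_, ?_⟩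
    · have h1 := hχ' (some j)
      have h2 := hχ0' (some j)
      rw [aeval_X] at h1 h2
      exact h1.trans h2.symm
    · have h1 := hχ' none
      rw [aeval_X] at h1
      exact h1
  have h1 := (hfin χ0 hχ0).subset hsub
  have h2 : {s : k | q.eval s ≠ 0}ᶜ.Finite := by
    have h3 : {s : k | q.eval s ≠ 0}ᶜ = {s | q.IsRoot s} := by
      ext s
      simp [Polynomial.IsRoot]
    rw [h3]
    exact Polynomial.finite_setOf_isRoot hq0
  exact Set.infinite_univ ((Set.union_compl_self {s : k | q.eval s ≠ 0}) ▸ h1.union h2)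

end

end Pool.Agent.Y166.GM
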