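import Mathlib

/-!
# Rational curves on projective varieties: classical definitions

Projective varieties over a field `k` (algebraically closed in all theorems) in the classical
language: points in projective space, the Zariski topology, morphisms given locally by homogeneous
polynomials, spaces of morphisms from the projective line.
-/

set_option autoImplicit false
set_option linter.unusedSectionVars false

namespace Pool.Agent.Y166.GM

open MvPolynomial

/-- The projective space over `k` with homogeneous coordinates indexed by `σ`. -/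
abbrev PP (k σ : Type) [Field k] : Type := Projectivization k (σ → k)

variable {k : Type} [Field k]

/-- `v` is a vector of homogeneous coordinates of the point `p`. -/
def Rep {σ : Type} (p : PP k σ) (v : σ → k) : Prop :=
  ∃ h : v ≠ 0, Projectivization.mk k v h = p

/-- The set of common zeros of a family of homogeneous polynomials. -/
def zeros {σ : Type} (S : Set (MvPolynomial σ k)) : Set (PP k σ) :=
  {p | ∀ P ∈ S, eval p.rep P = 0}

/-- The Zariski topology of the projective space: the closed sets are the sets of common zeros of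
families of homogeneous polynomials. -/
instance zariski (σ : Type) : TopologicalSpace (PP k σ) :=
  TopologicalSpace.ofClosed
    {Z | ∃ S : Set (MvPolynomial σ k), (∀ P ∈ S, ∃ m, P.IsHomogeneous m) ∧ Z = zeros S}
    (by
      refine ⟨{1}, ?_, ?_⟩
      · intro P hP
        rw [Set.mem_singleton_iff.1 hP]
        exact ⟨0, isHomogeneous_one _ _⟩
      · symm
        rw [Set.eq_empty_iff_forall_notMem]
        intro p hp
        have := hp 1 rfl
        rw [map_one] at this
        exact one_ne_zero this)
    (by
      intro A hA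
      refine ⟨{P | (∃ m, P.IsHomogeneous m) ∧ ∀ p ∈ ⋂₀ A, eval p.rep P = 0},
        fun P hP => hP.1, ?_⟩
      apply Set.Subset.antisymm
      · intro p hp P hP
        exact hP.2 p hp
      · intro p hp Z hZ
        obtain ⟨S, hS, rfl⟩ := hA hZ
        intro P hP
        exact hp P ⟨hS P hP, fun q hq => hq _ hZ P hP⟩)
    (by
      rintro _ ⟨S, hS, rfl⟩ _ ⟨T, hT, rfl⟩
      refine ⟨{R | ∃ P ∈ S, ∃ Q ∈ T, R = P * Q}, ?_, ?_⟩
      · rintro _ ⟨P, hP, Q, hQ, rfl⟩
        obtain ⟨m, hm⟩ := hS P hP
        obtain ⟨n, hn⟩ := hT Q hQ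
        exact ⟨m + n, hm.mul hn⟩
      · apply Set.Subset.antisymm
        · rintro p (hp | hp) _ ⟨P, hP, Q, hQ, rfl⟩
          · rw [map_mul, hp P hP, zero_mul]
          · rw [map_mul, hp Q hQ, mul_zero]
        · intro p hp
          by_contra hcon
          rw [Set.mem_union, not_or] at hcon
          obtain ⟨h1, h2⟩ := hcon
          simp only [zeros, Set.mem_setOf_eq, not_forall] at h1 h2
          obtain ⟨P, hP, hP0⟩ := h1
          obtain ⟨Q, hQ, hQ0⟩ := h2
          have := hp _ ⟨P, hP, Q, hQ, rfl⟩
          rw [map_mul] at this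
          exact (mul_ne_zero hP0 hQ0) this)

/-- Projective varieties: irreducible closed subsets of a projective space. -/
def IsProjVar {σ : Type} (Y : Set (PP k σ)) : Prop := IsClosed Y ∧ IsIrreducible Y

/-- `f` is a morphism on the (locally closed) subset `Y` of a projective space, with values in a
projective space: near every point of `Y` it is given by homogeneous polynomials of the same
degree. -/
def IsMorphism {σ τ : Type} (Y : Set (PP k σ)) (f : PP k σ → PP k τ) : Prop :=
  ∀ y ∈ Y, ∃ U : Set (PP k σ), IsOpen U ∧ y ∈ U ∧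
    ∃ (m : ℕ) (F : τ → MvPolynomial σ k), (∀ j, (F j).IsHomogeneous m) ∧
      ∀ z ∈ U ∩ Y, Rep (f z) (fun j => eval z.rep (F j))

/-- The morphism `f : Y → X` is generically finite onto its image: the fibres of its restriction to
a nonempty open subset of `Y` are finite. -/
def GenFinite {σ τ : Type} (Y : Set (PP k σ)) (f : PP k σ → PP k τ) : Prop :=
  ∃ U : Set (PP k σ), IsOpen U ∧ (U ∩ Y).Nonempty ∧
    ∀ y ∈ U ∩ Y, {z | z ∈ U ∩ Y ∧ f z = f y}.Finite

/-- The morphism `f : Y → X` is dominant. -/
def Dominant {σ τ : Type} (Y : Set (PP k σ)) (X : Set (PP k τ)) (f : PP k σ → PP k τ) : Prop :=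
  X ⊆ closure (f '' Y)

/-- The morphism `f : Y → X` is birational: it restricts to an isomorphism of a nonempty open subset
of `Y` and an open subset of `X`. -/
def Birational {σ τ : Type} (Y : Set (PP k σ)) (X : Set (PP k τ)) (f : PP k σ → PP k τ) : Prop :=
  ∃ (U : Set (PP k σ)) (V : Set (PP k τ)) (g : PP k τ → PP k σ),
    IsOpen U ∧ IsOpen V ∧ (U ∩ Y).Nonempty ∧
    Set.MapsTo f (U ∩ Y) (V ∩ X) ∧ Set.MapsTo g (V ∩ X) (U ∩ Y) ∧ IsMorphism (V ∩ X) g ∧
    (∀ y ∈ U ∩ Y, g (f y) = y) ∧ ∀ x ∈ V ∩ X, f (g x) = x

/-- The value at `s ∈ k ^ 2` of the vector of binary forms of degree `d` with coefficients `c`. -/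
def forms {σ : Type} {d : ℕ} (c : σ × Fin (d + 1) → k) (s : Fin 2 → k) : σ → k :=
  fun i => ∑ j : Fin (d + 1), c (i, j) * s 0 ^ (j : ℕ) * s 1 ^ (d - (j : ℕ))

/-- The space of the morphisms of degree `d` from the projective line to the subset `Z` of a
projective space: vectors of binary forms of degree `d` without common zeros, up to a common
scalar factor, with values in `Z`; a locally closed subset of a projective space if `Z` is
closed. -/
def Mor {σ : Type} (Z : Set (PP k σ)) (d : ℕ) : Set (PP k (σ × Fin (d + 1))) :=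
  {γ | ∀ s : Fin 2 → k, s ≠ 0 → ∃ z ∈ Z, Rep z (forms γ.rep s)}

/-- The morphism `h` from the projective line is the composition of the morphism `g` from the
projective line with the morphism `f`. -/
def IsComp {σ τ : Type} {e d : ℕ} (f : PP k σ → PP k τ) (g : PP k (σ × Fin (e + 1)))
    (h : PP k (τ × Fin (d + 1))) : Prop :=
  ∀ s : Fin 2 → k, s ≠ 0 → ∀ y : PP k σ, Rep y (forms g.rep s) → Rep (f y) (forms h.rep s)

/-- The coordinates `(x i * x j, y)` on the weighted projective space `P(1,1,1,2)` with weighted
homogeneous coordinates `x 0, x 1, x 2, y`. -/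
def ver {A : Type} [Mul A] (x : Fin 3 → A) (y : A) : Option (Fin 3 × Fin 3) → A
  | some (i, j) => x i * x j
  | none => y

/-- The weighted projective space `P(1,1,1,2)`, embedded in a projective space by the sections
`x i * x j`, `y` of `O(2)`; it is the cone over the Veronese surface. -/
def Xcone (k : Type) [Field k] : Set (PP k (Option (Fin 3 × Fin 3))) :=
  {p | ∃ (x : Fin 3 → k) (y : k), Rep p (ver x y)}

/-- Data on the morphisms `f : Y → X` from projective varieties `Y`: a number `a` (it stands for
`a(Y, - f ^* K_X)`), and two predicates (they stand for `κ(Y, K_Y - f ^* K_X) > 0` and for the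
non-injectivity of `f_* : F(Y, - f ^* K_X) → F(X, - K_X)`). The number `a` is assumed to be `1` if
`f` is birational; nothing else is assumed. -/
structure Invariants {τ : Type} (X : Set (PP k τ)) where
  a : ∀ {n : ℕ}, Set (PP k (Fin (n + 1))) → (PP k (Fin (n + 1)) → PP k τ) → ℝ
  iitakaPos : ∀ {n : ℕ}, Set (PP k (Fin (n + 1))) → (PP k (Fin (n + 1)) → PP k τ) → Prop
  faceContracting : ∀ {n : ℕ}, Set (PP k (Fin (n + 1))) → (PP k (Fin (n + 1)) → PP k τ) → Prop
  a_birational : ∀ {n : ℕ} (Y : Set (PP k (Fin (n + 1)))) (f : PP k (Fin (n + 1)) → PP k τ),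
    IsProjVar Y → IsMorphism Y f → Set.MapsTo f Y X → Birational Y X f → a Y f = 1

section
variable {τ : Type} {X : Set (PP k τ)} (I : Invariants X)

/-- `a`-covers. -/
def ACover {n : ℕ} (Y : Set (PP k (Fin (n + 1)))) (f : PP k (Fin (n + 1)) → PP k τ) : Prop :=
  Dominant Y X f ∧ ¬ Birational Y X f ∧ I.a Y f = 1

/-- Breaking morphisms. -/
def Breaking {n : ℕ} (Y : Set (PP k (Fin (n + 1)))) (f : PP k (Fin (n + 1)) → PP k τ) : Prop :=
  1 < I.a Y f ∨ (ACover I Y f ∧ I.iitakaPos Y f) ∨ (ACover I Y f ∧ I.faceContracting Y f)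

/-- The component `M` of the space of morphisms of degree `d` is accumulating: there are a breaking
morphism `f : Y → X`, generically finite onto its image, from a projective variety `Y`, and a
component `N` of the space of the morphisms from the projective line to `Y`, such that the
composition with `f` is a dominant map from `N` to `M`. -/
def Accumulating {d : ℕ} (M : Set (Mor X d)) : Prop :=
  ∃ (n : ℕ) (Y : Set (PP k (Fin (n + 1)))) (f : PP k (Fin (n + 1)) → PP k τ),
    IsProjVar Y ∧ IsMorphism Y f ∧ Set.MapsTo f Y X ∧ GenFinite Y f ∧ Breaking I Y f ∧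
    ∃ (e : ℕ), ∃ N ∈ irreducibleComponents (Mor Y e),
      (∀ g ∈ N, ∃ h ∈ M, IsComp f g.1 h.1) ∧
      M ⊆ closure {h | h ∈ M ∧ ∃ g ∈ N, IsComp f g.1 h.1}

/-- The Manin components of the space of morphisms of degree `d`: the irreducible components which
are not accumulating. -/
def maninComponents (d : ℕ) : Set (Set (Mor X d)) :=
  {M | M ∈ irreducibleComponents (Mor X d) ∧ ¬ Accumulating I M}

end

end Pool.Agent.Y166.GM
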