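import Mathlib
import Pool.Agent.Y166.GM.Defs

/-!
# Basic facts on the Zariski topology of projective space
-/

set_option autoImplicit false
set_option linter.unusedSectionVars false
set_option linter.deprecated false

namespace Pool.Agent.Y166.GM

open MvPolynomial

section
variable {k σ : Type} [Field k]

theorem rep_rep (p : PP k σ) : Rep p p.rep := ⟨p.rep_nonzero, p.mk_rep⟩

theorem Rep.ne_zero {p : PP k σ} {v : σ → k} (h : Rep p v) : v ≠ 0 := h.1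

theorem Rep.eq {p q : PP k σ} {v : σ → k} (h : Rep p v) (h' : Rep q v) : p = q := by
  obtain ⟨h1, h2⟩ := h
  obtain ⟨h3, h4⟩ := h'
  rw [← h2, ← h4]

theorem exists_rep {v : σ → k} (h : v ≠ 0) : ∃ p : PP k σ, Rep p v := ⟨_, h, rfl⟩

theorem Rep.smul {p : PP k σ} {v : σ → k} (h : Rep p v) {a : k} (ha : a ≠ 0) : Rep p (a • v) := by
  obtain ⟨h1, h2⟩ := h
  refine ⟨smul_ne_zero ha h1, ?_⟩
  rw [← h2, Projectivization.mk_eq_mk_iff']
  exact ⟨a, rfl⟩

theorem Rep.exists_smul {p : PP k σ} {v w : σ → k} (h : Rep p v) (h' : Rep p w) :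
    ∃ a : k, a ≠ 0 ∧ w = a • v := by
  obtain ⟨h1, h2⟩ := h
  obtain ⟨h3, h4⟩ := h'
  rw [← h4, Projectivization.mk_eq_mk_iff'] at h2
  obtain ⟨a, ha⟩ := h2
  refine ⟨a⁻¹, ?_, ?_⟩
  · intro h0
    rw [inv_eq_zero] at h0
    rw [h0, zero_smul] at ha
    exact h1 ha.symm
  · rw [← ha, smul_smul, inv_mul_cancel₀, one_smul]
    intro h0
    rw [h0, zero_smul] at ha
    exact h1 ha.symm

theorem aeval_smul_homog {A : Type} [CommRing A] [Algebra k A] {m : ℕ} {P : MvPolynomial σ k}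
    (hP : P.IsHomogeneous m) (a : A) (v : σ → A) :
    aeval (fun i => a * v i) P = a ^ m * aeval v P := by
  rw [aeval_def, aeval_def, eval₂_eq, eval₂_eq, Finset.mul_sum]
  refine Finset.sum_congr rfl fun d hd => ?_
  have h1 : ∏ i ∈ d.support, (a * v i) ^ d i = a ^ m * ∏ i ∈ d.support, v i ^ d i := by
    rw [hP.degree_eq_sum_deg_support hd, ← Finset.prod_pow_eq_pow_sum, ← Finset.prod_mul_distrib]
    exact Finset.prod_congr rfl fun i _ => mul_pow _ _ _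
  rw [h1]
  ring

theorem eval_smul_homog {m : ℕ} {P : MvPolynomial σ k} (hP : P.IsHomogeneous m) (a : k)
    (v : σ → k) : eval (a • v) P = a ^ m * eval v P := by
  have := aeval_smul_homog hP a v
  rw [aeval_eq_eval, aeval_eq_eval] at this
  exact this

theorem zero_iff {p : PP k σ} {v : σ → k} (h : Rep p v) {m : ℕ} {P : MvPolynomial σ k}
    (hP : P.IsHomogeneous m) : eval v P = 0 ↔ eval p.rep P = 0 := by
  obtain ⟨a, ha, hv⟩ := (rep_rep p).exists_smul h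
  rw [hv, eval_smul_homog hP]
  constructor
  · intro h0
    rcases mul_eq_zero.1 h0 with h1 | h1
    · exact absurd (eq_zero_of_pow_eq_zero h1) ha
    · exact h1
  · intro h0
    rw [h0, mul_zero]

theorem isClosed_iff (Z : Set (PP k σ)) : IsClosed Z ↔
    ∃ S : Set (MvPolynomial σ k), (∀ P ∈ S, ∃ m, P.IsHomogeneous m) ∧ Z = zeros S := by
  rw [← isOpen_compl_iff]
  show Zᶜᶜ ∈ _ ↔ _
  rw [compl_compl]
  rfl

theorem isClosed_hyper {m : ℕ} {P : MvPolynomial σ k} (hP : P.IsHomogeneous m) :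
    IsClosed {p : PP k σ | eval p.rep P = 0} := by
  rw [isClosed_iff]
  refine ⟨{P}, fun Q hQ => ⟨m, by rw [Set.mem_singleton_iff.1 hQ]; exact hP⟩, ?_⟩
  ext p
  constructor
  · intro h Q hQ
    rw [Set.mem_singleton_iff.1 hQ]
    exact h
  · intro h
    exact h P rfl

theorem isOpen_basic {m : ℕ} {P : MvPolynomial σ k} (hP : P.IsHomogeneous m) :
    IsOpen {p : PP k σ | eval p.rep P ≠ 0} := (isClosed_hyper hP).isOpen_compl

theorem exists_basic {U : Set (PP k σ)} (hU : IsOpen U) {p : PP k σ} (hp : p ∈ U) :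
    ∃ (m : ℕ) (P : MvPolynomial σ k), P.IsHomogeneous m ∧ eval p.rep P ≠ 0 ∧
      ∀ q : PP k σ, eval q.rep P ≠ 0 → q ∈ U := by
  obtain ⟨S, hS, hUS⟩ := (isClosed_iff Uᶜ).1 hU.isClosed_compl
  have h1 : p ∉ zeros S := by
    rw [← hUS]
    exact fun h => h hp
  have h2 : ∃ P ∈ S, eval p.rep P ≠ 0 := by
    by_contra hcon
    push Not at hcon
    exact h1 hcon
  obtain ⟨P, hP, hP0⟩ := h2
  obtain ⟨m, hm⟩ := hS P hP
  refine ⟨m, P, hm, hP0, fun q hq => ?_⟩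
  by_contra hcon
  have h3 : q ∈ Uᶜ := hcon
  rw [hUS] at h3
  exact hq (h3 P hP)

theorem mem_closure_iff' (Z : Set (PP k σ)) (p : PP k σ) : p ∈ closure Z ↔
    ∀ (m : ℕ) (P : MvPolynomial σ k), P.IsHomogeneous m → (∀ q ∈ Z, eval q.rep P = 0) →
      eval p.rep P = 0 := by
  constructor
  · intro h m P hP hZ
    have h1 : closure Z ⊆ {p : PP k σ | eval p.rep P = 0} :=
      closure_minimal hZ (isClosed_hyper hP)
    exact h1 h
  · intro h
    by_contra hcon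
    obtain ⟨m, P, hP, h1, h2⟩ := exists_basic (isClosed_closure (s := Z)).isOpen_compl hcon
    apply h1
    refine h m P hP fun q hq => ?_
    by_contra h3
    exact h2 q h3 (subset_closure hq)

/-- Irreducibility can be checked with homogeneous polynomials. -/
theorem isPreirreducible_of (Z : Set (PP k σ))
    (h : ∀ (m n : ℕ) (P Q : MvPolynomial σ k), P.IsHomogeneous m → Q.IsHomogeneous n →
      (∃ p ∈ Z, eval p.rep P ≠ 0) → (∃ p ∈ Z, eval p.rep Q ≠ 0) →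
      ∃ p ∈ Z, eval p.rep P ≠ 0 ∧ eval p.rep Q ≠ 0) : IsPreirreducible Z := by
  rintro U V hU hV ⟨p, hp, hpU⟩ ⟨q, hq, hqV⟩
  obtain ⟨m, P, hP, h1, h2⟩ := exists_basic hU hpU
  obtain ⟨n, Q, hQ, h3, h4⟩ := exists_basic hV hqV
  obtain ⟨r, hr, h5, h6⟩ := h m n P Q hP hQ ⟨p, hp, h1⟩ ⟨q, hq, h3⟩
  exact ⟨r, hr, h2 r h5, h4 r h6⟩

theorem exists_both {Z : Set (PP k σ)} (hZ : IsPreirreducible Z) {m n : ℕ}
    {P Q : MvPolynomial σ k} (hP : P.IsHomogeneous m) (hQ : Q.IsHomogeneous n)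
    (h1 : ∃ p ∈ Z, eval p.rep P ≠ 0) (h2 : ∃ p ∈ Z, eval p.rep Q ≠ 0) :
    ∃ p ∈ Z, eval p.rep P ≠ 0 ∧ eval p.rep Q ≠ 0 := by
  obtain ⟨p, hp, hp0⟩ := h1
  obtain ⟨q, hq, hq0⟩ := h2
  obtain ⟨r, hr, h3, h4⟩ := hZ _ _ (isOpen_basic hP) (isOpen_basic hQ) ⟨p, hp, hp0⟩ ⟨q, hq, hq0⟩
  exact ⟨r, hr, h3, h4⟩

end

end Pool.Agent.Y166.GM
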