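import Mathlib
import Pool.Agent.Y166.GM.Basic

/-!
# The ideal of the cone over a projective variety
-/

set_option autoImplicit false
set_option linter.unusedSectionVars false
set_option linter.deprecated false

namespace Pool.Agent.Y166.GM

open MvPolynomial

section
variable {k σ : Type} [Field k]

/-- The restriction of a polynomial to a line through the origin. -/
noncomputable def line (P : MvPolynomial σ k) (v : σ → k) : Polynomial k :=
  aeval (fun i => Polynomial.X * Polynomial.C (v i)) P

theorem line_eval (P : MvPolynomial σ k) (v : σ → k) (a : k) :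
    (line P v).eval a = eval (a • v) P := by
  have h : ((Polynomial.aeval a : Polynomial k →ₐ[k] k).comp
      (aeval (fun i => Polynomial.X * Polynomial.C (v i)))) =
      (aeval (a • v) : MvPolynomial σ k →ₐ[k] k) := by
    apply MvPolynomial.algHom_ext
    intro i
    rw [AlgHom.comp_apply, aeval_X, aeval_X, map_mul, Polynomial.aeval_X, Polynomial.aeval_C,
      Pi.smul_apply, smul_eq_mul]
    rfl
  have h2 := congrArg (fun φ : MvPolynomial σ k →ₐ[k] k => φ P) h
  rw [← aeval_eq_eval]
  exact h2

theorem line_coeff (P : MvPolynomial σ k) (v : σ → k) (m : ℕ) :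
    (line P v).coeff m = eval v (homogeneousComponent m P) := by
  have h1 : ∀ i, line (homogeneousComponent i P) v =
      Polynomial.C (eval v (homogeneousComponent i P)) * Polynomial.X ^ i := by
    intro i
    unfold line
    rw [aeval_smul_homog (homogeneousComponent_isHomogeneous i P), mul_comm]
    congr 1
    have h : (Polynomial.C : k →+* Polynomial k).comp (eval v) =
        (aeval (fun i => Polynomial.C (v i)) : MvPolynomial σ k →ₐ[k] Polynomial k).toRingHom := by
      apply MvPolynomial.ringHom_ext
      · intro r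
        simp
      · intro i
        simp
    exact (congrArg (fun φ : MvPolynomial σ k →+* Polynomial k => φ (homogeneousComponent i P))
      h).symm
  have h2 : line P v = ∑ i ∈ Finset.range (P.totalDegree + 1),
      Polynomial.C (eval v (homogeneousComponent i P)) * Polynomial.X ^ i := by
    conv_lhs => rw [← sum_homogeneousComponent P]
    rw [← Finset.sum_congr rfl fun i _ => h1 i]
    unfold line
    rw [map_sum]
  rw [h2, Polynomial.finset_sum_coeff]
  simp only [Polynomial.coeff_C_mul_X_pow]
  rw [Finset.sum_ite_eq]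
  split_ifs with h
  · rfl
  · rw [Finset.mem_range, not_lt] at h
    rw [homogeneousComponent_eq_zero _ _ (by omega), map_zero]

theorem exists_component {P : MvPolynomial σ k} {v : σ → k} (h : eval v P ≠ 0) :
    ∃ m, eval v (homogeneousComponent m P) ≠ 0 := by
  by_contra hcon
  push Not at hcon
  apply h
  have h1 : line P v = 0 := by
    ext m
    rw [line_coeff, hcon, Polynomial.coeff_zero]
  have h2 := line_eval P v 1
  rw [h1, Polynomial.eval_zero, one_smul] at h2
  exact h2.symm

theorem line_ne_zero {P : MvPolynomial σ k} {v : σ → k} {m : ℕ}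
    (h : eval v (homogeneousComponent m P) ≠ 0) : line P v ≠ 0 := by
  intro h0
  apply h
  rw [← line_coeff, h0, Polynomial.coeff_zero]

theorem exists_ne_of_ne_zero [Infinite k] {p : Polynomial k} (hp : p ≠ 0) :
    ∃ a, p.eval a ≠ 0 := by
  by_contra hcon
  push Not at hcon
  apply hp
  apply Polynomial.funext
  intro a
  rw [hcon, Polynomial.eval_zero]

/-- A polynomial vanishing on a set which is stable under scaling: all the homogeneous components
vanish. -/
theorem component_zero [Infinite k] {P : MvPolynomial σ k} {v : σ → k}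
    (h : ∀ a : k, a ≠ 0 → eval (a • v) P = 0) (m : ℕ) : eval v (homogeneousComponent m P) = 0 := by
  rw [← line_coeff]
  have h1 : line P v * Polynomial.X = 0 := by
    apply Polynomial.funext
    intro a
    rw [Polynomial.eval_mul, Polynomial.eval_X, Polynomial.eval_zero, line_eval]
    by_cases ha : a = 0
    · rw [ha, mul_zero]
    · rw [h a ha, zero_mul]
  rcases mul_eq_zero.1 h1 with h2 | h2
  · rw [h2, Polynomial.coeff_zero]
  · exact absurd h2 Polynomial.X_ne_zero

/-- The ideal of the cone over a subset of the projective space. -/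
def coneIdeal (Y : Set (PP k σ)) : Ideal (MvPolynomial σ k) where
  carrier := {P | ∀ z ∈ Y, ∀ v, Rep z v → eval v P = 0}
  add_mem' := by
    intro P Q hP hQ z hz v hv
    rw [map_add, hP z hz v hv, hQ z hz v hv, add_zero]
  zero_mem' := fun z _ v _ => map_zero _
  smul_mem' := by
    intro P Q hQ z hz v hv
    rw [smul_eq_mul, map_mul, hQ z hz v hv, mul_zero]

theorem mem_coneIdeal {Y : Set (PP k σ)} {P : MvPolynomial σ k} :
    P ∈ coneIdeal Y ↔ ∀ z ∈ Y, ∀ v, Rep z v → eval v P = 0 := Iff.rfl

theorem mem_coneIdeal_homog {Y : Set (PP k σ)} {P : MvPolynomial σ k} {m : ℕ}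
    (hP : P.IsHomogeneous m) : P ∈ coneIdeal Y ↔ ∀ z ∈ Y, eval z.rep P = 0 := by
  rw [mem_coneIdeal]
  constructor
  · exact fun h z hz => h z hz _ (rep_rep z)
  · exact fun h z hz v hv => (zero_iff hv hP).2 (h z hz)

theorem coneIdeal_prime [Infinite k] {Y : Set (PP k σ)} (hY : IsIrreducible Y) :
    (coneIdeal Y).IsPrime := by
  refine ⟨?_, ?_⟩
  · intro h
    obtain ⟨z, hz⟩ := hY.1
    have h1 : (1 : MvPolynomial σ k) ∈ coneIdeal Y := by rw [h]; trivial
    have := h1 z hz _ (rep_rep z)
    rw [map_one] at this
    exact one_ne_zero this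
  · intro P Q hPQ
    by_contra hcon
    rw [not_or, mem_coneIdeal, mem_coneIdeal] at hcon
    push Not at hcon
    obtain ⟨⟨z1, hz1, v1, hv1, h1⟩, z2, hz2, v2, hv2, h2⟩ := hcon
    obtain ⟨m, hm⟩ := exists_component h1
    obtain ⟨n, hn⟩ := exists_component h2
    obtain ⟨z, hz, h3, h4⟩ := exists_both hY.2 (homogeneousComponent_isHomogeneous m P)
      (homogeneousComponent_isHomogeneous n Q)
      ⟨z1, hz1, fun h => hm ((zero_iff hv1 (homogeneousComponent_isHomogeneous m P)).2 h)⟩
      ⟨z2, hz2, fun h => hn ((zero_iff hv2 (homogeneousComponent_isHomogeneous n Q)).2 h)⟩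
    obtain ⟨a, ha⟩ := exists_ne_of_ne_zero
      (mul_ne_zero (mul_ne_zero (line_ne_zero h3) (line_ne_zero h4)) Polynomial.X_ne_zero)
    rw [Polynomial.eval_mul, Polynomial.eval_mul, Polynomial.eval_X, line_eval, line_eval] at ha
    have ha0 : a ≠ 0 := right_ne_zero_of_mul ha
    have h5 := hPQ z hz (a • z.rep) ((rep_rep z).smul ha0)
    rw [map_mul] at h5
    exact (left_ne_zero_of_mul ha) h5

/-- Homogenisation. -/
theorem exists_homog {ρ τ : Type} (A : MvPolynomial ρ k) {D : ℕ} (hD : A.totalDegree ≤ D)
    (j0 : τ) (r : ρ → τ) : ∃ Ah : MvPolynomial τ k, Ah.IsHomogeneous D ∧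
      ∀ (K : Type) [Field K] [Algebra k K] (x : τ → K), x j0 ≠ 0 →
        aeval x Ah = x j0 ^ D * aeval (fun i => x (r i) / x j0) A := by
  refine ⟨∑ m ∈ Finset.range (D + 1), X j0 ^ (D - m) * rename r (homogeneousComponent m A),
    ?_, ?_⟩
  · refine IsHomogeneous.sum _ _ _ fun m hm => ?_
    rw [Finset.mem_range] at hm
    have h1 : (X j0 ^ (D - m) * rename r (homogeneousComponent m A)).IsHomogeneous
        ((D - m) + m) :=
      (isHomogeneous_X_pow j0 (D - m)).mul
        ((homogeneousComponent_isHomogeneous m A).rename_isHomogeneous)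
    rwa [Nat.sub_add_cancel (by omega)] at h1
  · intro K _ _ x hx
    have hsum : ∑ m ∈ Finset.range (D + 1), homogeneousComponent m A = A := by
      conv_rhs => rw [← sum_homogeneousComponent A]
      symm
      apply Finset.sum_subset
      · intro m hm
        rw [Finset.mem_range] at hm ⊢
        omega
      · intro m _ hm
        rw [Finset.mem_range, not_lt] at hm
        exact homogeneousComponent_eq_zero _ _ (by omega)
    conv_rhs => rw [← hsum]
    rw [map_sum, map_sum, Finset.mul_sum]
    refine Finset.sum_congr rfl fun m hm => ?_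
    rw [Finset.mem_range] at hm
    rw [map_mul, map_pow, aeval_X, aeval_rename]
    have h1 : (x ∘ r) = fun i => x j0 * (x (r i) / x j0) := by
      funext i
      rw [Function.comp_apply, mul_div_cancel₀ _ hx]
    rw [h1, aeval_smul_homog (homogeneousComponent_isHomogeneous m A), ← mul_assoc, ← pow_add,
      Nat.sub_add_cancel (by omega)]

end

end Pool.Agent.Y166.GM
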