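import Mathlib

/-!
# Closed conditions given by the failure of injectivity; irreducible components
-/

set_option autoImplicit false
set_option linter.unusedSectionVars false
set_option linter.deprecated false

namespace Pool.Agent.Y166.GM

open MvPolynomial

theorem det_homog {κ I k : Type} [Field k] [Fintype I] [DecidableEq I]
    (M : Matrix I I (MvPolynomial κ k)) (hM : ∀ i j, (M i j).IsHomogeneous 1) :
    M.det.IsHomogeneous (Fintype.card I) := by
  rw [Matrix.det_apply]
  refine IsHomogeneous.sum _ _ _ fun σ _ => ?_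
  have h1 : (∏ i, M (σ i) i).IsHomogeneous (∑ _i : I, 1) :=
    IsHomogeneous.prod _ _ _ fun i _ => hM _ _
  rw [Finset.sum_const, Finset.card_univ, smul_eq_mul, mul_one] at h1
  rcases Int.units_eq_one_or (Equiv.Perm.sign σ) with h | h
  · rw [h, one_smul]
    exact h1
  · rw [h, Units.neg_smul, one_smul]
    exact h1.neg

/-- The condition that a linear map depending linearly on parameters is not injective. -/
theorem sep {κ I V k : Type} [Field k] [Fintype κ] [DecidableEq κ] [Fintype I] [DecidableEq I]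
    [AddCommGroup V] [Module k V] (Φ : (κ → k) →ₗ[k] (I → k) →ₗ[k] V) (v0 : κ → k)
    (h0 : Function.Injective (Φ v0)) :
    ∃ (m : ℕ) (P : MvPolynomial κ k), P.IsHomogeneous m ∧ eval v0 P ≠ 0 ∧
      ∀ v, (∃ x, x ≠ 0 ∧ Φ v x = 0) → eval v P = 0 := by
  obtain ⟨ψ, hψ⟩ := LinearMap.exists_leftInverse_of_injective (Φ v0) (LinearMap.ker_eq_bot.2 h0)
  let T : (κ → k) → Matrix I I k := fun v => LinearMap.toMatrix' (ψ.comp (Φ v))
  let M : Matrix I I (MvPolynomial κ k) := Matrix.of fun i j =>
    ∑ a : κ, C (T (Pi.single a 1) i j) * X a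
  have hM : ∀ i j, (M i j).IsHomogeneous 1 := fun i j =>
    IsHomogeneous.sum _ _ _ fun a _ => isHomogeneous_C_mul_X _ _
  have heval : ∀ v, eval v M.det = (T v).det := by
    intro v
    rw [RingHom.map_det]
    congr 1
    ext i j
    show eval v (∑ a : κ, C (T (Pi.single a 1) i j) * X a) = T v i j
    rw [map_sum]
    have h1 : T v i j = ∑ a : κ, v a * T (Pi.single a 1) i j := by
      have h2 : v = ∑ a : κ, v a • (Pi.single a (1 : k) : κ → k) := by
        funext b
        rw [Finset.sum_apply, Finset.sum_eq_single b]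
        · simp
        · intro a _ hab
          simp [Pi.single_eq_of_ne hab.symm]
        · intro h
          exact absurd (Finset.mem_univ _) h
      show LinearMap.toMatrix' (ψ.comp (Φ v)) i j = _
      conv_lhs => rw [h2]
      rw [map_sum, LinearMap.toMatrix'_apply, LinearMap.comp_apply, LinearMap.sum_apply, map_sum,
        Finset.sum_apply]
      refine Finset.sum_congr rfl fun a _ => ?_
      rw [map_smul, LinearMap.smul_apply, map_smul, Pi.smul_apply, smul_eq_mul]
      show _ = v a * LinearMap.toMatrix' (ψ.comp (Φ (Pi.single a 1))) i j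
      rw [LinearMap.toMatrix'_apply, LinearMap.comp_apply]
    rw [h1]
    refine Finset.sum_congr rfl fun a _ => ?_
    rw [map_mul, eval_C, eval_X, mul_comm]
  refine ⟨Fintype.card I, M.det, det_homog M hM, ?_, ?_⟩
  · rw [heval]
    show (LinearMap.toMatrix' (ψ.comp (Φ v0))).det ≠ 0
    rw [hψ, LinearMap.toMatrix'_id, Matrix.det_one]
    exact one_ne_zero
  · rintro v ⟨x, hx, hx0⟩
    rw [heval]
    apply Matrix.exists_mulVec_eq_zero_iff.1
    refine ⟨x, hx, ?_⟩
    show (LinearMap.toMatrix' (ψ.comp (Φ v))).mulVec x = 0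
    rw [← Matrix.toLin'_apply, Matrix.toLin'_toMatrix', LinearMap.comp_apply, hx0, map_zero]

/-- The irreducible components of a finite union of irreducible sets, none of which is contained in
the closure of another one. -/
theorem components {T ι : Type} [TopologicalSpace T] [Finite ι] (S : Set T) (M : ι → Set T)
    (hMS : ∀ i, M i ⊆ S) (hS : S ⊆ ⋃ i, M i) (hirr : ∀ i, IsIrreducible (M i))
    (hsep : ∀ i j, i ≠ j → ¬ M i ⊆ closure (M j)) :
    (∀ Z : Set S, Z ∈ irreducibleComponents S ↔ ∃ i, Z = Subtype.val ⁻¹' closure (M i)) ∧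
    Function.Injective fun i => (Subtype.val ⁻¹' closure (M i) : Set S) := by
  have hsub : ∀ i j, (Subtype.val ⁻¹' closure (M i) : Set S) ⊆ Subtype.val ⁻¹' closure (M j) →
      i = j := by
    intro i j h
    by_contra hne
    apply hsep i j hne
    intro x hx
    exact h (show (⟨x, hMS i hx⟩ : S) ∈ Subtype.val ⁻¹' closure (M i) from subset_closure hx)
  have hCirr : ∀ i, IsIrreducible (Subtype.val ⁻¹' closure (M i) : Set S) := by
    intro i
    have h1 : IsIrreducible (Subtype.val ⁻¹' (M i) : Set S) := by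
      refine ⟨?_, ?_⟩
      · obtain ⟨x, hx⟩ := (hirr i).1
        exact ⟨⟨x, hMS i hx⟩, hx⟩
      · rintro U V hU hV ⟨p, hp, hpU⟩ ⟨q, hq, hqV⟩
        obtain ⟨U', hU', rfl⟩ := isOpen_induced_iff.1 hU
        obtain ⟨V', hV', rfl⟩ := isOpen_induced_iff.1 hV
        obtain ⟨r, hr, hrU, hrV⟩ := (hirr i).2 U' V' hU' hV' ⟨p, hp, hpU⟩ ⟨q, hq, hqV⟩
        exact ⟨⟨r, hMS i hr⟩, hr, hrU, hrV⟩
    have h2 : closure (Subtype.val ⁻¹' (M i) : Set S) = Subtype.val ⁻¹' closure (M i) := by
      rw [Topology.IsInducing.subtypeVal.closure_eq_preimage_closure_image]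
      rw [Subtype.image_preimage_coe, Set.inter_eq_self_of_subset_right (hMS i)]
    rw [← h2]
    exact h1.closure
  have hcov : ∀ Z : Set S, IsIrreducible Z → ∃ i, Z ⊆ Subtype.val ⁻¹' closure (M i) := by
    intro Z hZ
    have := (isIrreducible_iff_sUnion_isClosed.1 hZ)
      ((Set.finite_range fun i => (Subtype.val ⁻¹' closure (M i) : Set S)).toFinset) (by
        intro z hz
        rw [Set.Finite.mem_toFinset] at hz
        obtain ⟨i, rfl⟩ := hz
        exact isClosed_closure.preimage continuous_subtype_val) (by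
        intro x _
        obtain ⟨i, hi⟩ := Set.mem_iUnion.1 (hS x.2)
        rw [Set.mem_sUnion]
        refine ⟨_, ?_, show x ∈ Subtype.val ⁻¹' closure (M i) from subset_closure hi⟩
        rw [Finset.mem_coe, Set.Finite.mem_toFinset]
        exact ⟨i, rfl⟩)
    obtain ⟨z, hz, hZz⟩ := this
    rw [Set.Finite.mem_toFinset] at hz
    obtain ⟨i, rfl⟩ := hz
    exact ⟨i, hZz⟩
  refine ⟨fun Z => ⟨fun hZ => ?_, ?_⟩, fun i j h => hsub i j (le_of_eq h)⟩
  · obtain ⟨i, hi⟩ := hcov Z hZ.1
    exact ⟨i, le_antisymm hi (hZ.2 (hCirr i) hi)⟩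
  · rintro ⟨i, rfl⟩
    refine ⟨hCirr i, fun Z hZ hle => ?_⟩
    obtain ⟨j, hj⟩ := hcov Z hZ
    have := hsub i j (le_trans hle hj)
    subst this
    exact hj

end Pool.Agent.Y166.GM
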