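import Mathlib
import Pool.Agent.Y166.GM.Cone
import Pool.Agent.Y166.GM.Chev
import Pool.Agent.Y166.GM.Curves

/-!
# A generically finite morphism to the cone: algebraicity
-/

set_option autoImplicit false
set_option linter.unusedSectionVars false
set_option linter.deprecated false
set_option linter.style.haveILetI false

namespace Pool.Agent.Y166.GM

open MvPolynomial

section
variable {k : Type} [Field k]

/-- The first coordinate. -/
abbrev j0 : Tau := some (0, 0)

/-- The three remaining affine coordinates. -/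
def rr : Fin 3 → Tau := ![some (0, 1), some (0, 2), none]

/-- The affine chart of the cone. -/
def vv {A : Type} [CommRing A] (t : Fin 3 → A) : Tau → A := ver ![1, t 0, t 1] (t 2)

theorem vv_map {A B : Type} [CommRing A] [CommRing B] (f : A →+* B) (t : Fin 3 → A) (j : Tau) :
    f (vv t j) = vv (fun i => f (t i)) j := by
  rcases j with _ | ⟨a, b⟩
  · rfl
  · show f (_ * _) = _ * _
    rw [map_mul]
    congr 1
    · fin_cases a
      · exact map_one f
      · rfl
      · rfl
    · fin_cases b
      · exact map_one f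
      · rfl
      · rfl

theorem Xcone_rel {x : PP k Tau} (hx : x ∈ Xcone k) {V : Tau → k} (hV : Rep x V)
    (a b : Fin 3) : V (some (a, b)) * V j0 = V (some (0, a)) * V (some (0, b)) := by
  obtain ⟨u, w, huw⟩ := hx
  obtain ⟨c, _, hc⟩ := huw.exists_smul hV
  rw [hc]
  show c * (u a * u b) * (c * (u 0 * u 0)) = c * (u 0 * u a) * (c * (u 0 * u b))
  ring

theorem vv_of_rel {K : Type} [Field K] {V : Tau → K} (h0 : V j0 ≠ 0)
    (h : ∀ a b : Fin 3, V (some (a, b)) * V j0 = V (some (0, a)) * V (some (0, b))) (j : Tau) :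
    V j = V j0 * vv (fun i => V (rr i) / V j0) j := by
  have h1 : ∀ a : Fin 3, V j0 * (![1, V (rr 0) / V j0, V (rr 1) / V j0] : Fin 3 → K) a =
      V (some (0, a)) := by
    intro a
    fin_cases a
    · exact mul_one _
    · exact mul_div_cancel₀ _ h0
    · exact mul_div_cancel₀ _ h0
  rcases j with _ | ⟨a, b⟩
  · exact (mul_div_cancel₀ _ h0).symm
  · show _ = V j0 * ((![1, V (rr 0) / V j0, V (rr 1) / V j0] : Fin 3 → K) a *
      (![1, V (rr 0) / V j0, V (rr 1) / V j0] : Fin 3 → K) b)
    apply mul_right_cancel₀ h0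
    rw [h a b, ← h1 a, ← h1 b]
    ring

theorem Xcone_coord {x : PP k Tau} (hx : x ∈ Xcone k) {V : Tau → k} (hV : Rep x V)
    (h0 : V j0 ≠ 0) (j : Tau) : V j = V j0 * vv (fun i => V (rr i) / V j0) j :=
  vv_of_rel h0 (Xcone_rel hx hV) j

theorem Rep.of_smul {σ : Type} {p q : PP k σ} {v w : σ → k} (hp : Rep p v) (hq : Rep q w) {c : k}
    (hc : c ≠ 0) (h : w = c • v) : p = q := by
  have h1 := hp.smul hc
  rw [← h] at h1
  exact h1.eq hq

theorem Rep.eval_iff {σ τ : Type} {p : PP k σ} {v : σ → k} (h : Rep p v) {m : ℕ}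
    {F : τ → MvPolynomial σ k} (hF : ∀ j, (F j).IsHomogeneous m) {q : PP k τ} :
    Rep q (fun j => eval p.rep (F j)) ↔ Rep q (fun j => eval v (F j)) := by
  obtain ⟨a, ha, hv⟩ := (rep_rep p).exists_smul h
  have h1 : (fun j => eval v (F j)) = a ^ m • fun j => eval p.rep (F j) := by
    funext j
    rw [hv, eval_smul_homog (hF j)]
    rfl
  rw [h1]
  constructor
  · intro h2
    exact h2.smul (pow_ne_zero m ha)
  · intro h2
    have h3 := h2.smul (inv_ne_zero (pow_ne_zero m ha))
    rw [smul_smul, inv_mul_cancel₀ (pow_ne_zero m ha), one_smul] at h3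
    exact h3

theorem mem_of_closed {σ : Type} {Y : Set (PP k σ)} (hY : IsClosed Y) {w : PP k σ} {v : σ → k}
    (hw : Rep w v) (h : ∀ (m : ℕ) (Q : MvPolynomial σ k), Q.IsHomogeneous m → Q ∈ coneIdeal Y →
      eval v Q = 0) : w ∈ Y := by
  obtain ⟨S, hS, hYS⟩ := (isClosed_iff Y).1 hY
  rw [hYS]
  intro Q hQ
  obtain ⟨m, hm⟩ := hS Q hQ
  have h1 : Q ∈ coneIdeal Y := by
    rw [mem_coneIdeal_homog hm]
    intro z hz
    rw [hYS] at hz
    exact hz Q hQ
  exact (zero_iff hw hm).1 (h m Q hm h1)

/-- Elements algebraic over a polynomial ring, under specialisation. -/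
theorem alg_push {B W ρ : Type} [CommRing B] [IsDomain B] [Algebra k B] [Field W] [Algebra k W]
    (φ : B →ₐ[k] W) (ξ : ρ → B) (hind : AlgebraicIndependent k (fun i => φ (ξ i))) (x : B)
    (hx : IsAlgebraic (Algebra.adjoin k (Set.range ξ)) x) :
    IsAlgebraic (IntermediateField.adjoin k (Set.range fun i => φ (ξ i))) (φ x) ∧
    (x ≠ 0 → φ x ≠ 0) := by
  set L := IntermediateField.adjoin k (Set.range fun i => φ (ξ i)) with hL
  have hinj : ∀ r : Algebra.adjoin k (Set.range ξ), φ r = 0 → r = 0 := by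
    rintro ⟨r, hr⟩ h0
    have hr' := hr
    rw [Algebra.adjoin_range_eq_range_aeval] at hr'
    obtain ⟨Q, hQ⟩ := hr'
    have hQ' : aeval ξ Q = r := hQ
    have h1 : aeval (fun i => φ (ξ i)) Q = 0 := by
      have h2 : φ (aeval ξ Q) = aeval (fun i => φ (ξ i)) Q := by
        rw [← MvPolynomial.comp_aeval_apply]
      rw [← h2, hQ']
      exact h0
    have h3 : Q = 0 := by
      apply hind
      rw [h1, map_zero]
    apply Subtype.ext
    show r = 0
    rw [← hQ', h3, map_zero]
  have hmemL : ∀ r : Algebra.adjoin k (Set.range ξ), φ r ∈ L := by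
    rintro ⟨r, hr⟩
    show φ r ∈ L
    induction hr using Algebra.adjoin_induction with
    | mem y hy =>
      obtain ⟨i, rfl⟩ := hy
      exact IntermediateField.subset_adjoin _ _ ⟨i, rfl⟩
    | algebraMap a =>
      rw [φ.commutes]
      exact L.algebraMap_mem a
    | add y z _ _ hy hz => rw [map_add]; exact add_mem hy hz
    | mul y z _ _ hy hz => rw [map_mul]; exact mul_mem hy hz
  constructor
  · let j : Algebra.adjoin k (Set.range ξ) →+* L :=
      ((φ : B →+* W).comp (Algebra.adjoin k (Set.range ξ)).val.toRingHom).codRestrict L hmemL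
    have hj : Function.Injective j := by
      rw [injective_iff_map_eq_zero]
      intro r hr
      exact hinj r (congrArg Subtype.val hr)
    obtain ⟨p, hp, hp0⟩ := hx
    refine ⟨p.map j, ?_, ?_⟩
    · rw [Ne, Polynomial.map_eq_zero_iff hj]
      exact hp
    · rw [Polynomial.aeval_def, Polynomial.eval₂_map]
      have h1 : (algebraMap L W).comp j =
          (φ : B →+* W).comp (algebraMap (Algebra.adjoin k (Set.range ξ)) B) := rfl
      rw [h1]
      have h2 := congrArg φ hp0
      rw [map_zero, Polynomial.aeval_def] at h2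
      rw [← h2]
      exact (Polynomial.hom_eval₂ p (algebraMap (Algebra.adjoin k (Set.range ξ)) B)
        (φ : B →+* W) x).symm
  · intro hx0 h0
    obtain ⟨r, hr, c, hc⟩ := hx.exists_nonzero_dvd (mem_nonZeroDivisors_of_ne_zero hx0)
    apply hr
    apply hinj
    have h1 : (r : B) = x * c := hc
    rw [h1, map_mul, h0, zero_mul]

theorem FLa [IsAlgClosed k] {W : Type} [Field W] [Algebra k W] {n : ℕ}
    {Y : Set (PP k (Fin (n + 1)))} (hYc : IsClosed Y) (hYi : IsIrreducible Y)
    {f : PP k (Fin (n + 1)) → PP k Tau} (hfX : Set.MapsTo f Y (Xcone k)) (hfin : GenFinite Y f)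
    {m : ℕ} (F : Tau → MvPolynomial (Fin (n + 1)) k) (hF : ∀ j, (F j).IsHomogeneous m)
    {mP : ℕ} (P : MvPolynomial (Fin (n + 1)) k) (hP : P.IsHomogeneous mP)
    (hrep : ∀ z ∈ Y, eval z.rep P ≠ 0 → Rep (f z) (fun j => eval z.rep (F j)))
    (i0 : Fin (n + 1)) (y : Fin (n + 1) → W)
    (hy : ∀ Q ∈ coneIdeal Y, aeval y Q = 0) (hP0 : aeval y P ≠ 0) (hi0 : y i0 ≠ 0)
    (hF0 : aeval y (F j0) ≠ 0)
    (hind : AlgebraicIndependent k (fun i => aeval y (F (rr i)) / aeval y (F j0))) :
    (∀ i, IsAlgebraic (IntermediateField.adjoin k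
      (Set.range (fun i => aeval y (F (rr i)) / aeval y (F j0)))) (y i / y i0)) ∧
    ∀ (l : ℕ) (Q : MvPolynomial (Fin (n + 1)) k), Q.IsHomogeneous l → aeval y Q = 0 →
      Q ∈ coneIdeal Y := by
  classical
  haveI : Infinite k := IsAlgClosed.instInfinite
  haveI hprime : (coneIdeal Y).IsPrime := coneIdeal_prime hYi
  set S := MvPolynomial (Fin (n + 1)) k ⧸ coneIdeal Y with hS
  haveI : IsDomain S := Ideal.Quotient.isDomain _
  have hmem : X i0 * F j0 ∉ coneIdeal Y := by
    intro h
    have := hy _ h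
    rw [map_mul, aeval_X] at this
    exact mul_ne_zero hi0 hF0 this
  set a : S := Ideal.Quotient.mk (coneIdeal Y) (X i0 * F j0) with ha
  have ha0 : a ≠ 0 := by
    intro h
    exact hmem (Ideal.Quotient.eq_zero_iff_mem.1 h)
  set B := Localization.Away a with hB
  have hle : Submonoid.powers a ≤ nonZeroDivisors S :=
    powers_le_nonZeroDivisors_of_noZeroDivisors ha0
  haveI : IsDomain B := IsLocalization.isDomain_localization hle
  haveI : Algebra.FiniteType k S :=
    Algebra.FiniteType.of_surjective (Ideal.Quotient.mkₐ k (coneIdeal Y))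
      (Ideal.Quotient.mkₐ_surjective k _)
  have hft : Algebra.FiniteType k B := inferInstance
  let al : MvPolynomial (Fin (n + 1)) k →ₐ[k] B :=
    (IsScalarTower.toAlgHom k S B).comp (Ideal.Quotient.mkₐ k (coneIdeal Y))
  have hal : ∀ Q, al Q = 0 ↔ Q ∈ coneIdeal Y := by
    intro Q
    have h1 : al Q = algebraMap S B (Ideal.Quotient.mk _ Q) := rfl
    rw [h1]
    rw [← Ideal.Quotient.eq_zero_iff_mem]
    constructor
    · intro h
      exact (IsLocalization.injective B hle) (by rw [h, map_zero])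
    · intro h
      rw [h, map_zero]
  let u : B := IsLocalization.Away.invSelf a
  have hu : al (X i0) * al (F j0) * u = 1 := by
    rw [← map_mul]
    exact IsLocalization.Away.mul_invSelf a
  have hu0 : u ≠ 0 := right_ne_zero_of_mul_eq_one hu
  -- the map to `W`
  let φS : S →ₐ[k] W := Ideal.Quotient.liftₐ (coneIdeal Y) (aeval y) hy
  have hφS : IsUnit (φS a) := by
    rw [isUnit_iff_ne_zero]
    show aeval y (X i0 * F j0) ≠ 0
    rw [map_mul, aeval_X]
    exact mul_ne_zero hi0 hF0
  let φ : B →ₐ[k] W :=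
    { IsLocalization.Away.lift (S := B) a (g := (φS : S →+* W)) hφS with
      commutes' := fun r => by
        have h1 : algebraMap k B r = algebraMap S B (algebraMap k S r) :=
          IsScalarTower.algebraMap_apply k S B r
        show IsLocalization.Away.lift (S := B) a (g := (φS : S →+* W)) hφS (algebraMap k B r) = _
        rw [h1, IsLocalization.Away.lift_eq]
        exact φS.commutes r }
  have hφal : ∀ Q, φ (al Q) = aeval y Q := by
    intro Q
    show IsLocalization.Away.lift (S := B) a (g := (φS : S →+* W)) hφS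
      (algebraMap S B (Ideal.Quotient.mk _ Q)) = _
    rw [IsLocalization.Away.lift_eq]
    rfl
  have hφu : φ u = (y i0 * aeval y (F j0))⁻¹ := by
    have h1 := congrArg φ hu
    rw [map_mul, map_mul, hφal, hφal, map_one, aeval_X] at h1
    exact eq_inv_of_mul_eq_one_right h1
  let ξ : Fin 3 → B := fun i => al (F (rr i)) * al (X i0) * u
  let z : Fin (n + 1) → B := fun i => al (X i) * al (F j0) * u
  have hφξ : (fun i => φ (ξ i)) = fun i => aeval y (F (rr i)) / aeval y (F j0) := by
    funext i
    show φ (al (F (rr i)) * al (X i0) * u) = _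
    rw [map_mul, map_mul, hφal, hφal, hφu, aeval_X]
    field_simp
  have hφz : ∀ i, φ (z i) = y i / y i0 := by
    intro i
    show φ (al (X i) * al (F j0) * u) = _
    rw [map_mul, map_mul, hφal, hφal, hφu, aeval_X]
    field_simp
  have hindξ : AlgebraicIndependent k ξ := by
    apply AlgebraicIndependent.of_comp φ
    have h1 : (φ ∘ ξ) = fun i => aeval y (F (rr i)) / aeval y (F j0) := hφξ
    rw [h1]
    exact hind
  -- points
  have hpt : ∀ (χ : B →ₐ[k] k) Q, eval (fun i => χ (al (X i))) Q = χ (al Q) := by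
    intro χ Q
    have h : (aeval (fun i => χ (al (X i))) : MvPolynomial (Fin (n + 1)) k →ₐ[k] k) =
        χ.comp al := by
      apply MvPolynomial.algHom_ext
      intro i
      rw [aeval_X]
      rfl
    have h2 := congrArg (fun φ : MvPolynomial (Fin (n + 1)) k →ₐ[k] k => φ Q) h
    rw [← aeval_eq_eval]
    exact h2
  -- the open set with finite fibres
  obtain ⟨U, hU, ⟨y0, hy0U, hy0Y⟩, hUfin⟩ := hfin
  obtain ⟨mU, PU, hPU, hPU0, hPUU⟩ := exists_basic hU hy0U
  set H : B := al (PU * P) with hHdef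
  have hH : H ≠ 0 := by
    intro h
    rcases hprime.mem_or_mem ((hal _).1 h) with h1 | h1
    · exact hPU0 (h1 y0 hy0Y _ (rep_rep y0))
    · exact hP0 (hy _ h1)
  have hpoint : ∀ χ : B →ₐ[k] k, χ H ≠ 0 → ∃ w : PP k (Fin (n + 1)),
      Rep w (fun i => χ (al (X i))) ∧ w ∈ U ∧ w ∈ Y ∧
      Rep (f w) (fun j => χ (al (F j))) := by
    intro χ hχ
    have h1 : χ (al (X i0)) ≠ 0 := by
      intro h
      have h2 := congrArg χ hu
      rw [map_mul, map_mul, h, zero_mul, zero_mul, map_one] at h2
      exact zero_ne_one h2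
    obtain ⟨w, hw⟩ := exists_rep (k := k) (v := fun i => χ (al (X i))) (by
      intro h
      exact h1 (congrFun h i0))
    have h2 : χ (al PU) ≠ 0 ∧ χ (al P) ≠ 0 := by
      rw [hHdef, map_mul, map_mul] at hχ
      exact ⟨left_ne_zero_of_mul hχ, right_ne_zero_of_mul hχ⟩
    have h3 : w ∈ Y := by
      apply mem_of_closed hYc hw
      intro l Q _ hQ
      rw [hpt, (hal Q).2 hQ, map_zero]
    refine ⟨w, hw, ?_, h3, ?_⟩
    · apply hPUU
      intro h
      apply h2.1
      rw [← hpt]
      exact (zero_iff hw hPU).2 h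
    · have h4 : eval w.rep P ≠ 0 := by
        intro h
        apply h2.2
        rw [← hpt]
        exact (zero_iff hw hP).2 h
      have h5 := (hw.eval_iff hF).1 (hrep w h3 h4)
      have h6 : (fun j => eval (fun i => χ (al (X i))) (F j)) = fun j => χ (al (F j)) := by
        funext j
        rw [hpt]
      rw [h6] at h5
      exact h5
  have hF0χ : ∀ χ : B →ₐ[k] k, χ (al (F j0)) ≠ 0 := by
    intro χ h
    have h2 := congrArg χ hu
    rw [map_mul, map_mul, h, mul_zero, zero_mul, map_one] at h2
    exact zero_ne_one h2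
  have hX0χ : ∀ χ : B →ₐ[k] k, χ (al (X i0)) ≠ 0 := by
    intro χ h
    have h2 := congrArg χ hu
    rw [map_mul, map_mul, h, zero_mul, zero_mul, map_one] at h2
    exact zero_ne_one h2
  have huχ : ∀ χ : B →ₐ[k] k, χ u = (χ (al (X i0)) * χ (al (F j0)))⁻¹ := by
    intro χ
    have h2 := congrArg χ hu
    rw [map_mul, map_mul, map_one] at h2
    exact eq_inv_of_mul_eq_one_right h2
  have hξχ : ∀ (χ : B →ₐ[k] k) i, χ (ξ i) = χ (al (F (rr i))) / χ (al (F j0)) := by
    intro χ i
    show χ (al (F (rr i)) * al (X i0) * u) = _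
    rw [map_mul, map_mul, huχ]
    have h1 := hF0χ χ
    have h2 := hX0χ χ
    field_simp
  have hzχ : ∀ (χ : B →ₐ[k] k) i, χ (z i) = χ (al (X i)) / χ (al (X i0)) := by
    intro χ i
    show χ (al (X i) * al (F j0) * u) = _
    rw [map_mul, map_mul, huχ]
    have h1 := hF0χ χ
    have h2 := hX0χ χ
    field_simp
  have halg : ∀ i, IsAlgebraic (Algebra.adjoin k (Set.range ξ)) (z i) := by
    intro i
    have h1 := alg_of_finite (k := k) hft ξ (z i) H hH (by
      intro χ0 hχ0
      obtain ⟨w0, hw0, hw0U, hw0Y, hfw0⟩ := hpoint χ0 hχ0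
      refine ((hUfin w0 ⟨hw0U, hw0Y⟩).image fun w => w.rep i / w.rep i0).subset ?_
      rintro s ⟨χ, hχ, hχξ, rfl⟩
      obtain ⟨w, hw, hwU, hwY, hfw⟩ := hpoint χ hχ
      refine ⟨w, ⟨⟨hwU, hwY⟩, ?_⟩, ?_⟩
      · have h2 := Xcone_coord (hfX hwY) hfw (hF0χ χ)
        have h3 := Xcone_coord (hfX hw0Y) hfw0 (hF0χ χ0)
        refine (hfw0.of_smul hfw (c := χ (al (F j0)) / χ0 (al (F j0)))
          (div_ne_zero (hF0χ χ) (hF0χ χ0)) ?_).symm
        funext j
        show χ (al (F j)) = χ (al (F j0)) / χ0 (al (F j0)) * χ0 (al (F j))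
        rw [h2 j, h3 j]
        have h4 : (fun i => χ (al (F (rr i))) / χ (al (F j0))) =
            fun i => χ0 (al (F (rr i))) / χ0 (al (F j0)) := by
          funext i
          rw [← hξχ, ← hξχ, hχξ]
        rw [h4, ← mul_assoc, div_mul_cancel₀ _ (hF0χ χ0)]
      · show w.rep i / w.rep i0 = χ (z i)
        rw [hzχ]
        obtain ⟨c, hc, hcw⟩ := (rep_rep w).exists_smul hw
        have h2 : χ (al (X i)) = c * w.rep i := congrFun hcw i
        have h3 : χ (al (X i0)) = c * w.rep i0 := congrFun hcw i0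
        rw [h2, h3, mul_div_mul_left _ _ hc])
    rw [hindξ.option_iff_transcendental] at h1
    unfold Transcendental at h1
    rw [not_not] at h1
    exact h1
  constructor
  · intro i
    have h1 := (alg_push φ ξ (by rw [hφξ]; exact hind) (z i) (halg i)).1
    rw [hφξ, hφz] at h1
    exact h1
  · intro l Q hQ hQ0
    rw [← hal]
    by_contra hne
    have h1 : al Q = al (X i0) ^ l * aeval z Q := by
      have h2 : al Q = aeval (fun i => al (X i0) * z i) Q := by
        have h3 : al = aeval (fun i => al (X i0) * z i) := by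
          apply MvPolynomial.algHom_ext
          intro i
          rw [aeval_X]
          show al (X i) = al (X i0) * (al (X i) * al (F j0) * u)
          calc al (X i) = al (X i) * (al (X i0) * al (F j0) * u) := by rw [hu, mul_one]
            _ = _ := by ring
        exact congrArg (fun φ : MvPolynomial (Fin (n + 1)) k →ₐ[k] B => φ Q) h3
      rw [h2, aeval_smul_homog hQ]
    have h2 : aeval z Q ≠ 0 := by
      intro h
      rw [h, mul_zero] at h1
      exact hne h1
    have h3 : IsAlgebraic (Algebra.adjoin k (Set.range ξ)) (aeval z Q) := by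
      rw [← Subalgebra.mem_algebraicClosure]
      clear h2 h1 hne hQ0 hQ
      induction Q using MvPolynomial.induction_on with
      | C r =>
        rw [aeval_C, IsScalarTower.algebraMap_apply k (Algebra.adjoin k (Set.range ξ)) B]
        exact Subalgebra.algebraMap_mem _ _
      | add p q hp hq => rw [map_add]; exact add_mem hp hq
      | mul_X p i hp =>
        rw [map_mul, aeval_X]
        exact mul_mem hp ((Subalgebra.mem_algebraicClosure _ _).2 (halg i))
    have h4 := (alg_push φ ξ (by rw [hφξ]; exact hind) _ h3).2 h2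
    apply h4
    have h5 := congrArg φ h1
    rw [hφal, hQ0, map_mul, map_pow, hφal, aeval_X] at h5
    rcases mul_eq_zero.1 h5.symm with h6 | h6
    · exact absurd (eq_zero_of_pow_eq_zero h6) hi0
    · exact h6

end

end Pool.Agent.Y166.GM
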