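import Mathlib
import Pool.Agent.Y166.GM.Curves

/-!
# The irreducible components of the space of curves on the cone
-/

set_option autoImplicit false
set_option linter.unusedSectionVars false
set_option linter.deprecated false

namespace Pool.Agent.Y166.GM

open Polynomial

section
variable {k : Type} [Field k]

/-- The parameters with given polynomials. -/
noncomputable def mkc {A : Type} [CommRing A] {e n d : ℕ} (a : Fin 3 → A[X]) (h w : A[X]) :
    Idx e n d → A
  | .inl (i, p) => (a i).coeff p
  | .inr (.inl l) => h.coeff l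
  | .inr (.inr r) => w.coeff r

theorem mkc_a {A : Type} [CommRing A] {e n d : ℕ} (a : Fin 3 → A[X]) (h w : A[X]) (i : Fin 3)
    (hi : (a i).natDegree ≤ e) : aP (mkc (e := e) (n := n) (d := d) a h w) i = a i :=
  pol_coeff_self _ hi

theorem mkc_h {A : Type} [CommRing A] {e n d : ℕ} (a : Fin 3 → A[X]) (h w : A[X])
    (hh : h.natDegree ≤ n) : hP (mkc (e := e) (n := n) (d := d) a h w) = h :=
  pol_coeff_self _ hh

theorem mkc_w {A : Type} [CommRing A] {e n d : ℕ} (a : Fin 3 → A[X]) (h w : A[X])
    (hw : w.natDegree ≤ d) : wP (mkc (e := e) (n := n) (d := d) a h w) = w :=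
  pol_coeff_self _ hw

/-- Every curve on the cone lies in a stratum. -/
theorem cover [IsAlgClosed k] {d : ℕ} (hd : 1 ≤ d) {γ : PP k (Tau × Fin (d + 1))}
    (hγ : γ ∈ Mor (Xcone k) d) : ∃ e, 2 * e ≤ d ∧ γ ∈ Mset k e d := by
  set g := γ.rep with hg
  have hnz : NoZero g := by
    intro s hs
    obtain ⟨z, _, hz⟩ := hγ s hs
    exact hz.ne_zero
  let Q : Fin 3 → Fin 3 → k[X] := fun i j => pol fun l => g (some (i, j), l)
  let w : k[X] := pol fun l => g (none, l)
  have hval : ∀ t : k, ∃ (μ : k) (x : Fin 3 → k) (y : k),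
      (∀ i j, (Q i j).eval t = μ * (x i * x j)) ∧ w.eval t = μ * y := by
    intro t
    have hs : (![t, 1] : Fin 2 → k) ≠ 0 := by
      intro h
      have := congrFun h 1
      simp at this
    obtain ⟨z, ⟨x, y, hxy⟩, hz⟩ := hγ _ hs
    obtain ⟨μ, _, hμ⟩ := hxy.exists_smul hz
    refine ⟨μ, x, y, fun i j => ?_, ?_⟩
    · have := congrFun hμ (some (i, j))
      rw [forms_aff _ _ (by simp)] at this
      simp at this
      exact this
    · have := congrFun hμ none
      rw [forms_aff _ _ (by simp)] at this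
      simp at this
      exact this
  haveI : Infinite k := IsAlgClosed.instInfinite
  have hs : ∀ i j, Q i j = Q j i := by
    intro i j
    apply Polynomial.funext
    intro t
    obtain ⟨μ, x, y, h1, _⟩ := hval t
    rw [h1, h1]
    ring
  have hr : ∀ i j l m, Q i j * Q l m = Q i m * Q l j := by
    intro i j l m
    apply Polynomial.funext
    intro t
    obtain ⟨μ, x, y, h1, _⟩ := hval t
    rw [Polynomial.eval_mul, Polynomial.eval_mul, h1, h1, h1, h1]
    ring
  have h0 : ∃ i j, Q i j ≠ 0 := by
    by_contra hcon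
    push Not at hcon
    have hw1 : ∀ t, w.eval t ≠ 0 := by
      intro t hwt
      apply hnz ![t, 1] (by
        intro h
        have := congrFun h 1
        simp at this)
      funext i
      rw [forms_aff _ _ (by simp)]
      rcases i with _ | ⟨i, j⟩
      · simpa using hwt
      · have : (pol fun l => g (some (i, j), l)) = 0 := hcon i j
        rw [this]
        simp
    have hdeg : w.degree = 0 := by
      by_contra h
      obtain ⟨t, ht⟩ := IsAlgClosed.exists_root w h
      exact hw1 t ht
    have hcoef : w.coeff d = 0 :=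
      Polynomial.coeff_eq_zero_of_degree_lt (by
        rw [hdeg]
        exact_mod_cast hd)
    apply hnz ![1, 0] (by
      intro h
      have := congrFun h 0
      simp at this)
    funext i
    rw [forms_inf _ _ (by simp)]
    rcases i with _ | ⟨i, j⟩
    · have : w.coeff d = g (none, Fin.last d) := pol_coeff (fun l => g (none, l)) (Fin.last d)
      rw [← this, hcoef, zero_mul]
      rfl
    · have h1 : (Q i j).coeff d = g (some (i, j), Fin.last d) :=
        pol_coeff (fun l => g (some (i, j), l)) (Fin.last d)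
      rw [← h1, hcon i j, Polynomial.coeff_zero, zero_mul]
      rfl
  obtain ⟨e, h, a, he, hae, hhd, hQ⟩ := decomp Q hs hr d (fun i j => pol_natDegree _) h0
  have hPhi : Phi (mkc (e := e) (n := d - 2 * e) (d := d) a h w) = g := by
    funext x
    rcases x with ⟨_ | ⟨i, j⟩, l⟩
    · rw [Phi_none, mkc_w _ _ _ (pol_natDegree _)]
      exact pol_coeff (fun l => g (none, l)) l
    · rw [Phi_some, mkc_h _ _ _ hhd, mkc_a _ _ _ _ (hae i), mkc_a _ _ _ _ (hae j), ← hQ]
      exact pol_coeff (fun l => g (some (i, j), l)) l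
  refine ⟨e, he, mkc a h w, ?_, ?_⟩
  · rw [hPhi]
    exact rep_rep γ
  · rw [hPhi]
    exact hnz

/-- The polynomial of a row of coefficients, as a linear map. -/
noncomputable def polL {d : ℕ} (i : Tau) : (Tau × Fin (d + 1) → k) →ₗ[k] k[X] where
  toFun v := pol fun l => v (i, l)
  map_add' v w := pol_add _ _
  map_smul' a v := by
    rw [RingHom.id_apply, Polynomial.smul_eq_C_mul]
    exact pol_smul _ _

/-- The linear map `(A, B) ↦ A F + B G`. -/
noncomputable def pairMap {κ : Type} (F G : (κ → k) →ₗ[k] k[X]) (p q : ℕ) :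
    (κ → k) →ₗ[k] (Fin (p + 1) ⊕ Fin (q + 1) → k) →ₗ[k] k[X] :=
  LinearMap.mk₂ k (fun v x => pol (fun j => x (.inl j)) * F v + pol (fun j => x (.inr j)) * G v)
    (fun v w x => by rw [map_add, map_add]; ring)
    (fun a v x => by
      rw [map_smul, map_smul, Polynomial.smul_eq_C_mul, Polynomial.smul_eq_C_mul,
        Polynomial.smul_eq_C_mul]
      ring)
    (fun v x y => by
      have h1 : pol (fun j => (x + y) (Sum.inl j)) = pol (fun j : Fin (p + 1) => x (.inl j)) +
        pol (fun j => y (.inl j)) := pol_add _ _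
      have h2 : pol (fun j => (x + y) (Sum.inr j)) = pol (fun j : Fin (q + 1) => x (.inr j)) +
        pol (fun j => y (.inr j)) := pol_add _ _
      rw [h1, h2]
      ring)
    (fun a v x => by
      have h1 : pol (fun j => (a • x) (Sum.inl j)) = C a * pol (fun j : Fin (p + 1) => x (.inl j)) :=
        pol_smul _ _
      have h2 : pol (fun j => (a • x) (Sum.inr j)) = C a * pol (fun j : Fin (q + 1) => x (.inr j)) :=
        pol_smul _ _
      rw [h1, h2, Polynomial.smul_eq_C_mul]
      ring)

theorem sepPair {κ : Type} [Fintype κ] [DecidableEq κ] (F G : (κ → k) →ₗ[k] k[X]) (p q : ℕ)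
    (v0 : κ → k)
    (h0 : ∀ A B : k[X], A.natDegree ≤ p → B.natDegree ≤ q → A * F v0 + B * G v0 = 0 →
      A = 0 ∧ B = 0) :
    ∃ (m : ℕ) (P : MvPolynomial κ k), P.IsHomogeneous m ∧ MvPolynomial.eval v0 P ≠ 0 ∧
      ∀ v, (∃ A B : k[X], A.natDegree ≤ p ∧ B.natDegree ≤ q ∧ (A ≠ 0 ∨ B ≠ 0) ∧
        A * F v + B * G v = 0) → MvPolynomial.eval v P = 0 := by
  obtain ⟨m, P, hP, h1, h2⟩ := sep (pairMap F G p q) v0 (by
    rw [injective_iff_map_eq_zero]
    intro x hx
    obtain ⟨hA, hB⟩ := h0 (pol fun j => x (.inl j)) (pol fun j => x (.inr j)) (pol_natDegree _)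
      (pol_natDegree _) hx
    funext i
    rcases i with j | j
    · have := pol_coeff (fun j => x (.inl j)) j
      rw [hA, Polynomial.coeff_zero] at this
      exact this.symm
    · have := pol_coeff (fun j => x (.inr j)) j
      rw [hB, Polynomial.coeff_zero] at this
      exact this.symm)
  refine ⟨m, P, hP, h1, fun v hv => h2 v ?_⟩
  obtain ⟨A, B, hA, hB, hne, hAB⟩ := hv
  refine ⟨Sum.elim (fun j => A.coeff j) (fun j => B.coeff j), ?_, ?_⟩
  · intro h
    rcases hne with h3 | h3
    · apply h3
      rw [← pol_coeff_self A hA]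
      have : (fun l : Fin (p + 1) => A.coeff l) = fun _ => 0 := by
        funext l
        exact congrFun h (.inl l)
      rw [this, pol_zero]
    · apply h3
      rw [← pol_coeff_self B hB]
      have : (fun l : Fin (q + 1) => B.coeff l) = fun _ => 0 := by
        funext l
        exact congrFun h (.inr l)
      rw [this, pol_zero]
  · show pol (fun j : Fin (p + 1) => A.coeff j) * F v + pol (fun j : Fin (q + 1) => B.coeff j) * G v
      = 0
    rw [pol_coeff_self A hA, pol_coeff_self B hB]
    exact hAB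

theorem aux_inj (p m : ℕ) (hp : p < m) (A B : k[X]) (hA : A.natDegree ≤ p)
    (h : A * 1 + B * X ^ m = 0) : A = 0 ∧ B = 0 := by
  rw [mul_one] at h
  have hB : B = 0 := by
    by_contra hB
    have h1 : A = - (B * X ^ m) := eq_neg_of_add_eq_zero_left h
    have h2 : (B * X ^ m).natDegree = B.natDegree + m := Polynomial.natDegree_mul_X_pow m hB
    rw [h1, Polynomial.natDegree_neg, h2] at hA
    omega
  rw [hB, zero_mul, add_zero] at h
  exact ⟨h, hB⟩

/-- The standard curve. -/
noncomputable def cstd (k : Type) [Field k] (e n d : ℕ) : Idx e n d → k :=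
  mkc ![1, X ^ e, 0] 1 (X ^ d)

theorem cstd_a0 (e n d : ℕ) : aP (cstd k e n d) 0 = 1 := by
  unfold cstd
  rw [mkc_a]
  · rfl
  · show (1 : k[X]).natDegree ≤ e
    rw [Polynomial.natDegree_one]
    exact Nat.zero_le _

theorem cstd_a1 (e n d : ℕ) : aP (cstd k e n d) 1 = X ^ e := by
  unfold cstd
  rw [mkc_a]
  · rfl
  · show (X ^ e : k[X]).natDegree ≤ e
    rw [Polynomial.natDegree_X_pow]

theorem cstd_h (e n d : ℕ) : hP (cstd k e n d) = 1 := by
  unfold cstd
  rw [mkc_h]
  rw [Polynomial.natDegree_one]
  exact Nat.zero_le _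

theorem cstd_w (e n d : ℕ) : wP (cstd k e n d) = X ^ d := by
  unfold cstd
  rw [mkc_w]
  rw [Polynomial.natDegree_X_pow]

/-- The condition that there is no common zero is implied by an open condition. -/
theorem noZero_open {d e n : ℕ} (hd : 1 ≤ d) (he : n + 2 * e = d) :
    ∃ P : MvPolynomial (Tau × Fin (d + 1)) k,
      MvPolynomial.eval (Phi (cstd k e n d)) P ≠ 0 ∧
      ∀ v, MvPolynomial.eval v P ≠ 0 → NoZero v := by
  obtain ⟨m, P, _, h1, h2⟩ := sepPair (k := k) (polL (d := d) (some (0, 0))) (polL (d := d) none)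
    (d - 1) (d - 1) (Phi (cstd k e n d)) (by
      intro A B hA _ h
      have e1 : polL (some (0, 0)) (Phi (cstd k e n d)) = 1 := by
        show pol _ = 1
        rw [pol_Phi_some he.le, cstd_h, cstd_a0]
        ring
      have e2 : polL none (Phi (cstd k e n d)) = X ^ d := by
        show pol _ = X ^ d
        rw [pol_Phi_none, cstd_w]
      rw [e1, e2] at h
      exact aux_inj (d - 1) d (by omega) A B hA h)
  refine ⟨P, h1, fun v hv s hs h0 => hv (h2 v ?_)⟩
  set F : k[X] := polL (some (0, 0)) v with hF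
  set G : k[X] := polL none v with hG
  by_cases hFG : F = 0 ∧ G = 0
  · refine ⟨1, 0, ?_, ?_, Or.inl one_ne_zero, ?_⟩
    · rw [Polynomial.natDegree_one]; exact Nat.zero_le _
    · rw [Polynomial.natDegree_zero]; exact Nat.zero_le _
    · rw [hFG.1, hFG.2]; ring
  have hFG' : G ≠ 0 ∨ -F ≠ 0 := by
    by_contra hcon
    push Not at hcon
    exact hFG ⟨neg_eq_zero.1 hcon.2, hcon.1⟩
  have hFd : F.natDegree ≤ d := pol_natDegree _
  have hGd : G.natDegree ≤ d := pol_natDegree _
  by_cases hs1 : s 1 = 0
  · have hs0 : s 0 ≠ 0 := by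
      intro h
      apply hs
      funext i
      fin_cases i
      · exact h
      · exact hs1
    have hcoef : ∀ i : Tau, (pol fun l => v (i, l)).natDegree ≤ d - 1 := by
      intro i
      have e1 := congrFun h0 i
      rw [forms_inf _ _ hs1] at e1
      have e2 : v (i, Fin.last d) = 0 := by
        rcases mul_eq_zero.1 e1 with h | h
        · exact h
        · exact absurd (eq_zero_of_pow_eq_zero h) hs0
      have e3 : (pol fun l => v (i, l)).coeff d = 0 := by
        have := pol_coeff (fun l => v (i, l)) (Fin.last d)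
        rw [Fin.val_last] at this
        rw [this]
        exact e2
      have e4 : (pol fun l => v (i, l)).natDegree ≤ d := pol_natDegree _
      by_contra hcon
      have e5 : (pol fun l => v (i, l)).natDegree = d := by omega
      have e6 : (pol fun l => v (i, l)) ≠ 0 := by
        intro h
        rw [h, Polynomial.natDegree_zero] at e5
        omega
      apply e6
      rw [← Polynomial.leadingCoeff_eq_zero, Polynomial.leadingCoeff, e5]
      exact e3
    refine ⟨G, -F, hcoef _, ?_, hFG', by ring⟩
    rw [Polynomial.natDegree_neg]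
    exact hcoef _
  · set t := s 0 / s 1 with ht
    have hroot : ∀ i : Tau, (pol fun l => v (i, l)).eval t = 0 := by
      intro i
      have e1 := congrFun h0 i
      rw [forms_aff _ _ hs1] at e1
      rcases mul_eq_zero.1 e1 with h | h
      · exact absurd (eq_zero_of_pow_eq_zero h) hs1
      · exact h
    obtain ⟨F1, hF1⟩ := Polynomial.dvd_iff_isRoot.2 (hroot (some (0, 0)))
    obtain ⟨G1, hG1⟩ := Polynomial.dvd_iff_isRoot.2 (hroot none)
    have hF1' : F = (X - C t) * F1 := hF1
    have hG1' : G = (X - C t) * G1 := hG1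
    have hdeg : ∀ H H1 : k[X], H.natDegree ≤ d → H = (X - C t) * H1 → H1.natDegree ≤ d - 1 := by
      intro H H1 hH h
      by_cases h1 : H1 = 0
      · rw [h1, Polynomial.natDegree_zero]; exact Nat.zero_le _
      · rw [h, Polynomial.natDegree_mul (Polynomial.X_sub_C_ne_zero t) h1,
          Polynomial.natDegree_X_sub_C] at hH
        omega
    refine ⟨G1, -F1, hdeg G G1 hGd hG1', ?_, ?_, ?_⟩
    · rw [Polynomial.natDegree_neg]
      exact hdeg F F1 hFd hF1'
    · rcases hFG' with h | h
      · left
        intro h3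
        apply h
        rw [hG1', h3, mul_zero]
      · right
        intro h3
        apply h
        rw [neg_eq_zero] at h3
        rw [hF1', h3, mul_zero, neg_zero]
    · rw [hF1', hG1']
      ring

theorem Phi_map {A B : Type} [CommRing A] [CommRing B] (f : A →+* B) {e n d : ℕ}
    (c : Idx e n d → A) (x : Tau × Fin (d + 1)) : f (Phi c x) = Phi (fun i => f (c i)) x := by
  rcases x with ⟨_ | ⟨i, j⟩, l⟩
  · rw [Phi_none, Phi_none]
    unfold wP
    rw [← Polynomial.coeff_map, pol_map]
  · rw [Phi_some, Phi_some]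
    unfold hP aP
    rw [← Polynomial.coeff_map, Polynomial.map_mul, Polynomial.map_mul, pol_map, pol_map, pol_map]

/-- The pullback of a polynomial under the parametrisation. -/
noncomputable def pull {e n d : ℕ} (P : MvPolynomial (Tau × Fin (d + 1)) k) :
    MvPolynomial (Idx e n d) k :=
  MvPolynomial.aeval (Phi (MvPolynomial.X : Idx e n d → MvPolynomial (Idx e n d) k)) P

theorem aeval_pull {A : Type} [CommRing A] [Algebra k A] {e n d : ℕ}
    (P : MvPolynomial (Tau × Fin (d + 1)) k) (c : Idx e n d → A) :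
    MvPolynomial.aeval c (pull P) = MvPolynomial.aeval (Phi c) P := by
  unfold pull
  have h1 : (MvPolynomial.aeval c : MvPolynomial (Idx e n d) k →ₐ[k] A).comp
      (MvPolynomial.aeval (Phi (MvPolynomial.X : Idx e n d → MvPolynomial (Idx e n d) k))) =
      MvPolynomial.aeval (Phi c) := by
    apply MvPolynomial.algHom_ext
    intro x
    rw [AlgHom.comp_apply, MvPolynomial.aeval_X, MvPolynomial.aeval_X]
    have := Phi_map (MvPolynomial.aeval c : MvPolynomial (Idx e n d) k →ₐ[k] A).toRingHom
      (MvPolynomial.X : Idx e n d → MvPolynomial (Idx e n d) k) x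
    refine Eq.trans this ?_
    congr 1
    funext i
    exact MvPolynomial.aeval_X _ _
  rw [← h1]
  rfl

theorem eval_pull {e n d : ℕ} (P : MvPolynomial (Tau × Fin (d + 1)) k) (c : Idx e n d → k) :
    MvPolynomial.eval c (pull P) = MvPolynomial.eval (Phi c) P := by
  have := aeval_pull (A := k) P c
  rw [MvPolynomial.aeval_eq_eval, MvPolynomial.aeval_eq_eval] at this
  exact this

/-- Finitely many nonvanishing conditions on a stratum can be realised simultaneously. -/
theorem exists_param [Infinite k] {e n d : ℕ} (Rs : Finset (MvPolynomial (Idx e n d) k))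
    (h : ∀ R ∈ Rs, R ≠ 0) : ∃ c : Idx e n d → k, ∀ R ∈ Rs, MvPolynomial.eval c R ≠ 0 := by
  have h1 : ∏ R ∈ Rs, R ≠ 0 := Finset.prod_ne_zero_iff.2 h
  have h2 : ∃ c : Idx e n d → k, MvPolynomial.eval c (∏ R ∈ Rs, R) ≠ 0 := by
    by_contra hcon
    push Not at hcon
    apply h1
    apply MvPolynomial.funext
    intro c
    rw [hcon, map_zero]
  obtain ⟨c, hc⟩ := h2
  rw [map_prod] at hc
  exact ⟨c, fun R hR => Finset.prod_ne_zero_iff.1 hc R hR⟩

theorem Mset_irreducible [IsAlgClosed k] {e d : ℕ} (hd : 1 ≤ d) (he : 2 * e ≤ d) :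
    IsIrreducible (Mset k e d) := by
  classical
  haveI : Infinite k := IsAlgClosed.instInfinite
  obtain ⟨P0, hP0, hP0'⟩ := noZero_open (k := k) (d := d) (e := e) (n := d - 2 * e) hd (by omega)
  have hP0ne : (pull P0 : MvPolynomial (Idx e (d - 2 * e) d) k) ≠ 0 := by
    intro h
    apply hP0
    rw [← eval_pull, h, map_zero]
  refine ⟨?_, ?_⟩
  · have h1 := hP0' _ hP0
    obtain ⟨γ, hγ⟩ := exists_rep h1.ne_zero
    exact ⟨γ, _, hγ, h1⟩
  · apply isPreirreducible_of
    rintro m n P Q hP hQ ⟨p, ⟨c1, hc1, _⟩, hp⟩ ⟨q, ⟨c2, hc2, _⟩, hq⟩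
    have hP1 : (pull P : MvPolynomial (Idx e (d - 2 * e) d) k) ≠ 0 := by
      intro h
      apply hp
      rw [← zero_iff hc1 hP, ← eval_pull, h, map_zero]
    have hQ1 : (pull Q : MvPolynomial (Idx e (d - 2 * e) d) k) ≠ 0 := by
      intro h
      apply hq
      rw [← zero_iff hc2 hQ, ← eval_pull, h, map_zero]
    obtain ⟨c, hc⟩ := exists_param ({pull P0, pull P, pull Q} : Finset _) (by
      intro R hR
      simp only [Finset.mem_insert, Finset.mem_singleton] at hR
      rcases hR with rfl | rfl | rfl
      · exact hP0ne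
      · exact hP1
      · exact hQ1)
    have h0 : NoZero (Phi c) := by
      apply hP0'
      rw [← eval_pull]
      exact hc _ (by simp)
    obtain ⟨γ, hγ⟩ := exists_rep h0.ne_zero
    refine ⟨γ, ⟨c, hγ, h0⟩, ?_, ?_⟩
    · rw [Ne, ← zero_iff hγ hP, ← eval_pull]
      exact hc _ (by simp)
    · rw [Ne, ← zero_iff hγ hQ, ← eval_pull]
      exact hc _ (by simp)

end

end Pool.Agent.Y166.GM
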