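import Mathlib
import Pool.Agent.Y166.GM.Spec
import Pool.Agent.Y166.GM.Core2
import Pool.Agent.Y166.GM.Strata
import Pool.Agent.Y166.GM.FinalB

/-!
# Lifting the generic curve
-/

set_option autoImplicit false
set_option linter.unusedSectionVars false
set_option linter.deprecated false
set_option linter.style.haveILetI false

namespace Pool.Agent.Y166.GM

open MvPolynomial

/-- If the pairs `(g, h)` of a family have dense image under the second projection in a variety with
generic point `φ`, then there is a generic pair over the generic point. -/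
theorem exists_lift {k W κ lam : Type} [Field k] [IsAlgClosed k] [Field W] [IsAlgClosed W]
    [Algebra k W] [Finite κ] [Finite lam] (Γ : Set ((κ → k) × (lam → k)))
    (φ : MvPolynomial lam k →ₐ[k] W) (H : MvPolynomial κ k)
    (hdens : ∀ Q : MvPolynomial lam k, φ Q = 0 ↔
      ∀ p ∈ Γ, eval p.1 H ≠ 0 → eval p.2 Q = 0) :
    ∃ g : κ → W, aeval g H ≠ 0 ∧
      (∀ P : MvPolynomial (κ ⊕ lam) k,
        (∀ p ∈ Γ, eval p.1 H ≠ 0 → eval (Sum.elim p.1 p.2) P = 0) →
        aeval (Sum.elim g (fun j => φ (X j))) P = 0) ∧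
      ∀ i, ∃ q : Polynomial (MvPolynomial lam k), q.map (φ : MvPolynomial lam k →+* W) ≠ 0 ∧
        q.eval₂ (φ : MvPolynomial lam k →+* W) (g i) = 0 := by
  classical
  let J : Ideal (MvPolynomial (κ ⊕ lam) k) :=
    { carrier := {P | ∀ p ∈ Γ, eval p.1 H ≠ 0 → eval (Sum.elim p.1 p.2) P = 0}
      add_mem' := by
        intro P Q hP hQ p hp h
        rw [map_add, hP p hp h, hQ p hp h, add_zero]
      zero_mem' := fun p _ _ => map_zero _
      smul_mem' := by
        intro P Q hQ p hp h
        rw [smul_eq_mul, map_mul, hQ p hp h, mul_zero] }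
  have hJ : ∀ P, P ∈ J ↔ ∀ p ∈ Γ, eval p.1 H ≠ 0 → eval (Sum.elim p.1 p.2) P = 0 :=
    fun P => Iff.rfl
  let T : Submonoid (MvPolynomial (κ ⊕ lam) k) :=
    { carrier := {s | ∃ (Q : MvPolynomial lam k) (r : ℕ), φ Q ≠ 0 ∧
        s = rename Sum.inr Q * (rename Sum.inl H) ^ r}
      one_mem' := ⟨1, 0, by rw [map_one]; exact one_ne_zero, by rw [map_one, pow_zero, one_mul]⟩
      mul_mem' := by
        rintro _ _ ⟨Q, r, hQ, rfl⟩ ⟨Q', r', hQ', rfl⟩
        refine ⟨Q * Q', r + r', ?_, ?_⟩
        · rw [map_mul]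
          exact mul_ne_zero hQ hQ'
        · rw [map_mul, pow_add]
          ring }
  have hT : ∀ s, s ∈ T ↔ ∃ (Q : MvPolynomial lam k) (r : ℕ), φ Q ≠ 0 ∧
        s = rename Sum.inr Q * (rename Sum.inl H) ^ r := fun s => Iff.rfl
  have hinl : ∀ (p : (κ → k) × (lam → k)) (P : MvPolynomial κ k),
      eval (Sum.elim p.1 p.2) (rename Sum.inl P) = eval p.1 P := by
    intro p P
    rw [eval_rename, Sum.elim_comp_inl]
  have hinr : ∀ (p : (κ → k) × (lam → k)) (P : MvPolynomial lam k),
      eval (Sum.elim p.1 p.2) (rename Sum.inr P) = eval p.2 P := by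
    intro p P
    rw [eval_rename, Sum.elim_comp_inr]
  have hdisj : Disjoint (J : Set (MvPolynomial (κ ⊕ lam) k)) T := by
    rw [Set.disjoint_left]
    rintro s hs hs'
    obtain ⟨Q, r, hQ, rfl⟩ := (hT s).1 hs'
    apply hQ
    rw [hdens]
    intro p hp hH
    have h1 := (hJ _).1 hs p hp hH
    rw [map_mul, map_pow, hinl, hinr] at h1
    rcases mul_eq_zero.1 h1 with h2 | h2
    · exact h2
    · exact absurd (eq_zero_of_pow_eq_zero h2) hH
  obtain ⟨𝔓, h𝔓, hJ𝔓, h𝔓T⟩ := Ideal.exists_le_prime_disjoint J T hdisj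
  haveI : IsDomain (MvPolynomial (κ ⊕ lam) k ⧸ 𝔓) := Ideal.Quotient.isDomain _
  let f : MvPolynomial lam k →+* MvPolynomial (κ ⊕ lam) k ⧸ 𝔓 :=
    (Ideal.Quotient.mk 𝔓).comp (rename Sum.inr : MvPolynomial lam k →ₐ[k] _).toRingHom
  have hfft : f.FiniteType := by
    apply RingHom.FiniteType.of_comp_finiteType (f := algebraMap k (MvPolynomial lam k))
    have h1 : f.comp (algebraMap k (MvPolynomial lam k)) =
        algebraMap k (MvPolynomial (κ ⊕ lam) k ⧸ 𝔓) := by
      ext a
      show Ideal.Quotient.mk 𝔓 ((rename Sum.inr : MvPolynomial lam k →ₐ[k] _)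
        (algebraMap k _ a)) = _
      rw [AlgHom.commutes]
      rfl
    rw [h1, RingHom.finiteType_algebraMap]
    exact Algebra.FiniteType.of_surjective (Ideal.Quotient.mkₐ k 𝔓)
      (Ideal.Quotient.mkₐ_surjective k _)
  have hker : RingHom.ker (φ : MvPolynomial lam k →+* W) = RingHom.ker f := by
    ext Q
    rw [RingHom.mem_ker, RingHom.mem_ker]
    show φ Q = 0 ↔ Ideal.Quotient.mk 𝔓 (rename Sum.inr Q) = 0
    rw [Ideal.Quotient.eq_zero_iff_mem]
    constructor
    · intro h
      apply hJ𝔓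
      rw [hJ]
      intro p hp hH
      rw [hinr]
      exact (hdens Q).1 h p hp hH
    · intro h
      by_contra hne
      exact Set.disjoint_left.1 h𝔓T h ((hT _).2 ⟨Q, 0, hne, by rw [pow_zero, mul_one]⟩)
  have hH0 : Ideal.Quotient.mk 𝔓 (rename Sum.inl H) ≠ 0 := by
    rw [Ne, Ideal.Quotient.eq_zero_iff_mem]
    intro h
    exact Set.disjoint_left.1 h𝔓T h ((hT _).2 ⟨1, 1, by
      rw [map_one]; exact one_ne_zero, by rw [map_one, pow_one, one_mul]⟩)
  obtain ⟨χ, hχ, hχH, hχalg⟩ := exists_spec f hfft (φ : MvPolynomial lam k →+* W) hker _ hH0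
  have hχf : ∀ Q, χ (Ideal.Quotient.mk 𝔓 (rename Sum.inr Q)) = φ Q := fun Q =>
    congrArg (fun ψ : MvPolynomial lam k →+* W => ψ Q) hχ
  have hall : ∀ P : MvPolynomial (κ ⊕ lam) k,
      aeval (Sum.elim (fun i => χ (Ideal.Quotient.mk 𝔓 (X (Sum.inl i)))) (fun j => φ (X j))) P =
      χ (Ideal.Quotient.mk 𝔓 P) := by
    intro P
    have h : (aeval (Sum.elim (fun i => χ (Ideal.Quotient.mk 𝔓 (X (Sum.inl i))))
        (fun j => φ (X j))) : MvPolynomial (κ ⊕ lam) k →ₐ[k] W).toRingHom =
        χ.comp (Ideal.Quotient.mk 𝔓) := by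
      apply MvPolynomial.ringHom_ext
      · intro r
        have h1 := hχf (C r)
        rw [rename_C] at h1
        show aeval _ (C r) = χ (Ideal.Quotient.mk 𝔓 (C r))
        rw [h1, aeval_C]
        exact (φ.commutes r).symm
      · rintro (i | j)
        · exact aeval_X _ _
        · have h1 := hχf (X j)
          rw [rename_X] at h1
          show aeval _ (X (Sum.inr j)) = χ (Ideal.Quotient.mk 𝔓 (X (Sum.inr j)))
          rw [h1, aeval_X]
          rfl
    exact congrArg (fun ψ : MvPolynomial (κ ⊕ lam) k →+* W => ψ P) h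
  refine ⟨fun i => χ (Ideal.Quotient.mk 𝔓 (X (Sum.inl i))), ?_, ?_, ?_⟩
  · have h1 := hall (rename Sum.inl H)
    rw [aeval_rename, Sum.elim_comp_inl] at h1
    rw [h1]
    exact hχH
  · intro P hP
    rw [hall P, Ideal.Quotient.eq_zero_iff_mem.2 (hJ𝔓 ((hJ P).2 hP)), map_zero]
  · intro i
    exact hχalg _

section
variable {k : Type} [Field k]

/-- The value of a polynomial along a curve. -/
noncomputable def alongL {σ : Type} {e : ℕ} (G : MvPolynomial σ k) :
    Polynomial (MvPolynomial (σ × Fin (e + 1)) k) :=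
  aeval (fun i => pol (fun l => X (i, l))) G

theorem alongL_eval {σ : Type} {e : ℕ} {B : Type} [CommRing B] [Algebra k B]
    (g : σ × Fin (e + 1) → B) (t : B) (G : MvPolynomial σ k) :
    ((alongL G).map (aeval g : MvPolynomial (σ × Fin (e + 1)) k →ₐ[k] B).toRingHom).eval t =
      aeval (fun i => (pol fun l => g (i, l)).eval t) G := by
  have h : ((Polynomial.evalRingHom t).comp
      (Polynomial.mapRingHom (aeval g : MvPolynomial (σ × Fin (e + 1)) k →ₐ[k] B).toRingHom)).comp
      (aeval (fun i => pol (fun l => X (i, l))) : MvPolynomial σ k →ₐ[k]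
        Polynomial (MvPolynomial (σ × Fin (e + 1)) k)).toRingHom =
      (aeval (fun i => (pol fun l => g (i, l)).eval t) : MvPolynomial σ k →ₐ[k] B).toRingHom := by
    apply MvPolynomial.ringHom_ext
    · intro r
      show (((aeval (fun i => pol (fun l => X (i, l))) : MvPolynomial σ k →ₐ[k]
        Polynomial (MvPolynomial (σ × Fin (e + 1)) k)) (C r)).map _).eval t = aeval _ (C r)
      rw [aeval_C, aeval_C, Polynomial.algebraMap_apply, Polynomial.map_C, Polynomial.eval_C]
      exact aeval_C _ _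
    · intro i
      show (((aeval (fun i => pol (fun l => X (i, l))) : MvPolynomial σ k →ₐ[k]
        Polynomial (MvPolynomial (σ × Fin (e + 1)) k)) (X i)).map _).eval t = aeval _ (X i)
      rw [aeval_X, aeval_X, pol_map]
      congr 2
      funext l
      exact aeval_X _ _
  exact congrArg (fun ψ : MvPolynomial σ k →+* B => ψ G) h

/-- The value of a polynomial along a pair of curves. -/
noncomputable def alongP {σ τ : Type} {e d : ℕ} (G : MvPolynomial (σ ⊕ τ) k) :
    Polynomial (MvPolynomial ((σ × Fin (e + 1)) ⊕ (τ × Fin (d + 1))) k) :=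
  aeval (Sum.elim (fun i => pol (fun l => X (Sum.inl (i, l))))
    (fun j => pol (fun l => X (Sum.inr (j, l))))) G

theorem alongP_eval {σ τ : Type} {e d : ℕ} {B : Type} [CommRing B] [Algebra k B]
    (g : σ × Fin (e + 1) → B) (h : τ × Fin (d + 1) → B) (t : B) (G : MvPolynomial (σ ⊕ τ) k) :
    ((alongP G).map (aeval (Sum.elim g h) :
      MvPolynomial ((σ × Fin (e + 1)) ⊕ (τ × Fin (d + 1))) k →ₐ[k] B).toRingHom).eval t =
      aeval (Sum.elim (fun i => (pol fun l => g (i, l)).eval t)
        (fun j => (pol fun l => h (j, l)).eval t)) G := by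
  have hh : ((Polynomial.evalRingHom t).comp
      (Polynomial.mapRingHom (aeval (Sum.elim g h) :
        MvPolynomial ((σ × Fin (e + 1)) ⊕ (τ × Fin (d + 1))) k →ₐ[k] B).toRingHom)).comp
      (aeval (Sum.elim (fun i => pol (fun l => X (Sum.inl (i, l))))
        (fun j => pol (fun l => X (Sum.inr (j, l))))) : MvPolynomial (σ ⊕ τ) k →ₐ[k]
        Polynomial (MvPolynomial ((σ × Fin (e + 1)) ⊕ (τ × Fin (d + 1))) k)).toRingHom =
      (aeval (Sum.elim (fun i => (pol fun l => g (i, l)).eval t)
        (fun j => (pol fun l => h (j, l)).eval t)) : MvPolynomial (σ ⊕ τ) k →ₐ[k] B).toRingHom := by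
    apply MvPolynomial.ringHom_ext
    · intro r
      show (((aeval _ : MvPolynomial (σ ⊕ τ) k →ₐ[k]
        Polynomial (MvPolynomial ((σ × Fin (e + 1)) ⊕ (τ × Fin (d + 1))) k)) (C r)).map _).eval t =
        aeval _ (C r)
      rw [aeval_C, aeval_C, Polynomial.algebraMap_apply, Polynomial.map_C, Polynomial.eval_C]
      exact aeval_C _ _
    · rintro (i | j)
      · show (((aeval _ : MvPolynomial (σ ⊕ τ) k →ₐ[k]
          Polynomial (MvPolynomial ((σ × Fin (e + 1)) ⊕ (τ × Fin (d + 1))) k))
            (X (Sum.inl i))).map _).eval t = aeval _ (X (Sum.inl i))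
        rw [aeval_X, aeval_X, Sum.elim_inl, Sum.elim_inl, pol_map]
        congr 2
        funext l
        exact aeval_X _ _
      · show (((aeval _ : MvPolynomial (σ ⊕ τ) k →ₐ[k]
          Polynomial (MvPolynomial ((σ × Fin (e + 1)) ⊕ (τ × Fin (d + 1))) k))
            (X (Sum.inr j))).map _).eval t = aeval _ (X (Sum.inr j))
        rw [aeval_X, aeval_X, Sum.elim_inr, Sum.elim_inr, pol_map]
        congr 2
        funext l
        exact aeval_X _ _
  exact congrArg (fun ψ : MvPolynomial (σ ⊕ τ) k →+* B => ψ G) hh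

/-- The value at a point of the curve with given parameters. -/
theorem curve_map {A B : Type} [CommRing A] [CommRing B] (f : A →+* B) {e n d : ℕ}
    (c : Idx e n d → A) (t : A) (j : Tau) : f ((pol fun l => Phi c (j, l)).eval t) =
      (pol fun l => Phi (fun i => f (c i)) (j, l)).eval (f t) := by
  rw [← Polynomial.eval₂_at_apply, ← Polynomial.eval_map, pol_map]
  congr 2
  funext l
  exact Phi_map f c _

theorem curve_j0 {A : Type} [CommRing A] {e n d : ℕ} (hd : n + 2 * e ≤ d) (c : Idx e n d → A)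
    (t : A) : (pol fun l => Phi c (j0, l)).eval t =
      (hP c).eval t * (aP c 0).eval t * (aP c 0).eval t := by
  show (pol fun l => Phi c (some (0, 0), l)).eval t = _
  rw [pol_Phi_some hd, Polynomial.eval_mul, Polynomial.eval_mul]

theorem curve_xs {W : Type} [Field W] {e n d : ℕ} (hd : n + 2 * e ≤ d) (c : Idx e n d → W)
    (t : W) (h0 : (pol fun l => Phi c (j0, l)).eval t ≠ 0) (i : Fin 3) :
    (pol fun l => Phi c (rr i, l)).eval t / (pol fun l => Phi c (j0, l)).eval t = xs c t i := by
  rw [curve_j0 hd] at h0 ⊢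
  have h1 : (hP c).eval t ≠ 0 := left_ne_zero_of_mul (left_ne_zero_of_mul h0)
  have h2 : (aP c 0).eval t ≠ 0 := right_ne_zero_of_mul h0
  fin_cases i
  · show (pol fun l => Phi c (some (0, 1), l)).eval t / _ = (aP c 1).eval t / (aP c 0).eval t
    rw [pol_Phi_some hd, Polynomial.eval_mul, Polynomial.eval_mul]
    field_simp
  · show (pol fun l => Phi c (some (0, 2), l)).eval t / _ = (aP c 2).eval t / (aP c 0).eval t
    rw [pol_Phi_some hd, Polynomial.eval_mul, Polynomial.eval_mul]
    field_simp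
  · show (pol fun l => Phi c (none, l)).eval t / _ =
      (wP c).eval t / ((hP c).eval t * (aP c 0).eval t ^ 2)
    rw [pol_Phi_none]
    field_simp

theorem xs_indep {W ι : Type} [Infinite k] [Field W] [Algebra k W] {e n d : ℕ}
    (hd : n + 2 * e ≤ d) (c : Idx e n d → W) (w : ι → W)
    (h : AlgebraicIndependent k (Sum.elim c w)) (i : ι)
    (h0 : (pol fun l => Phi c (j0, l)).eval (w i) ≠ 0) :
    AlgebraicIndependent k (xs c (w i)) := by
  rw [algebraicIndependent_iff]
  intro Q hQ
  obtain ⟨Qh, _, hQh⟩ := exists_homog Q le_rfl j0 rr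
  let R : MvPolynomial (Idx e n d ⊕ ι) k :=
    aeval (fun j : Tau => (pol fun l => Phi (fun a : Idx e n d =>
      (X (Sum.inl a) : MvPolynomial (Idx e n d ⊕ ι) k)) (j, l)).eval (X (Sum.inr i))) Qh
  have hR : ∀ (B : Type) [CommRing B] [Algebra k B] (c' : Idx e n d → B) (w' : ι → B),
      aeval (Sum.elim c' w') R =
        aeval (fun j : Tau => (pol fun l => Phi c' (j, l)).eval (w' i)) Qh := by
    intro B _ _ c' w'
    have h1 : ((aeval (Sum.elim c' w') : MvPolynomial (Idx e n d ⊕ ι) k →ₐ[k] B).comp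
        (aeval (fun j : Tau => (pol fun l => Phi (fun a : Idx e n d =>
          (X (Sum.inl a) : MvPolynomial (Idx e n d ⊕ ι) k)) (j, l)).eval (X (Sum.inr i))))) =
        aeval (fun j : Tau => (pol fun l => Phi c' (j, l)).eval (w' i)) := by
      apply MvPolynomial.algHom_ext
      intro j
      rw [AlgHom.comp_apply, aeval_X, aeval_X]
      have h2 := curve_map (aeval (Sum.elim c' w') :
        MvPolynomial (Idx e n d ⊕ ι) k →ₐ[k] B).toRingHom (fun a : Idx e n d =>
          (X (Sum.inl a) : MvPolynomial (Idx e n d ⊕ ι) k)) (X (Sum.inr i)) j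
      refine Eq.trans h2 ?_
      have h3 : (aeval (Sum.elim c' w') : MvPolynomial (Idx e n d ⊕ ι) k →ₐ[k] B).toRingHom
          (X (Sum.inr i)) = w' i := aeval_X _ _
      have h4 : (fun a : Idx e n d => (aeval (Sum.elim c' w') :
          MvPolynomial (Idx e n d ⊕ ι) k →ₐ[k] B).toRingHom (X (Sum.inl a))) = c' := by
        funext a
        exact aeval_X _ _
      rw [h3, h4]
    exact congrArg (fun ψ : MvPolynomial Tau k →ₐ[k] B => ψ Qh) h1
  have hR0 : R = 0 := by
    apply (algebraicIndependent_iff.1 h)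
    rw [hR W c w, hQh W _ h0]
    have h1 : (fun i_1 => (pol fun l => Phi c (rr i_1, l)).eval (w i) /
        (pol fun l => Phi c (j0, l)).eval (w i)) = xs c (w i) := by
      funext i'
      exact curve_xs hd c (w i) h0 i'
    rw [h1, hQ, mul_zero]
  apply MvPolynomial.funext
  intro T
  rw [map_zero]
  let c' : Idx e n d → k := mkc ![1, Polynomial.C (T 0), Polynomial.C (T 1)] 1
    (Polynomial.C (T 2))
  have ha0 : aP c' 0 = 1 := mkc_a _ _ _ 0 (by
    show (1 : Polynomial k).natDegree ≤ e
    rw [Polynomial.natDegree_one]; exact Nat.zero_le _)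
  have ha1 : aP c' 1 = Polynomial.C (T 0) := mkc_a _ _ _ 1 (by
    show (Polynomial.C (T 0)).natDegree ≤ e
    rw [Polynomial.natDegree_C]; exact Nat.zero_le _)
  have ha2 : aP c' 2 = Polynomial.C (T 1) := mkc_a _ _ _ 2 (by
    show (Polynomial.C (T 1)).natDegree ≤ e
    rw [Polynomial.natDegree_C]; exact Nat.zero_le _)
  have hh : hP c' = 1 := mkc_h _ _ _ (by rw [Polynomial.natDegree_one]; exact Nat.zero_le _)
  have hw : wP c' = Polynomial.C (T 2) := mkc_w _ _ _ (by
    rw [Polynomial.natDegree_C]; exact Nat.zero_le _)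
  have hj0 : (pol fun l => Phi c' (j0, l)).eval 0 = 1 := by
    rw [curve_j0 hd, ha0, hh, Polynomial.eval_one]
    ring
  have hj0' : (pol fun l => Phi c' (j0, l)).eval 0 ≠ 0 := by
    rw [hj0]
    exact one_ne_zero
  have h1 := hR k c' (fun _ => 0)
  rw [hR0, map_zero, hQh k _ hj0'] at h1
  have h2 : (fun i_1 => (pol fun l => Phi c' (rr i_1, l)).eval 0 /
      (pol fun l => Phi c' (j0, l)).eval 0) = T := by
    funext i'
    rw [curve_xs hd c' 0 hj0']
    unfold xs
    rw [ha0, ha1, ha2, hh, hw]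
    fin_cases i' <;> simp
  rw [h2, hj0, one_pow, one_mul] at h1
  rw [← aeval_eq_eval]
  exact h1.symm

theorem exists_closure (k : Type) [Field k] (σ : Type) :
    ∃ (E : Type) (_ : Field E) (_ : Algebra k E) (_ : IsAlgClosed E) (x : σ → E),
      AlgebraicIndependent k x := by
  let K := FractionRing (MvPolynomial σ k)
  let E := AlgebraicClosure K
  let x : σ → E := fun i => algebraMap K E (algebraMap (MvPolynomial σ k) K (X i))
  have hx : AlgebraicIndependent k x := by
    have h1 : AlgebraicIndependent k (X : σ → MvPolynomial σ k) :=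
      MvPolynomial.algebraicIndependent_X _ _
    have h2 := h1.map' (f := (IsScalarTower.toAlgHom k K E).comp
      (IsScalarTower.toAlgHom k (MvPolynomial σ k) K)) (by
        exact (algebraMap K E).injective.comp (IsFractionRing.injective _ K))
    exact h2
  exact ⟨E, inferInstance, inferInstance, inferInstance, x, hx⟩

/-- The fields. -/
theorem exists_setup (k : Type) [Field k] (e n d : ℕ) :
    ∃ (E W : Type) (_ : Field E) (_ : Field W) (_ : Algebra k E) (_ : Algebra E W)
      (_ : Algebra k W) (_ : IsScalarTower k E W) (_ : IsAlgClosed E) (_ : IsAlgClosed W)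
      (c0 : Idx e n d → E) (u v : E) (b : Fin 3 → W),
      AlgebraicIndependent k (Sum.elim c0 ![u, v]) ∧ AlgebraicIndependent E b := by
  obtain ⟨E, _, _, _, x, hx⟩ := exists_closure k (Idx e n d ⊕ Fin 2)
  obtain ⟨W, _, _, _, b, hb⟩ := exists_closure E (Fin 3)
  letI : Algebra k W := ((algebraMap E W).comp (algebraMap k E)).toAlgebra
  haveI : IsScalarTower k E W := IsScalarTower.of_algebraMap_eq fun _ => rfl
  refine ⟨E, W, inferInstance, inferInstance, inferInstance, inferInstance, inferInstance,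
    inferInstance, inferInstance, inferInstance, fun i => x (.inl i), x (.inr 0), x (.inr 1), b,
    ?_, hb⟩
  have h1 : Sum.elim (fun i => x (.inl i)) ![x (.inr 0), x (.inr 1)] = x := by
    funext j
    rcases j with i | j
    · rfl
    · fin_cases j <;> rfl
  rw [h1]
  exact hx

end

end Pool.Agent.Y166.GM
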