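import Mathlib
import Pool.Agent.Y166.GM.Strata

/-!
# The strata are separated; the irreducible components
-/

set_option autoImplicit false
set_option linter.unusedSectionVars false
set_option linter.deprecated false

namespace Pool.Agent.Y166.GM

open Polynomial

section
variable {k : Type} [Field k]

/-- strata with smaller plane degree -/
theorem sep_lt [IsAlgClosed k] {d e e' : ℕ} (hd : 1 ≤ d) (he : 2 * e ≤ d) (hlt : e' < e) :
    ¬ Mset k e d ⊆ closure (Mset k e' d) := by
  obtain ⟨m, P, hPh, h1, h2⟩ := sepPair (k := k) (polL (d := d) (some (0, 0)))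
    (polL (d := d) (some (1, 1))) (2 * e') (2 * e') (Phi (cstd k e (d - 2 * e) d)) (by
      intro A B hA _ h
      have e1 : polL (some (0, 0)) (Phi (cstd k e (d - 2 * e) d)) = 1 := by
        show pol _ = 1
        rw [pol_Phi_some (by omega), cstd_h, cstd_a0]
        ring
      have e2 : polL (some (1, 1)) (Phi (cstd k e (d - 2 * e) d)) = X ^ (2 * e) := by
        show pol _ = X ^ (2 * e)
        rw [pol_Phi_some (by omega), cstd_h, cstd_a1]
        ring
      rw [e1, e2] at h
      exact aux_inj (2 * e') (2 * e) (by omega) A B hA h)
  obtain ⟨P0, hP0, hP0'⟩ := noZero_open (k := k) (d := d) (e := e) (n := d - 2 * e) hd (by omega)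
  have hnz := hP0' _ hP0
  obtain ⟨γ, hγ⟩ := exists_rep hnz.ne_zero
  intro hsub
  have h3 := (mem_closure_iff' _ _).1 (hsub ⟨_, hγ, hnz⟩) m P hPh (by
    rintro q ⟨c, hc, _⟩
    rw [← zero_iff hc hPh]
    apply h2
    have hF : polL (some (0, 0)) (Phi c) = hP c * aP c 0 * aP c 0 := by
      by_cases h4 : 2 * e' ≤ d
      · exact pol_Phi_some (by omega) c 0 0
      · omega
    have hG : polL (some (1, 1)) (Phi c) = hP c * aP c 1 * aP c 1 := by
      by_cases h4 : 2 * e' ≤ d
      · exact pol_Phi_some (by omega) c 1 1
      · omega
    rw [hF, hG]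
    by_cases h0 : aP c 0 = 0 ∧ aP c 1 = 0
    · refine ⟨1, 0, ?_, ?_, Or.inl one_ne_zero, ?_⟩
      · rw [Polynomial.natDegree_one]; exact Nat.zero_le _
      · rw [Polynomial.natDegree_zero]; exact Nat.zero_le _
      · rw [h0.1, h0.2]; ring
    · refine ⟨aP c 1 * aP c 1, -(aP c 0 * aP c 0), ?_, ?_, ?_, by ring⟩
      · refine Polynomial.natDegree_mul_le.trans ?_
        have : (aP c 1).natDegree ≤ e' := pol_natDegree _
        omega
      · rw [Polynomial.natDegree_neg]
        refine Polynomial.natDegree_mul_le.trans ?_
        have : (aP c 0).natDegree ≤ e' := pol_natDegree _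
        omega
      · by_cases h5 : aP c 1 = 0
        · right
          rw [neg_ne_zero]
          have : aP c 0 ≠ 0 := fun h6 => h0 ⟨h6, h5⟩
          exact mul_ne_zero this this
        · left
          exact mul_ne_zero h5 h5)
  rw [← zero_iff hγ hPh] at h3
  exact h1 h3

/-- Products of linear factors `X - i`. -/
noncomputable def lins (k : Type) [Field k] (s : Finset ℕ) : k[X] := ∏ i ∈ s, (X - C (i : k))

theorem lins_monic (s : Finset ℕ) : (lins k s).Monic :=
  Polynomial.monic_prod_of_monic _ _ fun i _ => Polynomial.monic_X_sub_C _

theorem lins_natDegree (s : Finset ℕ) : (lins k s).natDegree = s.card := by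
  unfold lins
  rw [Polynomial.natDegree_prod_of_monic _ _ fun i _ => Polynomial.monic_X_sub_C _]
  rw [Finset.sum_congr rfl fun i _ => Polynomial.natDegree_X_sub_C _, Finset.sum_const,
    smul_eq_mul, mul_one]

theorem lins_eval (s : Finset ℕ) (j : ℕ) (hj : j ∈ s) : (lins k s).eval (j : k) = 0 := by
  unfold lins
  rw [Polynomial.eval_prod]
  exact Finset.prod_eq_zero hj (by simp)

theorem lins_deriv_eval [DecidableEq ℕ] (s : Finset ℕ) (j : ℕ) (hj : j ∈ s) :
    (derivative (lins k s)).eval (j : k) = (lins k (s.erase j)).eval (j : k) := by
  have h1 : lins k s = (X - C (j : k)) * lins k (s.erase j) := by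
    unfold lins
    rw [Finset.mul_prod_erase _ (fun i => X - C ((i : ℕ) : k)) hj]
  rw [h1, Polynomial.derivative_mul]
  simp

theorem lins_eval_ne [CharZero k] (s : Finset ℕ) (j : ℕ) (hj : j ∉ s) :
    (lins k s).eval (j : k) ≠ 0 := by
  unfold lins
  rw [Polynomial.eval_prod, Finset.prod_ne_zero_iff]
  intro i hi
  simp only [Polynomial.eval_sub, Polynomial.eval_X, Polynomial.eval_C]
  intro h
  rw [sub_eq_zero] at h
  have : j = i := by exact_mod_cast h
  exact hj (this ▸ hi)

theorem lins_union (s t : Finset ℕ) (h : Disjoint s t) :
    lins k (s.disjUnion t h) = lins k s * lins k t := by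
  unfold lins
  rw [Finset.prod_disjUnion]

/-- strata with bigger plane degree -/
theorem sep_gt [IsAlgClosed k] [CharZero k] {d e e' : ℕ} (he : 2 * e ≤ d)
    (he' : 2 * e' ≤ d) (hlt : e < e') : ¬ Mset k e d ⊆ closure (Mset k e' d) := by
  classical
  -- the special curve
  set a0 : k[X] := lins k (Finset.range e) with ha0
  set h : k[X] := lins k (Finset.Ico e (d - e)) with hh
  have hdisj : Disjoint (Finset.range e) (Finset.Ico e (d - e)) := by
    rw [Finset.disjoint_left]
    intro i hi hi'
    rw [Finset.mem_range] at hi
    rw [Finset.mem_Ico] at hi'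
    omega
  have hS : lins k (Finset.range (d - e)) = a0 * h := by
    rw [ha0, hh, ← lins_union _ _ hdisj]
    congr 1
    ext i
    simp only [Finset.mem_range, Finset.disjUnion_eq_union, Finset.mem_union, Finset.mem_Ico]
    omega
  have ha0d : a0.natDegree = e := by rw [ha0, lins_natDegree, Finset.card_range]
  have hhd : h.natDegree = d - 2 * e := by
    rw [hh, lins_natDegree, Nat.card_Ico]
    omega
  let c1 : Idx e (d - 2 * e) d → k := mkc ![a0, 0, 0] h 1
  have hc1a : aP c1 0 = a0 := mkc_a _ _ _ 0 (by show a0.natDegree ≤ e; omega)
  have hc1h : hP c1 = h := mkc_h _ _ _ (by omega)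
  have hc1w : wP c1 = 1 := mkc_w _ _ _ (by rw [Polynomial.natDegree_one]; exact Nat.zero_le _)
  have hF1 : polL (some (0, 0)) (Phi c1) = h * a0 * a0 := by
    show pol _ = _
    rw [pol_Phi_some (by omega), hc1h, hc1a]
  have hnz : NoZero (Phi c1) := by
    intro s hs h0
    by_cases hs1 : s 1 = 0
    · have hs0 : s 0 ≠ 0 := by
        intro h
        apply hs
        funext i
        fin_cases i
        · exact h
        · exact hs1
      have e1 := congrFun h0 (some (0, 0))
      rw [forms_inf _ _ hs1] at e1
      have e2 : Phi c1 (some (0, 0), Fin.last d) = 1 := by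
        have e3 : (pol fun l => Phi c1 (some (0, 0), l)).coeff (Fin.last d) =
          Phi c1 (some (0, 0), Fin.last d) := pol_coeff _ _
        rw [← e3]
        have e4 : (pol fun l => Phi c1 (some (0, 0), l)) = h * a0 * a0 := hF1
        rw [e4, Fin.val_last]
        have hm : (h * a0 * a0).Monic := ((lins_monic _).mul (lins_monic _)).mul (lins_monic _)
        have hdeg : (h * a0 * a0).natDegree = d := by
          rw [((lins_monic _).mul (lins_monic _)).natDegree_mul (lins_monic _),
            (lins_monic _).natDegree_mul (lins_monic _)]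
          show h.natDegree + a0.natDegree + a0.natDegree = d
          omega
        have := hm.coeff_natDegree
        rwa [hdeg] at this
      rw [e2, one_mul] at e1
      exact hs0 (eq_zero_of_pow_eq_zero e1)
    · have e1 := congrFun h0 none
      rw [forms_aff _ _ hs1, pol_Phi_none, hc1w, Polynomial.eval_one, mul_one] at e1
      exact hs1 (eq_zero_of_pow_eq_zero e1)
  -- the closed condition
  obtain ⟨m, P, hP', h1, h2⟩ := sepPair (k := k) (polL (d := d) (some (0, 0)))
    (Polynomial.derivative.comp (polL (d := d) (some (0, 0)))) (d - 1 - e') (d - e') (Phi c1) (by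
      intro A B hA hB hAB
      rw [LinearMap.comp_apply, hF1] at hAB
      have e1 : derivative (h * a0 * a0) =
          a0 * (derivative (lins k (Finset.range (d - e))) + h * derivative a0) := by
        rw [hS, Polynomial.derivative_mul, Polynomial.derivative_mul, Polynomial.derivative_mul]
        ring
      rw [e1] at hAB
      have ha0ne : a0 ≠ 0 := (lins_monic _).ne_zero
      have e2 : A * lins k (Finset.range (d - e)) +
          B * (derivative (lins k (Finset.range (d - e))) + h * derivative a0) = 0 := by
        apply mul_left_cancel₀ ha0ne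
        rw [mul_zero, ← hAB, hS]
        ring
      have hBroot : ∀ j < d - e, B.eval (j : k) = 0 := by
        intro j hj
        have e3 := congrArg (Polynomial.eval (j : k)) e2
        rw [Polynomial.eval_add, Polynomial.eval_mul, Polynomial.eval_mul,
          lins_eval _ _ (Finset.mem_range.2 hj), mul_zero, zero_add, Polynomial.eval_zero,
          Polynomial.eval_add, Polynomial.eval_mul,
          lins_deriv_eval _ _ (Finset.mem_range.2 hj)] at e3
        have hne : (lins k ((Finset.range (d - e)).erase j)).eval (j : k) ≠ 0 :=
          lins_eval_ne _ _ (by simp)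
        rcases mul_eq_zero.1 e3 with h4 | h4
        · exact h4
        · exfalso
          by_cases hje : j < e
          · have e5 : h.eval (j : k) * (derivative a0).eval (j : k) =
                (lins k ((Finset.range (d - e)).erase j)).eval (j : k) := by
              rw [ha0, lins_deriv_eval _ _ (Finset.mem_range.2 hje), ← Polynomial.eval_mul, hh,
                mul_comm]
              have hd' : Disjoint ((Finset.range e).erase j) (Finset.Ico e (d - e)) :=
                hdisj.mono_left (Finset.erase_subset _ _)
              rw [← lins_union _ _ hd']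
              congr 2
              ext i
              simp only [Finset.disjUnion_eq_union, Finset.mem_union, Finset.mem_erase,
                Finset.mem_range, Finset.mem_Ico]
              omega
            rw [e5, ← two_mul] at h4
            exact (mul_ne_zero two_ne_zero hne) h4
          · have e5 : h.eval (j : k) = 0 := by
              rw [hh]
              apply lins_eval
              rw [Finset.mem_Ico]
              omega
            rw [e5, zero_mul, add_zero] at h4
            exact hne h4
      have hB0 : B = 0 := by
        apply Polynomial.eq_zero_of_natDegree_lt_card_of_eval_eq_zero B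
          (f := fun j : Fin (d - e) => ((j : ℕ) : k))
        · intro i j hij
          have hij' : ((i : ℕ) : k) = ((j : ℕ) : k) := hij
          apply Fin.ext
          exact_mod_cast hij'
        · intro j
          exact hBroot j j.2
        · rw [Fintype.card_fin]
          omega
      rw [hB0, zero_mul, add_zero] at e2
      refine ⟨?_, hB0⟩
      rcases mul_eq_zero.1 e2 with h4 | h4
      · exact h4
      · exact absurd h4 (lins_monic _).ne_zero)
  obtain ⟨γ, hγ⟩ := exists_rep hnz.ne_zero
  intro hsub
  have h3 := (mem_closure_iff' _ _).1 (hsub ⟨_, hγ, hnz⟩) m P hP' (by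
    rintro q ⟨c, hc, _⟩
    rw [← zero_iff hc hP']
    apply h2
    have hF : polL (some (0, 0)) (Phi c) = hP c * aP c 0 * aP c 0 :=
      pol_Phi_some (by omega) c 0 0
    rw [LinearMap.comp_apply, hF]
    set hc' := hP c with hhc'
    set ac := aP c 0 with hac
    have hhcd : hc'.natDegree ≤ d - 2 * e' := pol_natDegree _
    have hacd : ac.natDegree ≤ e' := pol_natDegree _
    by_cases h0 : hc' * ac = 0
    · refine ⟨1, 0, ?_, ?_, Or.inl one_ne_zero, ?_⟩
      · rw [Polynomial.natDegree_one]; exact Nat.zero_le _
      · rw [Polynomial.natDegree_zero]; exact Nat.zero_le _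
      · rw [h0]; ring
    · refine ⟨derivative hc' * ac + 2 * (hc' * derivative ac), -(hc' * ac), ?_, ?_,
        Or.inr (neg_ne_zero.2 h0), ?_⟩
      · have hd1 : (derivative hc' * ac).natDegree ≤ d - 1 - e' := by
          by_cases hz : derivative hc' = 0
          · rw [hz, zero_mul, Polynomial.natDegree_zero]
            exact Nat.zero_le _
          · have h5 : hc'.natDegree ≠ 0 := by
              intro h6
              apply hz
              rw [Polynomial.eq_C_of_natDegree_eq_zero h6, Polynomial.derivative_C]
            have h6 := Polynomial.natDegree_derivative_lt h5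
            refine Polynomial.natDegree_mul_le.trans ?_
            omega
        have hd2 : (hc' * derivative ac).natDegree ≤ d - 1 - e' := by
          by_cases hz : derivative ac = 0
          · rw [hz, mul_zero, Polynomial.natDegree_zero]
            exact Nat.zero_le _
          · have h5 : ac.natDegree ≠ 0 := by
              intro h6
              apply hz
              rw [Polynomial.eq_C_of_natDegree_eq_zero h6, Polynomial.derivative_C]
            have h6 := Polynomial.natDegree_derivative_lt h5
            refine Polynomial.natDegree_mul_le.trans ?_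
            omega
        refine (Polynomial.natDegree_add_le _ _).trans (max_le hd1 ?_)
        refine Polynomial.natDegree_mul_le.trans ?_
        have : (2 : k[X]).natDegree = 0 := Polynomial.natDegree_ofNat 2
        omega
      · rw [Polynomial.natDegree_neg]
        refine Polynomial.natDegree_mul_le.trans ?_
        omega
      · rw [Polynomial.derivative_mul, Polynomial.derivative_mul]
        ring)
  rw [← zero_iff hγ hP'] at h3
  exact h1 h3

/-- The irreducible components of the space of curves of degree `d` on the cone. -/
theorem components_cone [IsAlgClosed k] [CharZero k] {d : ℕ} (hd : 1 ≤ d) :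
    (∀ Z : Set (Mor (Xcone k) d), Z ∈ irreducibleComponents (Mor (Xcone k) d) ↔
      ∃ e : Fin (d / 2 + 1), Z = Subtype.val ⁻¹' closure (Mset k e d)) ∧
    Function.Injective fun e : Fin (d / 2 + 1) =>
      (Subtype.val ⁻¹' closure (Mset k e d) : Set (Mor (Xcone k) d)) := by
  have h2 : ∀ e : Fin (d / 2 + 1), 2 * (e : ℕ) ≤ d := fun e => by
    have := e.2
    omega
  refine components (Mor (Xcone k) d) (fun e : Fin (d / 2 + 1) => Mset k e d)
    (fun e => Mset_sub (h2 e)) ?_ (fun e => Mset_irreducible hd (h2 e)) ?_
  · intro γ hγ
    obtain ⟨e, he, hγe⟩ := cover hd hγ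
    exact Set.mem_iUnion.2 ⟨⟨e, by omega⟩, hγe⟩
  · intro i j hij
    have hij' : (i : ℕ) ≠ j := fun h => hij (Fin.ext h)
    rcases lt_or_gt_of_ne hij' with h | h
    · exact sep_gt (h2 i) (h2 j) h
    · exact sep_lt hd (h2 i) h

end

end Pool.Agent.Y166.GM
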