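import Mathlib
import Pool.Agent.Y166.GM.Lift
import Pool.Agent.Y166.GM.Separate

/-!
# Generically finite morphisms through which the generic curve lifts are birational
-/

set_option autoImplicit false
set_option linter.unusedSectionVars false
set_option linter.deprecated false
set_option linter.style.haveILetI false

namespace Pool.Agent.Y166.GM

open MvPolynomial

section
variable {k : Type} [Field k]

/-- A chart of a morphism to the cone. -/
structure Chart {n : ℕ} (Y : Set (PP k (Fin (n + 1)))) (f : PP k (Fin (n + 1)) → PP k Tau) where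
  m : ℕ
  F : Tau → MvPolynomial (Fin (n + 1)) k
  hF : ∀ j, (F j).IsHomogeneous m
  mP : ℕ
  P : MvPolynomial (Fin (n + 1)) k
  hP : P.IsHomogeneous mP
  hrep : ∀ z ∈ Y, eval z.rep P ≠ 0 → Rep (f z) (fun j => eval z.rep (F j))
  j : Tau
  i0 : Fin (n + 1)

/-- The polynomial of a chart. -/
noncomputable def Chart.G {n : ℕ} {Y : Set (PP k (Fin (n + 1)))}
    {f : PP k (Fin (n + 1)) → PP k Tau} (c : Chart Y f) : MvPolynomial (Fin (n + 1)) k :=
  c.P * c.F c.j * X c.i0

theorem Chart.G_homog {n : ℕ} {Y : Set (PP k (Fin (n + 1)))}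
    {f : PP k (Fin (n + 1)) → PP k Tau} (c : Chart Y f) : c.G.IsHomogeneous (c.mP + c.m + 1) :=
  (c.hP.mul (c.hF c.j)).mul (isHomogeneous_X k c.i0)

theorem exists_chart {n : ℕ} {Y : Set (PP k (Fin (n + 1)))} {f : PP k (Fin (n + 1)) → PP k Tau}
    (hf : IsMorphism Y f) {y : PP k (Fin (n + 1))} (hy : y ∈ Y) :
    ∃ c : Chart Y f, eval y.rep c.G ≠ 0 := by
  obtain ⟨U, hU, hyU, m, F, hF, hrep⟩ := hf y hy
  obtain ⟨mP, P, hP, hPy, hPU⟩ := exists_basic hU hyU
  obtain ⟨j, hj⟩ : ∃ j, eval y.rep (F j) ≠ 0 := by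
    by_contra hcon
    push Not at hcon
    exact (hrep y ⟨hyU, hy⟩).ne_zero (funext hcon)
  obtain ⟨i0, hi0⟩ : ∃ i, y.rep i ≠ 0 := by
    by_contra hcon
    push Not at hcon
    exact y.rep_nonzero (funext hcon)
  refine ⟨⟨m, F, hF, mP, P, hP, fun z hz hzP => hrep z ⟨hPU z hzP, hz⟩, j, i0⟩, ?_⟩
  show eval y.rep (P * F j * X i0) ≠ 0
  rw [map_mul, map_mul, eval_X]
  exact mul_ne_zero (mul_ne_zero hPy hj) hi0

theorem forms_pt {σ : Type} {e : ℕ} (g : σ × Fin (e + 1) → k) (t : k) :
    forms g ![t, 1] = fun i => (pol fun l => g (i, l)).eval t := by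
  funext i
  rw [forms_aff _ _ (by simp)]
  simp

theorem pull_mul {e n d : ℕ} (P Q : MvPolynomial (Tau × Fin (d + 1)) k) :
    (pull (P * Q) : MvPolynomial (Idx e n d) k) = pull P * pull Q := map_mul _ _ _

theorem pull_prod {e n d : ℕ} {ι : Type} (s : Finset ι)
    (P : ι → MvPolynomial (Tau × Fin (d + 1)) k) :
    (pull (∏ i ∈ s, P i) : MvPolynomial (Idx e n d) k) = ∏ i ∈ s, pull (P i) := map_prod _ _ _

/-- Scaling of the parameters. -/
theorem exists_Phi {e n d : ℕ} {γ : PP k (Tau × Fin (d + 1))} {c : Idx e n d → k}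
    {h : Tau × Fin (d + 1) → k} (h1 : Rep γ (Phi c)) (h2 : Rep γ h) :
    ∃ c' : Idx e n d → k, h = Phi c' := by
  obtain ⟨a, ha, hh⟩ := h1.exists_smul h2
  refine ⟨fun x => match x with
    | .inl x => c (.inl x)
    | .inr (.inl x) => a * c (.inr (.inl x))
    | .inr (.inr x) => a * c (.inr (.inr x)), ?_⟩
  rw [hh]
  funext x
  rcases x with ⟨_ | ⟨i, j⟩, l⟩
  · rw [Pi.smul_apply, Phi_none, Phi_none]
    unfold wP
    rw [pol_smul, Polynomial.coeff_C_mul]
    rfl
  · rw [Pi.smul_apply, Phi_some, Phi_some]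
    unfold hP aP
    rw [pol_smul, mul_assoc (Polynomial.C a), mul_assoc (Polynomial.C a),
      Polynomial.coeff_C_mul]
    rfl

/-- Algebra at a point. -/
theorem at_point {W : Type} [Field W] [Algebra k W] {n : ℕ} {Y : Set (PP k (Fin (n + 1)))}
    {f : PP k (Fin (n + 1)) → PP k Tau} (c : Chart Y f) (y : Fin (n + 1) → W) (x : Tau → W)
    (hG : aeval y c.G ≠ 0)
    (hB : ∀ a b, aeval y c.P * (aeval y (c.F a) * x b - aeval y (c.F b) * x a) = 0)
    (hx0 : x j0 ≠ 0) :
    aeval y c.P ≠ 0 ∧ y c.i0 ≠ 0 ∧ aeval y (c.F j0) ≠ 0 ∧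
      ∀ i, aeval y (c.F (rr i)) / aeval y (c.F j0) = x (rr i) / x j0 := by
  unfold Chart.G at hG
  rw [map_mul, map_mul, aeval_X] at hG
  have h1 : aeval y c.P ≠ 0 := left_ne_zero_of_mul (left_ne_zero_of_mul hG)
  have h2 : aeval y (c.F c.j) ≠ 0 := right_ne_zero_of_mul (left_ne_zero_of_mul hG)
  have h3 : y c.i0 ≠ 0 := right_ne_zero_of_mul hG
  have hB' : ∀ a b, aeval y (c.F a) * x b = aeval y (c.F b) * x a := by
    intro a b
    rcases mul_eq_zero.1 (hB a b) with h | h
    · exact absurd h h1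
    · exact sub_eq_zero.1 h
  have h4 : aeval y (c.F j0) ≠ 0 := by
    intro h
    have h5 := hB' c.j j0
    rw [h, zero_mul] at h5
    exact mul_ne_zero h2 hx0 h5
  refine ⟨h1, h3, h4, fun i => ?_⟩
  rw [div_eq_div_iff h4 hx0, hB' (rr i) j0]
  ring

theorem main_birational [IsAlgClosed k] [CharZero k] {d e : ℕ} (he : 1 ≤ e) (h2e : 2 * e ≤ d)
    {n : ℕ} {Y : Set (PP k (Fin (n + 1)))} (hY : IsProjVar Y)
    {f : PP k (Fin (n + 1)) → PP k Tau} (hf : IsMorphism Y f) (hfX : Set.MapsTo f Y (Xcone k))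
    (hfin : GenFinite Y f) {e1 : ℕ} (N : Set (PP k (Fin (n + 1) × Fin (e1 + 1))))
    (hN : N ⊆ Mor Y e1)
    (hdense : ∀ (m : ℕ) (P : MvPolynomial (Tau × Fin (d + 1)) k), P.IsHomogeneous m →
      (∀ γ ∈ Mset k e d, (∃ g ∈ N, IsComp f g γ) → eval γ.rep P = 0) →
      ∀ γ ∈ Mset k e d, eval γ.rep P = 0) :
    Birational Y (Xcone k) f := by
  classical
  haveI : Infinite k := IsAlgClosed.instInfinite
  have hd1 : 1 ≤ d := by omega
  obtain ⟨P0, hP0, hP0'⟩ := noZero_open (k := k) (d := d) (e := e) (n := d - 2 * e) hd1 (by omega)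
  have hP0ne : (pull P0 : MvPolynomial (Idx e (d - 2 * e) d) k) ≠ 0 := by
    intro h
    apply hP0
    rw [← eval_pull, h, map_zero]
  let Γ : Set ((Fin (n + 1) × Fin (e1 + 1) → k) × (Tau × Fin (d + 1) → k)) :=
    {p | ∃ γ ∈ N, Rep γ p.1 ∧ ∃ η ∈ Mset k e d, Rep η p.2 ∧ IsComp f γ η}
  -- density
  have dens0 : ∀ Q : MvPolynomial (Tau × Fin (d + 1)) k, (∀ p ∈ Γ, eval p.2 Q = 0) →
      (pull Q : MvPolynomial (Idx e (d - 2 * e) d) k) = 0 := by
    intro Q hQ
    have h1 : ∀ m, ∀ γ ∈ Mset k e d, eval γ.rep (homogeneousComponent m Q) = 0 := by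
      intro m
      refine hdense m _ (homogeneousComponent_isHomogeneous m Q) ?_
      rintro γ hγ ⟨g, hg, hgγ⟩
      apply component_zero
      intro a ha
      exact hQ (g.rep, a • γ.rep) ⟨g, hg, rep_rep g, γ, hγ, (rep_rep γ).smul ha, hgγ⟩
    have h2 : ∀ c : Idx e (d - 2 * e) d → k, NoZero (Phi c) → eval (Phi c) Q = 0 := by
      intro c hc
      obtain ⟨γ, hγ⟩ := exists_rep hc.ne_zero
      rw [← sum_homogeneousComponent Q, map_sum]
      refine Finset.sum_eq_zero fun m _ => ?_
      rw [zero_iff hγ (homogeneousComponent_isHomogeneous m Q)]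
      exact h1 m γ ⟨c, hγ, hc⟩
    have h3 : (pull Q * pull P0 : MvPolynomial (Idx e (d - 2 * e) d) k) = 0 := by
      apply MvPolynomial.funext
      intro c
      rw [map_mul, eval_pull, eval_pull, map_zero]
      by_cases hc : eval (Phi c) P0 = 0
      · rw [hc, mul_zero]
      · rw [h2 c (hP0' _ hc), zero_mul]
    rcases mul_eq_zero.1 h3 with h4 | h4
    · exact h4
    · exact absurd h4 hP0ne
  have dens1 : ∀ Q : MvPolynomial (Tau × Fin (d + 1)) k,
      (pull Q : MvPolynomial (Idx e (d - 2 * e) d) k) = 0 → ∀ p ∈ Γ, eval p.2 Q = 0 := by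
    rintro Q hQ p ⟨γ, _, _, η, ⟨c, hc, _⟩, hη, _⟩
    obtain ⟨c', hc'⟩ := exists_Phi hc hη
    rw [hc', ← eval_pull, hQ, map_zero]
  -- points of the family
  have hΓpt : ∀ p ∈ Γ, ∀ t : k, ∃ z ∈ Y, Rep z (fun i => (pol fun l => p.1 (i, l)).eval t) ∧
      Rep (f z) (fun j => (pol fun l => p.2 (j, l)).eval t) := by
    rintro p ⟨γ, hγN, hγ, η, _, hη, hcomp⟩ t
    have hs : (![t, 1] : Fin 2 → k) ≠ 0 := by
      intro h
      have := congrFun h 1
      simp at this
    obtain ⟨z, hz, hz'⟩ := (mem_Mor_iff hγ).1 (hN hγN) _ hs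
    refine ⟨z, hz, ?_, ?_⟩
    · rw [← forms_pt]
      exact hz'
    · rw [← forms_pt, ← rep_forms hη]
      exact hcomp _ hs z ((rep_forms hγ _ _).2 hz')
  -- the choice of the chart
  let HH : Set (MvPolynomial (Fin (n + 1) × Fin (e1 + 1)) k) :=
    {H | ∃ (c : Chart Y f) (l : ℕ), H = (alongL c.G).coeff l}
  have hHH : ∀ p ∈ Γ, ∃ H ∈ HH, eval p.1 H ≠ 0 := by
    intro p hp
    obtain ⟨z, hz, hz1, _⟩ := hΓpt p hp 0
    obtain ⟨c, hc⟩ := exists_chart hf hz
    have h1 : aeval (fun i => (pol fun l => p.1 (i, l)).eval 0) c.G ≠ 0 := by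
      rw [aeval_eq_eval]
      intro h
      exact hc ((zero_iff hz1 c.G_homog).1 h)
    rw [← alongL_eval] at h1
    by_contra hcon
    push Not at hcon
    apply h1
    have h2 : (alongL c.G).map (aeval p.1 : MvPolynomial (Fin (n + 1) × Fin (e1 + 1)) k →ₐ[k]
        k).toRingHom = 0 := by
      ext l
      rw [Polynomial.coeff_map, Polynomial.coeff_zero]
      have h3 := hcon _ ⟨c, l, rfl⟩
      rw [← aeval_eq_eval] at h3
      exact h3
    rw [h2, Polynomial.eval_zero]
  obtain ⟨T, hTH, hTspan⟩ := (Submodule.fg_span_iff_fg_span_finset_subset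
    (R := MvPolynomial (Fin (n + 1) × Fin (e1 + 1)) k) HH).1 (IsNoetherian.noetherian _)
  have hT : ∀ p ∈ Γ, ∃ H ∈ T, eval p.1 H ≠ 0 := by
    intro p hp
    obtain ⟨H, hH, hH0⟩ := hHH p hp
    by_contra hcon
    push Not at hcon
    apply hH0
    have h1 : Submodule.span (MvPolynomial (Fin (n + 1) × Fin (e1 + 1)) k) HH ≤
        (RingHom.ker (eval p.1) : Ideal (MvPolynomial (Fin (n + 1) × Fin (e1 + 1)) k)) := by
      rw [hTspan, Submodule.span_le]
      intro H' hH'
      exact hcon H' hH'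
    exact h1 (Submodule.subset_span hH)
  obtain ⟨H, hHT, hHdens⟩ : ∃ H ∈ T, ∀ Q : MvPolynomial (Tau × Fin (d + 1)) k,
      (∀ p ∈ Γ, eval p.1 H ≠ 0 → eval p.2 Q = 0) →
      (pull Q : MvPolynomial (Idx e (d - 2 * e) d) k) = 0 := by
    by_contra hcon
    push Not at hcon
    choose! Q hQ hQ0 using hcon
    have h1 := dens0 (∏ H ∈ T, Q H) (by
      intro p hp
      obtain ⟨H, hH, hH0⟩ := hT p hp
      rw [map_prod]
      exact Finset.prod_eq_zero hH (hQ H hH p hp hH0))
    rw [pull_prod] at h1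
    exact Finset.prod_ne_zero_iff.2 hQ0 h1
  obtain ⟨c, l0, hH⟩ := hTH hHT
  -- the generic curve
  obtain ⟨E, W, _, _, _, _, _, _, _, _, c0, u, v, b, hc0, hb⟩ :=
    exists_setup k e (d - 2 * e) d
  set cW : Idx e (d - 2 * e) d → W := cc c0 u b with hcW
  have hind := cc_indep (W := W) c0 u v hc0 b hb
  rw [← hcW] at hind
  have hcind : AlgebraicIndependent k cW := by
    have := hind.comp Sum.inl Sum.inl_injective
    exact this
  let φ : MvPolynomial (Tau × Fin (d + 1)) k →ₐ[k] W := aeval (Phi cW)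
  have hφ : ∀ Q, φ Q = 0 ↔ (pull Q : MvPolynomial (Idx e (d - 2 * e) d) k) = 0 := by
    intro Q
    have h1 : φ Q = aeval cW (pull Q) := (aeval_pull Q cW).symm
    rw [h1]
    constructor
    · exact fun h => (algebraicIndependent_iff.1 hcind) _ h
    · intro h
      rw [h, map_zero]
  obtain ⟨g, hgH, hgP, hgalg⟩ := exists_lift Γ φ H (fun Q => by
    rw [hφ]
    exact ⟨fun h p hp _ => dens1 Q h p hp, hHdens Q⟩)
  have hφX : (fun j => φ (X j)) = Phi cW := by
    funext j
    exact aeval_X _ _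
  rw [hφX] at hgP
  set L := IntermediateField.adjoin k (Set.range cW) with hL
  have hPhiL : ∀ j, Phi cW j ∈ L := by
    intro j
    have hS : ∀ i, cW i ∈ L := fun i => IntermediateField.subset_adjoin k _ ⟨i, rfl⟩
    have h1 := Phi_map L.val.toRingHom (fun i => (⟨cW i, hS i⟩ : L)) j
    have h2 : (fun i => L.val.toRingHom (⟨cW i, hS i⟩ : L)) = cW := rfl
    rw [h2] at h1
    rw [← h1]
    exact (Phi (fun i => (⟨cW i, hS i⟩ : L)) j).2
  have hφL : ∀ Q, φ Q ∈ L := by
    intro Q
    induction Q using MvPolynomial.induction_on with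
    | C r =>
      have : φ (C r) = algebraMap k W r := φ.commutes r
      rw [this]
      exact L.algebraMap_mem r
    | add p q hp hq => rw [map_add]; exact add_mem hp hq
    | mul_X p i hp =>
      rw [map_mul]
      refine mul_mem hp ?_
      have : φ (X i) = Phi cW i := congrFun hφX i
      rw [this]
      exact hPhiL i
  have hgL : ∀ i, IsAlgebraic L (g i) := by
    intro i
    obtain ⟨q, hq, hq0⟩ := hgalg i
    let φL : MvPolynomial (Tau × Fin (d + 1)) k →+* L :=
      (φ : MvPolynomial (Tau × Fin (d + 1)) k →+* W).codRestrict L hφL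
    have h1 : (algebraMap L W).comp φL = (φ : MvPolynomial (Tau × Fin (d + 1)) k →+* W) := rfl
    refine ⟨q.map φL, ?_, ?_⟩
    · intro h
      apply hq
      rw [← h1, ← Polynomial.map_map, h, Polynomial.map_zero]
    · rw [Polynomial.aeval_def, Polynomial.eval₂_map, h1]
      exact hq0
  -- the transfer
  have TL : ∀ Q : MvPolynomial (Fin (n + 1) ⊕ Tau) k,
      (∀ z ∈ Y, ∀ v w, Rep z v → Rep (f z) w → eval (Sum.elim v w) Q = 0) → ∀ t : W,
      aeval (Sum.elim (fun i => (pol fun l => g (i, l)).eval t)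
        (fun j => (pol fun l => Phi cW (j, l)).eval t)) Q = 0 := by
    intro Q hQ t
    rw [← alongP_eval]
    have h1 : (alongP Q).map (aeval (Sum.elim g (Phi cW)) :
        MvPolynomial ((Fin (n + 1) × Fin (e1 + 1)) ⊕ (Tau × Fin (d + 1))) k →ₐ[k] W).toRingHom
        = 0 := by
      ext l
      rw [Polynomial.coeff_map, Polynomial.coeff_zero]
      refine hgP _ ?_
      intro p hp _
      have h2 : (alongP Q).map (aeval (Sum.elim p.1 p.2) :
          MvPolynomial ((Fin (n + 1) × Fin (e1 + 1)) ⊕ (Tau × Fin (d + 1))) k →ₐ[k] k).toRingHom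
          = 0 := by
        apply Polynomial.funext
        intro s
        rw [alongP_eval, Polynomial.eval_zero, aeval_eq_eval]
        obtain ⟨z, hz, hz1, hz2⟩ := hΓpt p hp s
        exact hQ z hz _ _ hz1 hz2
      have h3 := congrArg (fun P => P.coeff l) h2
      simp only [Polynomial.coeff_map, Polynomial.coeff_zero] at h3
      rw [← aeval_eq_eval]
      exact h3
    rw [h1, Polynomial.eval_zero]
  have hne2 : (alongL c.G).map (aeval g : MvPolynomial (Fin (n + 1) × Fin (e1 + 1)) k →ₐ[k]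
      W).toRingHom ≠ 0 := by
    intro h
    apply hgH
    have h1 := congrArg (fun P => P.coeff l0) h
    simp only [Polynomial.coeff_map, Polynomial.coeff_zero] at h1
    rw [hH]
    exact h1
  have halgL : ∀ Q : MvPolynomial (Fin (n + 1) × Fin (e1 + 1)) k, IsAlgebraic L (aeval g Q) := by
    intro Q
    rw [← Subalgebra.mem_algebraicClosure]
    induction Q using MvPolynomial.induction_on with
    | C r =>
      rw [aeval_C, IsScalarTower.algebraMap_apply k L W]
      exact Subalgebra.algebraMap_mem _ _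
    | add p q hp hq => rw [map_add]; exact add_mem hp hq
    | mul_X p i hp =>
      rw [map_mul, aeval_X]
      exact mul_mem hp ((Subalgebra.mem_algebraicClosure _ _).2 (hgL i))
  -- at the two points
  have hpts : ∀ w : Fin 2, ∀ t : W, t = (![algebraMap E W u, algebraMap E W v] : Fin 2 → W) w →
      (∀ Q ∈ coneIdeal Y, aeval (fun i => (pol fun l => g (i, l)).eval t) Q = 0) ∧
      aeval (fun i => (pol fun l => g (i, l)).eval t) c.P ≠ 0 ∧
      (pol fun l => g (c.i0, l)).eval t ≠ 0 ∧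
      aeval (fun i => (pol fun l => g (i, l)).eval t) (c.F j0) ≠ 0 ∧
      (fun i => aeval (fun i => (pol fun l => g (i, l)).eval t) (c.F (rr i)) /
        aeval (fun i => (pol fun l => g (i, l)).eval t) (c.F j0)) = xs cW t ∧
      AlgebraicIndependent k (xs cW t) := by
    intro w t ht
    have htr : Transcendental L t := by
      rw [ht]
      exact transc_of_indep cW _ hind w
    have hx0 : (pol fun l => Phi cW (j0, l)).eval t ≠ 0 := by
      rw [curve_j0 (by omega)]
      have e1 : (hP cW).eval t ≠ 0 := by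
        rw [ht]
        exact pol_eval_ne cW _ hind (fun p => .inr (.inl p)) w
      have e2 : (aP cW 0).eval t ≠ 0 := by
        rw [ht]
        exact pol_eval_ne cW _ hind (fun p => .inl (0, p)) w
      exact mul_ne_zero (mul_ne_zero e1 e2) e2
    have hG : aeval (fun i => (pol fun l => g (i, l)).eval t) c.G ≠ 0 := by
      rw [← alongL_eval]
      refine eval_ne_zero_of_trans t htr _ ?_ hne2
      intro l
      rw [Polynomial.coeff_map]
      exact halgL _
    have hA : ∀ Q ∈ coneIdeal Y, aeval (fun i => (pol fun l => g (i, l)).eval t) Q = 0 := by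
      intro Q hQ
      have h1 := TL (rename Sum.inl Q) (by
        intro z hz v w hv _
        rw [eval_rename, Sum.elim_comp_inl]
        exact hQ z hz v hv) t
      rw [aeval_rename, Sum.elim_comp_inl] at h1
      exact h1
    have hB : ∀ a b, aeval (fun i => (pol fun l => g (i, l)).eval t) c.P *
        (aeval (fun i => (pol fun l => g (i, l)).eval t) (c.F a) *
          (pol fun l => Phi cW (b, l)).eval t -
        aeval (fun i => (pol fun l => g (i, l)).eval t) (c.F b) *
          (pol fun l => Phi cW (a, l)).eval t) = 0 := by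
      intro a b
      have h1 := TL (rename Sum.inl c.P * (rename Sum.inl (c.F a) * X (Sum.inr b) -
        rename Sum.inl (c.F b) * X (Sum.inr a))) (by
        intro z hz v w hv hw
        rw [map_mul, map_sub, map_mul, map_mul, eval_rename, eval_rename, eval_rename,
          Sum.elim_comp_inl, eval_X, eval_X, Sum.elim_inr, Sum.elim_inr]
        by_cases hPv : eval v c.P = 0
        · rw [hPv, zero_mul]
        · have h2 : eval z.rep c.P ≠ 0 := fun h => hPv ((zero_iff hv c.hP).2 h)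
          have h3 := (hv.eval_iff c.hF).1 (c.hrep z hz h2)
          obtain ⟨r, _, hr⟩ := h3.exists_smul hw
          have h4 : ∀ j, w j = r * eval v (c.F j) := fun j => congrFun hr j
          rw [h4 a, h4 b]
          ring) t
      rw [map_mul, map_sub, map_mul, map_mul, aeval_rename, aeval_rename, aeval_rename,
        Sum.elim_comp_inl, aeval_X, aeval_X, Sum.elim_inr, Sum.elim_inr] at h1
      exact h1
    obtain ⟨r1, r2, r3, r4⟩ := at_point c _ (fun j => (pol fun l => Phi cW (j, l)).eval t)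
      hG hB hx0
    refine ⟨hA, r1, r2, r3, ?_, ?_⟩
    · funext i
      rw [r4 i]
      exact curve_xs (by omega) cW t hx0 i
    · have h1 := xs_indep (k := k) (show (d - 2 * e) + 2 * e ≤ d by omega) cW _ hind w
      rw [← ht] at h1
      exact h1 hx0
  obtain ⟨uA, uP, ui0, uF0, uxs, uind⟩ := hpts 0 (algebraMap E W u) rfl
  obtain ⟨vA, vP, vi0, vF0, vxs, vind⟩ := hpts 1 (algebraMap E W v) rfl
  have hFu := FLa hY.1 hY.2 hfX hfin c.F c.hF c.P c.hP c.hrep c.i0 _ uA uP ui0 uF0
    (by rw [uxs]; exact uind)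
  have hFv := FLa hY.1 hY.2 hfX hfin c.F c.hF c.P c.hP c.hrep c.i0 _ vA vP vi0 vF0
    (by rw [vxs]; exact vind)
  have hcoeff : ∀ i l, IsAlgebraic L ((pol fun l => g (i, l)).coeff l) := by
    intro i l
    by_cases hl : l ≤ e1
    · have := pol_coeff (fun l => g (i, l)) (⟨l, by omega⟩ : Fin (e1 + 1))
      rw [this]
      exact hgL _
    · rw [Polynomial.coeff_eq_zero_of_natDegree_lt (by
        have := pol_natDegree (fun l => g (i, l))
        omega)]
      exact isAlgebraic_zero
  refine FLb hY.1 hfX c.F c.hF c.P c.hP c.hrep c.i0 _ vA vP vi0 vF0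
    (by rw [vxs]; exact vind) ?_ hFv.2
  intro i
  rw [vxs]
  have hq0 : (pol fun l => g (c.i0, l)) ≠ 0 := by
    intro h
    apply vi0
    rw [h, Polynomial.eval_zero]
  have h1 := hFu.1 i
  rw [uxs] at h1
  have h2 := hFv.1 i
  rw [vxs] at h2
  exact core he hd1 c0 u v hc0 b hb (pol fun l => g (i, l)) (pol fun l => g (c.i0, l))
    (fun l => hcoeff i l) (fun l => hcoeff c.i0 l) hq0 h1 h2

end

end Pool.Agent.Y166.GM
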