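import Mathlib
import Pool.Agent.Y166.GM.Defs

/-!
# Rational curves up to automorphisms of the projective line: definitions
-/

set_option autoImplicit false
set_option linter.unusedSectionVars false

namespace Pool.Agent.Y166.GM

open MvPolynomial

variable {k : Type} [Field k]

/-- The morphism `γ'` from the projective line is the composition of the automorphism of the
projective line given by an invertible matrix with `γ`. -/
def Reparam {σ : Type} {d : ℕ} (γ γ' : PP k (σ × Fin (d + 1))) : Prop :=
  ∃ A : Matrix (Fin 2) (Fin 2) k, A.det ≠ 0 ∧
    ∃ c, Rep γ' c ∧ ∀ s : Fin 2 → k, forms c s = forms γ.rep (A.mulVec s)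

/-- The space of the morphisms of degree `d` from the projective line to the subset `Z` of a
projective space up to automorphisms of the projective line: the quotient of `Mor Z d` by the group
`PGL_2`, with the quotient topology. It is the locus of irreducible domains in the Kontsevich space
`M_{0,0}(Z, d)`. -/
abbrev Curves {σ : Type} (Z : Set (PP k σ)) (d : ℕ) : Type :=
  Quot fun γ γ' : Mor Z d => Reparam γ.1 γ'.1

/-- The class `x` is the composition of the class `y` with the morphism `f`. -/
def IsCompQ {σ τ : Type} {Y : Set (PP k σ)} {X : Set (PP k τ)} {e d : ℕ} (f : PP k σ → PP k τ)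
    (y : Curves Y e) (x : Curves X d) : Prop :=
  ∃ (g : Mor Y e) (h : Mor X d), Quot.mk _ g = y ∧ Quot.mk _ h = x ∧ IsComp f g.1 h.1

section
variable {τ : Type} {X : Set (PP k τ)} (I : Invariants X)

/-- The component `M` of the space of rational curves of degree `d` is accumulating: there are a
breaking morphism `f : Y → X`, generically finite onto its image, from a projective variety `Y`,
and a component `N` of the space of rational curves on `Y`, such that the composition with `f` is a
dominant map from `N` to `M`. -/
def AccumulatingQ {d : ℕ} (M : Set (Curves X d)) : Prop :=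
  ∃ (n : ℕ) (Y : Set (PP k (Fin (n + 1)))) (f : PP k (Fin (n + 1)) → PP k τ),
    IsProjVar Y ∧ IsMorphism Y f ∧ Set.MapsTo f Y X ∧ GenFinite Y f ∧ Breaking I Y f ∧
    ∃ (e : ℕ), ∃ N ∈ irreducibleComponents (Curves Y e),
      (∀ y ∈ N, ∃ x ∈ M, IsCompQ f y x) ∧
      M ⊆ closure {x | x ∈ M ∧ ∃ y ∈ N, IsCompQ f y x}

/-- The Manin components of the space of rational curves of degree `d`: the irreducible components
which are not accumulating. -/
def maninCurves (d : ℕ) : Set (Set (Curves X d)) :=
  {M | M ∈ irreducibleComponents (Curves X d) ∧ ¬ AccumulatingQ I M}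

end

end Pool.Agent.Y166.GM
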